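import Mathlib
import Pool.Agent.H821R3.Wirt

/-!
A lower bound for the Dirichlet integral of functions with a rotational symmetry and mean value zero
on the circles.
-/

set_option autoImplicit false

namespace Pool.Agent.TH298.Sch

open MeasureTheory Set Real

/-- Wirtinger's inequality for functions of period `2 π / n` -/
theorem wirt_n {n : ℕ} (hn : 0 < n) (f f' : ℝ → ℝ) (hf : ∀ θ, HasDerivAt f (f' θ) θ)
    (hf' : Continuous f') (hper : ∀ θ, f (θ + 2 * π / n) = f θ)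
    (hper' : ∀ θ, f' (θ + 2 * π / n) = f' θ) (hmean : ∫ θ in (0 : ℝ)..(2 * π), f θ = 0) :
    (n : ℝ) ^ 2 * ∫ θ in (-π)..π, f θ ^ 2 ≤ ∫ θ in (-π)..π, f' θ ^ 2 := by
  have hn0 : (n : ℝ) ≠ 0 := by positivity
  have hn1 : (0 : ℝ) < n := by exact_mod_cast hn
  have hfc : Continuous f := continuous_iff_continuousAt.2 (fun x => (hf x).continuousAt)
  -- periods
  have hP : ∀ g : ℝ → ℝ, (∀ θ, g (θ + 2 * π / n) = g θ) → ∀ θ, g (θ + 2 * π) = g θ := by
    intro g hg θ
    have h1 : ∀ k : ℕ, g (θ + k * (2 * π / n)) = g θ := by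
      intro k
      induction k with
      | zero => simp
      | succ k ih =>
        have : θ + ((k + 1 : ℕ) : ℝ) * (2 * π / n) = (θ + k * (2 * π / n)) + 2 * π / n := by
          push_cast; ring
        rw [this, hg, ih]
    have h2 := h1 n
    have h3 : (n : ℝ) * (2 * π / n) = 2 * π := by field_simp
    rwa [h3] at h2
  have hI : ∀ g : ℝ → ℝ, Continuous g → (∀ θ, g (θ + 2 * π / n) = g θ) →
      ∫ θ in (0 : ℝ)..(2 * π), g (θ / n) = ∫ θ in (0 : ℝ)..(2 * π), g θ := by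
    intro g hgc hg
    have hp : Function.Periodic g (2 * π / n) := hg
    rw [intervalIntegral.integral_comp_div g hn0, zero_div]
    have h1 := hp.intervalIntegral_add_zsmul_eq n 0 (fun t₁ t₂ => hgc.intervalIntegrable _ _)
    rw [zero_add, zero_add] at h1
    have h3 : (n : ℤ) • (2 * π / n) = 2 * π := by
      rw [zsmul_eq_mul]
      push_cast
      field_simp
    rw [h3, zsmul_eq_mul] at h1
    rw [h1, smul_eq_mul]
    push_cast
    ring
  have hS : ∀ g : ℝ → ℝ, (∀ θ, g (θ + 2 * π) = g θ) →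
      ∫ θ in (-π)..π, g θ = ∫ θ in (0 : ℝ)..(2 * π), g θ := by
    intro g hg
    have hp : Function.Periodic g (2 * π) := hg
    have := hp.intervalIntegral_add_eq (-π) 0
    rw [zero_add] at this
    have h2 : -π + 2 * π = π := by ring
    rw [h2] at this
    exact this
  have hg : ∀ θ, HasDerivAt (fun θ => f (θ / n)) (f' (θ / n) / n) θ := by
    intro θ
    have := (hf (θ / n)).comp θ ((hasDerivAt_id θ).div_const (n : ℝ))
    refine this.congr_deriv ?_
    ring
  have hg' : Continuous fun θ => f' (θ / n) / n := by fun_prop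
  have hsh : ∀ θ : ℝ, (θ + 2 * π) / n = θ / n + 2 * π / n := fun θ => by ring
  have hw := Pool.Agent.H821R3.wirtinger (fun θ => f (θ / n)) (fun θ => f' (θ / n) / n) hg hg'
    (fun θ => by simp only [hsh, hper]) (fun θ => by simp only [hsh, hper'])
  rw [hI f hfc hper, hmean] at hw
  have e1 : ∫ θ in (0 : ℝ)..(2 * π), f (θ / n) ^ 2 = ∫ θ in (-π)..π, f θ ^ 2 := by
    rw [hI (fun θ => f θ ^ 2) (hfc.pow 2) (fun θ => by simp only [hper])]
    exact (hS (fun θ => f θ ^ 2) (fun θ => by simp only [hP f hper])).symm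
  have e2 : ∫ θ in (0 : ℝ)..(2 * π), (f' (θ / n) / n) ^ 2 = (∫ θ in (-π)..π, f' θ ^ 2) / n ^ 2 := by
    have : ∀ θ : ℝ, (f' (θ / n) / n) ^ 2 = (f' (θ / n) ^ 2) / n ^ 2 := fun θ => by ring
    simp only [this]
    rw [intervalIntegral.integral_div, hI (fun θ => f' θ ^ 2) (hf'.pow 2)
      (fun θ => by simp only [hper'])]
    rw [hS (fun θ => f' θ ^ 2) (fun θ => by simp only [hP f' hper'])]
  rw [e1, e2] at hw
  have h3 : ∫ θ in (-π)..π, f θ ^ 2 ≤ (∫ θ in (-π)..π, f' θ ^ 2) / n ^ 2 := by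
    linarith
  rw [le_div_iff₀ (by positivity)] at h3
  linarith

/-- the comparison function -/
structure Comp (n : ℕ) (S : ℝ) (z z1 z2 : ℝ → ℝ) : Prop where
  d1 : ∀ s, HasDerivAt z (z1 s) s
  d2 : ∀ s, HasDerivAt z1 (z2 s) s
  pos : ∀ s ∈ Icc 0 S, 0 < z s
  ineq : ∀ s ∈ Icc 0 S, s * z2 s + (n + 1) * z1 s + z s ≤ 0

/-- the radial inequality -/
theorem rad {n : ℕ} {b μ : ℝ} (hb : 0 < b) (hμ : 0 < μ) {z z1 z2 : ℝ → ℝ}
    (hz : Comp n (μ * b ^ 2 / 4) z z1 z2) {w w' : ℝ → ℝ} (hw : ∀ r, HasDerivAt w (w' r) r)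
    (hw' : Continuous w') (h0 : w 0 = 0) (h1 : w b = 0) :
    IntervalIntegrable (fun r => w r ^ 2 / r) volume 0 b ∧
    μ * ∫ r in (0 : ℝ)..b, r * w r ^ 2 ≤
      (∫ r in (0 : ℝ)..b, r * w' r ^ 2) + (n : ℝ) ^ 2 * ∫ r in (0 : ℝ)..b, w r ^ 2 / r := by
  have hwc : Continuous w := continuous_iff_continuousAt.2 (fun x => (hw x).continuousAt)
  -- the bound for w
  obtain ⟨C, hC⟩ : ∃ C, ∀ r ∈ Icc (0 : ℝ) b, |w' r| ≤ C := by
    have := (isCompact_Icc (a := (0 : ℝ)) (b := b)).exists_bound_of_continuousOn hw'.continuousOn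
    simpa only [Real.norm_eq_abs] using this
  have hC0 : 0 ≤ C := (abs_nonneg _).trans (hC 0 ⟨le_rfl, hb.le⟩)
  have hwb : ∀ r ∈ Icc (0 : ℝ) b, |w r| ≤ C * r := by
    intro r hr
    have := (convex_Icc (0 : ℝ) b).norm_image_sub_le_of_norm_hasDerivWithin_le
      (f := w) (f' := w') (C := C) (fun x _ => (hw x).hasDerivWithinAt)
      (fun x hx => by rw [Real.norm_eq_abs]; exact hC x hx) ⟨le_rfl, hb.le⟩ hr
    rw [h0, sub_zero, sub_zero, Real.norm_eq_abs, Real.norm_eq_abs, abs_of_nonneg hr.1] at this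
    exact this
  have hii : IntervalIntegrable (fun r => w r ^ 2 / r) volume 0 b := by
    rw [intervalIntegrable_iff_integrableOn_Ioc_of_le hb.le]
    refine Measure.integrableOn_of_bounded (M := C ^ 2 * b) (by simp) ?_ ?_
    · exact ((hwc.measurable.pow_const 2).div measurable_id).aestronglyMeasurable
    · refine (ae_restrict_iff' measurableSet_Ioc).2 (Filter.Eventually.of_forall fun r hr => ?_)
      rw [Real.norm_eq_abs, abs_of_nonneg (div_nonneg (sq_nonneg _) hr.1.le), div_le_iff₀ hr.1]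
      have k1 := hwb r ⟨hr.1.le, hr.2⟩
      have k2 : w r ^ 2 ≤ (C * r) ^ 2 := by
        rw [← sq_abs]
        exact pow_le_pow_left₀ (abs_nonneg _) k1 2
      have k3 : C ^ 2 * r * r ≤ C ^ 2 * b * r := by
        apply mul_le_mul_of_nonneg_right _ hr.1.le
        exact mul_le_mul_of_nonneg_left hr.2 (sq_nonneg _)
      nlinarith
  refine ⟨hii, ?_⟩
  -- the Riccati function
  set σ : ℝ → ℝ := fun r => μ * r ^ 2 / 4 with hσ
  set c : ℝ → ℝ := fun r => n + 2 * σ r * (z1 (σ r) / z (σ r)) with hc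
  have hσm : ∀ r ∈ Icc (0 : ℝ) b, σ r ∈ Icc (0 : ℝ) (μ * b ^ 2 / 4) := by
    intro r hr
    rw [hσ]
    constructor
    · positivity
    · simp only []
      have : r ^ 2 ≤ b ^ 2 := pow_le_pow_left₀ hr.1 hr.2 2
      nlinarith
  have hσd : ∀ r, HasDerivAt σ (μ * r / 2) r := by
    intro r
    have := (((hasDerivAt_id r).pow 2).const_mul μ).div_const 4
    refine this.congr_deriv ?_
    simp only [id_eq]
    push_cast
    ring
  have hcd : ∀ r ∈ Icc (0 : ℝ) b, HasDerivAt c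
      (2 * (μ * r / 2) * (z1 (σ r) / z (σ r)) + 2 * σ r *
        ((z2 (σ r) * (μ * r / 2) * z (σ r) - z1 (σ r) * (z1 (σ r) * (μ * r / 2))) /
          z (σ r) ^ 2)) r := by
    intro r hr
    have hp := (hz.pos _ (hσm r hr)).ne'
    have k1 : HasDerivAt (fun r => z (σ r)) (z1 (σ r) * (μ * r / 2)) r :=
      (hz.d1 (σ r)).comp r (hσd r)
    have k2 : HasDerivAt (fun r => z1 (σ r)) (z2 (σ r) * (μ * r / 2)) r :=
      (hz.d2 (σ r)).comp r (hσd r)
    have k3 := (((hσd r).const_mul 2).mul (k2.div k1 hp)).const_add (n : ℝ)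
    exact k3
  set Θ : ℝ → ℝ := fun r => c r * w r ^ 2 with hΘ
  set Θ' : ℝ → ℝ := fun r => (2 * (μ * r / 2) * (z1 (σ r) / z (σ r)) + 2 * σ r *
        ((z2 (σ r) * (μ * r / 2) * z (σ r) - z1 (σ r) * (z1 (σ r) * (μ * r / 2))) /
          z (σ r) ^ 2)) * w r ^ 2 + c r * (2 * w r * w' r) with hΘ'
  have hΘd : ∀ r ∈ Icc (0 : ℝ) b, HasDerivAt Θ (Θ' r) r := by
    intro r hr
    have := (hcd r hr).mul ((hw r).pow 2)
    refine this.congr_deriv ?_
    rw [hΘ']
    simp only [Pi.pow_apply, Nat.cast_ofNat, Nat.add_one_sub_one, pow_one]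
  have hcont : ContinuousOn Θ (Icc 0 b) := fun r hr => (hΘd r hr).continuousAt.continuousWithinAt
  set φ : ℝ → ℝ := fun r => r * w' r ^ 2 + (n : ℝ) ^ 2 * (w r ^ 2 / r) - μ * (r * w r ^ 2) with hφ
  have i1 : IntervalIntegrable (fun r => r * w' r ^ 2) volume 0 b :=
    (continuous_id.mul (hw'.pow 2)).intervalIntegrable _ _
  have i2 : IntervalIntegrable (fun r => r * w r ^ 2) volume 0 b :=
    (continuous_id.mul (hwc.pow 2)).intervalIntegrable _ _
  have hφi : IntervalIntegrable φ volume 0 b := (i1.add (hii.const_mul _)).sub (i2.const_mul _)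
  have hle : ∀ r ∈ Ioo (0 : ℝ) b, Θ' r ≤ φ r := by
    intro r hr
    have hr0 := hr.1
    have hrI : r ∈ Icc (0 : ℝ) b := ⟨hr.1.le, hr.2.le⟩
    have hp := hz.pos _ (hσm r hrI)
    have hineq := hz.ineq _ (hσm r hrI)
    have hs0 := (hσm r hrI).1
    have hσr : σ r = μ * r ^ 2 / 4 := rfl
    rw [hΘ', hφ]
    simp only [hc]
    generalize hs : σ r = s at *
    generalize hzz : z s = Z at *
    generalize hzz1 : z1 s = Z1 at *
    generalize hzz2 : z2 s = Z2 at *
    generalize w r = W at *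
    generalize w' r = W' at *
    -- reduce
    have key : 0 ≤ -(s * Z2 + (n + 1) * Z1 + Z) * (4 * s) / Z := by
      apply div_nonneg _ hp.le
      apply mul_nonneg <;> linarith
    have hrewrite : (r * W' ^ 2 + (n : ℝ) ^ 2 * (W ^ 2 / r) - μ * (r * W ^ 2)) -
        ((2 * (μ * r / 2) * (Z1 / Z) + 2 * s *
        ((Z2 * (μ * r / 2) * Z - Z1 * (Z1 * (μ * r / 2))) / Z ^ 2)) * W ^ 2 +
        (n + 2 * s * (Z1 / Z)) * (2 * W * W')) =
        r * (W' - (n + 2 * s * (Z1 / Z)) * W / r) ^ 2 +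
        W ^ 2 / r * (-(s * Z2 + (n + 1) * Z1 + Z) * (4 * s) / Z) := by
      rw [hσr]
      field_simp
      ring
    have k1 : 0 ≤ r * (W' - (n + 2 * s * (Z1 / Z)) * W / r) ^ 2 := by positivity
    have k2 : 0 ≤ W ^ 2 / r * (-(s * Z2 + (n + 1) * Z1 + Z) * (4 * s) / Z) :=
      mul_nonneg (by positivity) key
    linarith
  have hFTC := intervalIntegral.sub_le_integral_of_hasDeriv_right_of_le hb.le hcont
    (fun x hx => (hΘd x ⟨hx.1.le, hx.2.le⟩).hasDerivWithinAt)
    ((intervalIntegrable_iff_integrableOn_Icc_of_le hb.le).1 hφi) hle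
  have hΘ0 : Θ 0 = 0 := by rw [hΘ]; simp only [h0]; ring
  have hΘb : Θ b = 0 := by rw [hΘ]; simp only [h1]; ring
  rw [hΘ0, hΘb, sub_zero] at hFTC
  have hsum : ∫ r in (0 : ℝ)..b, φ r = (∫ r in (0 : ℝ)..b, r * w' r ^ 2) +
      (n : ℝ) ^ 2 * (∫ r in (0 : ℝ)..b, w r ^ 2 / r) - μ * ∫ r in (0 : ℝ)..b, r * w r ^ 2 := by
    rw [hφ, intervalIntegral.integral_sub (i1.add (hii.const_mul _)) (i2.const_mul _),
      intervalIntegral.integral_add i1 (hii.const_mul _), intervalIntegral.integral_const_mul,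
      intervalIntegral.integral_const_mul]
  rw [hsum] at hFTC
  linarith

/-- polar coordinates -/
noncomputable def X (r θ : ℝ) : ℂ := r * (Real.cos θ + Real.sin θ * Complex.I)

/-- the radial direction -/
noncomputable def er (θ : ℝ) : ℂ := Real.cos θ + Real.sin θ * Complex.I

/-- the angular direction -/
noncomputable def et (θ : ℝ) : ℂ := -Real.sin θ + Real.cos θ * Complex.I

theorem er_exp (θ : ℝ) : er θ = Complex.exp (θ * Complex.I) := by
  rw [Complex.exp_mul_I, er, Complex.ofReal_cos, Complex.ofReal_sin]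

theorem X_eq (r θ : ℝ) : X r θ = r * er θ := rfl

theorem X_cont : Continuous fun p : ℝ × ℝ => X p.1 p.2 := by
  unfold X
  fun_prop

theorem X_dr (r θ : ℝ) : HasDerivAt (fun r : ℝ => X r θ) (er θ) r := by
  have h1 : HasDerivAt (fun r : ℝ => (r : ℂ)) 1 r := Complex.ofRealCLM.hasDerivAt
  have := h1.mul_const (er θ)
  rw [one_mul] at this
  exact this

theorem X_dt (r θ : ℝ) : HasDerivAt (fun θ : ℝ => X r θ) (r * et θ) θ := by
  have h1 : HasDerivAt (fun θ : ℝ => ((Real.cos θ : ℝ) : ℂ)) ((-Real.sin θ : ℝ) : ℂ) θ :=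
    (Real.hasDerivAt_cos θ).ofReal_comp
  have h2 : HasDerivAt (fun θ : ℝ => ((Real.sin θ : ℝ) : ℂ)) ((Real.cos θ : ℝ) : ℂ) θ :=
    (Real.hasDerivAt_sin θ).ofReal_comp
  have := (h1.add (h2.mul_const Complex.I)).const_mul (r : ℂ)
  refine this.congr_deriv ?_
  unfold et
  push_cast
  ring

theorem norm_X (r θ : ℝ) : ‖X r θ‖ = |r| := by
  rw [X_eq, er_exp, norm_mul, Complex.norm_exp_ofReal_mul_I, mul_one, Complex.norm_real,
    Real.norm_eq_abs]

theorem X_add (r θ α : ℝ) : X r (θ + α) = Complex.exp (α * Complex.I) * X r θ := by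
  rw [X_eq, X_eq, er_exp, er_exp]
  push_cast
  rw [add_mul, Complex.exp_add]
  ring

/-- the values of a real linear map in the two directions -/
theorem lin_er (T : ℂ →L[ℝ] ℝ) (θ : ℝ) : T (er θ) = cos θ * T 1 + sin θ * T Complex.I := by
  have : er θ = (cos θ) • (1 : ℂ) + (sin θ) • Complex.I := by
    unfold er
    simp [Complex.real_smul]
  rw [this, map_add, map_smul, map_smul, smul_eq_mul, smul_eq_mul]

theorem lin_et (T : ℂ →L[ℝ] ℝ) (θ : ℝ) : T (et θ) = -sin θ * T 1 + cos θ * T Complex.I := by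
  have : et θ = (-sin θ) • (1 : ℂ) + (cos θ) • Complex.I := by
    unfold et
    simp [Complex.real_smul]
  rw [this, map_add, map_smul, map_smul, smul_eq_mul, smul_eq_mul]

theorem lin_sq (T : ℂ →L[ℝ] ℝ) (θ : ℝ) :
    T (er θ) ^ 2 + T (et θ) ^ 2 = T 1 ^ 2 + T Complex.I ^ 2 := by
  rw [lin_er, lin_et]
  have := sin_sq_add_cos_sq θ
  linear_combination (T 1 ^ 2 + T Complex.I ^ 2) * this

open ENNReal in
/-- the coercivity inequality -/
theorem coer {n : ℕ} (hn : 0 < n) {b μ : ℝ} (hb : 0 < b) (hμ : 0 < μ) {z z1 z2 : ℝ → ℝ}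
    (hz : Comp n (μ * b ^ 2 / 4) z z1 z2) {v : ℂ → ℝ} (hv : ContDiff ℝ 1 v)
    (hsupp : ∀ x, b ≤ ‖x‖ → v x = 0) (h0 : v 0 = 0)
    (hper : ∀ x, v (Complex.exp ((2 * π / n : ℝ) * Complex.I) * x) = v x)
    (hmean : ∀ r : ℝ, 0 < r → ∫ θ in (0 : ℝ)..(2 * π), v (X r θ) = 0) :
    μ * ∫ x, v x ^ 2 ≤ ∫ x, ((fderiv ℝ v x 1) ^ 2 + (fderiv ℝ v x Complex.I) ^ 2) := by
  have hd : ∀ x, HasFDerivAt v (fderiv ℝ v x) x := fun x =>
    (hv.differentiable one_ne_zero x).hasFDerivAt
  have hvc : Continuous v := hv.continuous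
  have hdc : Continuous (fderiv ℝ v) := hv.continuous_fderiv one_ne_zero
  have hcs : HasCompactSupport v := by
    refine HasCompactSupport.intro (isCompact_closedBall (0 : ℂ) b) fun x hx => ?_
    rw [mem_closedBall_zero_iff, not_le] at hx
    exact hsupp x hx.le
  have hdcs : HasCompactSupport (fderiv ℝ v) := hcs.fderiv ℝ
  -- the derivatives in polar coordinates
  have hdr : ∀ r θ : ℝ, HasDerivAt (fun r : ℝ => v (X r θ)) (fderiv ℝ v (X r θ) (er θ)) r :=
    fun r θ => (hd (X r θ)).comp_hasDerivAt r (X_dr r θ)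
  have hdt : ∀ r θ : ℝ, HasDerivAt (fun θ : ℝ => v (X r θ))
      (r * fderiv ℝ v (X r θ) (et θ)) θ := by
    intro r θ
    have h1 := (hd (X r θ)).comp_hasDerivAt θ (X_dt r θ)
    refine h1.congr_deriv ?_
    rw [show (r : ℂ) * et θ = r • et θ from (Complex.real_smul).symm, map_smul, smul_eq_mul]
  have hXc := X_cont
  have hwc : Continuous fun p : ℝ × ℝ => v (X p.1 p.2) := hvc.comp hXc
  have herc : Continuous er := by unfold er; fun_prop
  have hetc : Continuous et := by unfold et; fun_prop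
  have hrc : Continuous fun p : ℝ × ℝ => fderiv ℝ v (X p.1 p.2) (er p.2) :=
    (hdc.comp hXc).clm_apply (herc.comp continuous_snd)
  have htc : Continuous fun p : ℝ × ℝ => fderiv ℝ v (X p.1 p.2) (et p.2) :=
    (hdc.comp hXc).clm_apply (hetc.comp continuous_snd)
  -- step A
  have hA : ∀ r : ℝ, 0 < r →
      ∫⁻ θ in Ioo (-π) π, ENNReal.ofReal ((n : ℝ) ^ 2 * (v (X r θ) ^ 2 / r)) ≤
      ∫⁻ θ in Ioo (-π) π, ENNReal.ofReal ((r * fderiv ℝ v (X r θ) (et θ)) ^ 2 / r) := by
    intro r hr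
    have c1 : Continuous fun θ : ℝ => v (X r θ) :=
      hwc.comp (continuous_const.prodMk continuous_id)
    have c2 : Continuous fun θ : ℝ => r * fderiv ℝ v (X r θ) (et θ) :=
      continuous_const.mul (htc.comp (continuous_const.prodMk continuous_id))
    have hp : ∀ θ : ℝ, v (X r (θ + 2 * π / n)) = v (X r θ) := fun θ => by rw [X_add, hper]
    have hp' : ∀ θ : ℝ, r * fderiv ℝ v (X r (θ + 2 * π / n)) (et (θ + 2 * π / n)) =
        r * fderiv ℝ v (X r θ) (et θ) := by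
      intro θ
      have k1 : HasDerivAt (fun θ : ℝ => v (X r (θ + 2 * π / n)))
          (r * fderiv ℝ v (X r (θ + 2 * π / n)) (et (θ + 2 * π / n))) θ :=
        (hdt r (θ + 2 * π / n)).comp_add_const θ (2 * π / n)
      have k2 : (fun θ : ℝ => v (X r (θ + 2 * π / n))) = fun θ : ℝ => v (X r θ) := funext hp
      rw [k2] at k1
      exact k1.unique (hdt r θ)
    have hW := wirt_n hn (fun θ => v (X r θ)) (fun θ => r * fderiv ℝ v (X r θ) (et θ))
      (hdt r) c2 hp hp' (hmean r hr)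
    have i1 : IntegrableOn (fun θ => (n : ℝ) ^ 2 * (v (X r θ) ^ 2 / r)) (Ioo (-π) π) := by
      have : Continuous fun θ => (n : ℝ) ^ 2 * (v (X r θ) ^ 2 / r) := by fun_prop
      exact (this.integrableOn_Icc (a := -π) (b := π)).mono_set Ioo_subset_Icc_self
    have i2 : IntegrableOn (fun θ => (r * fderiv ℝ v (X r θ) (et θ)) ^ 2 / r) (Ioo (-π) π) := by
      have : Continuous fun θ => (r * fderiv ℝ v (X r θ) (et θ)) ^ 2 / r := by fun_prop
      exact (this.integrableOn_Icc (a := -π) (b := π)).mono_set Ioo_subset_Icc_self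
    rw [← ofReal_integral_eq_lintegral_ofReal i1 (Filter.Eventually.of_forall fun θ => by
        simp only [Pi.zero_apply]; positivity),
      ← ofReal_integral_eq_lintegral_ofReal i2 (Filter.Eventually.of_forall fun θ => by
        simp only [Pi.zero_apply]; positivity)]
    apply ENNReal.ofReal_le_ofReal
    rw [← integral_Ioc_eq_integral_Ioo, ← integral_Ioc_eq_integral_Ioo,
      ← intervalIntegral.integral_of_le (by linarith [pi_pos]),
      ← intervalIntegral.integral_of_le (by linarith [pi_pos]),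
      intervalIntegral.integral_const_mul, intervalIntegral.integral_div,
      intervalIntegral.integral_div, mul_div_assoc']
    exact div_le_div_of_nonneg_right hW hr.le
  -- step B
  have hB : ∀ θ : ℝ, ∫⁻ r in Ioi (0 : ℝ), ENNReal.ofReal (μ * (r * v (X r θ) ^ 2)) ≤
      ∫⁻ r in Ioi (0 : ℝ), (ENNReal.ofReal (r * fderiv ℝ v (X r θ) (er θ) ^ 2) +
        ENNReal.ofReal ((n : ℝ) ^ 2 * (v (X r θ) ^ 2 / r))) := by
    intro θ
    have c1 : Continuous fun r : ℝ => v (X r θ) :=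
      hwc.comp (continuous_id.prodMk continuous_const)
    have c2 : Continuous fun r : ℝ => fderiv ℝ v (X r θ) (er θ) :=
      hrc.comp (continuous_id.prodMk continuous_const)
    obtain ⟨hii, hrad⟩ := rad hb hμ hz (fun r => hdr r θ) c2
      (by simp only [X, Complex.ofReal_zero, zero_mul, h0])
      (hsupp _ (by rw [norm_X, abs_of_pos hb]))
    have hz0 : ∫⁻ r in Ioi (0 : ℝ), ENNReal.ofReal (μ * (r * v (X r θ) ^ 2)) =
        ∫⁻ r in Ioc (0 : ℝ) b, ENNReal.ofReal (μ * (r * v (X r θ) ^ 2)) := by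
      rw [← Ioc_union_Ioi_eq_Ioi hb.le, lintegral_union measurableSet_Ioi
        (Ioc_disjoint_Ioi le_rfl)]
      have : ∫⁻ r in Ioi b, ENNReal.ofReal (μ * (r * v (X r θ) ^ 2)) = 0 := by
        refine setLIntegral_eq_zero measurableSet_Ioi fun r hr => ?_
        rw [mem_Ioi] at hr
        have : v (X r θ) = 0 := hsupp _ (by rw [norm_X, abs_of_pos (hb.trans hr)]; exact hr.le)
        simp only [this, Pi.zero_apply]
        norm_num
      rw [this, add_zero]
    rw [hz0]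
    refine le_trans ?_ (lintegral_mono_set (Ioc_subset_Ioi_self : Ioc (0 : ℝ) b ⊆ Ioi 0))
    have i1 : IntegrableOn (fun r => μ * (r * v (X r θ) ^ 2)) (Ioc 0 b) := by
      have : Continuous fun r => μ * (r * v (X r θ) ^ 2) := by fun_prop
      exact (this.integrableOn_Icc (a := 0) (b := b)).mono_set Ioc_subset_Icc_self
    have i2 : IntegrableOn (fun r => r * fderiv ℝ v (X r θ) (er θ) ^ 2) (Ioc 0 b) := by
      have : Continuous fun r => r * fderiv ℝ v (X r θ) (er θ) ^ 2 := by fun_prop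
      exact (this.integrableOn_Icc (a := 0) (b := b)).mono_set Ioc_subset_Icc_self
    have i3 : IntegrableOn (fun r => (n : ℝ) ^ 2 * (v (X r θ) ^ 2 / r)) (Ioc 0 b) :=
      (((intervalIntegrable_iff_integrableOn_Ioc_of_le hb.le).1 hii).const_mul _)
    have e1 : ∫⁻ r in Ioc (0 : ℝ) b, (ENNReal.ofReal (r * fderiv ℝ v (X r θ) (er θ) ^ 2) +
        ENNReal.ofReal ((n : ℝ) ^ 2 * (v (X r θ) ^ 2 / r))) =
        ∫⁻ r in Ioc (0 : ℝ) b, ENNReal.ofReal (r * fderiv ℝ v (X r θ) (er θ) ^ 2 +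
        (n : ℝ) ^ 2 * (v (X r θ) ^ 2 / r)) := by
      refine setLIntegral_congr_fun measurableSet_Ioc fun r hr => ?_
      have := hr.1
      rw [ENNReal.ofReal_add (by positivity) (by positivity)]
    have i4 : IntegrableOn (fun r => r * fderiv ℝ v (X r θ) (er θ) ^ 2 +
        (n : ℝ) ^ 2 * (v (X r θ) ^ 2 / r)) (Ioc 0 b) := i2.add i3
    rw [e1, ← ofReal_integral_eq_lintegral_ofReal i1, ← ofReal_integral_eq_lintegral_ofReal i4]
    · apply ENNReal.ofReal_le_ofReal
      rw [← intervalIntegral.integral_of_le hb.le, ← intervalIntegral.integral_of_le hb.le,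
        intervalIntegral.integral_const_mul, intervalIntegral.integral_add
        ((intervalIntegrable_iff_integrableOn_Ioc_of_le hb.le).2 i2)
        ((intervalIntegrable_iff_integrableOn_Ioc_of_le hb.le).2 i3),
        intervalIntegral.integral_const_mul]
      exact hrad
    · refine (ae_restrict_iff' measurableSet_Ioc).2 (Filter.Eventually.of_forall fun r hr => ?_)
      have := hr.1
      simp only [Pi.zero_apply]
      positivity
    · refine (ae_restrict_iff' measurableSet_Ioc).2 (Filter.Eventually.of_forall fun r hr => ?_)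
      have := hr.1
      simp only [Pi.zero_apply]
      positivity
  -- measurability
  set μ1 : Measure ℝ := volume.restrict (Ioi 0) with hμ1
  set μ2 : Measure ℝ := volume.restrict (Ioo (-π) π) with hμ2
  have mP : Measurable fun p : ℝ × ℝ =>
      ENNReal.ofReal (p.1 * fderiv ℝ v (X p.1 p.2) (er p.2) ^ 2) :=
    (continuous_fst.mul (hrc.pow 2)).measurable.ennreal_ofReal
  have mQ : Measurable fun p : ℝ × ℝ =>
      ENNReal.ofReal ((p.1 * fderiv ℝ v (X p.1 p.2) (et p.2)) ^ 2 / p.1) :=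
    (((continuous_fst.mul htc).pow 2).measurable.div measurable_fst).ennreal_ofReal
  have mN : Measurable fun p : ℝ × ℝ => ENNReal.ofReal ((n : ℝ) ^ 2 * (v (X p.1 p.2) ^ 2 / p.1)) :=
    (((hwc.pow 2).measurable.div measurable_fst).const_mul _).ennreal_ofReal
  have mM : Measurable fun p : ℝ × ℝ => ENNReal.ofReal (μ * (p.1 * v (X p.1 p.2) ^ 2)) :=
    (continuous_const.mul (continuous_fst.mul (hwc.pow 2))).measurable.ennreal_ofReal
  have s1 : ∫⁻ p, ENNReal.ofReal (μ * (p.1 * v (X p.1 p.2) ^ 2)) ∂(μ1.prod μ2) ≤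
      ∫⁻ p, (ENNReal.ofReal (p.1 * fderiv ℝ v (X p.1 p.2) (er p.2) ^ 2) +
        ENNReal.ofReal ((n : ℝ) ^ 2 * (v (X p.1 p.2) ^ 2 / p.1))) ∂(μ1.prod μ2) := by
    have mPN : Measurable fun p : ℝ × ℝ =>
        (ENNReal.ofReal (p.1 * fderiv ℝ v (X p.1 p.2) (er p.2) ^ 2) +
        ENNReal.ofReal ((n : ℝ) ^ 2 * (v (X p.1 p.2) ^ 2 / p.1))) := mP.add mN
    rw [lintegral_prod_symm _ mM.aemeasurable, lintegral_prod_symm _ mPN.aemeasurable]
    exact lintegral_mono fun θ => hB θ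
  have s2 : ∫⁻ p, ENNReal.ofReal ((n : ℝ) ^ 2 * (v (X p.1 p.2) ^ 2 / p.1)) ∂(μ1.prod μ2) ≤
      ∫⁻ p, ENNReal.ofReal ((p.1 * fderiv ℝ v (X p.1 p.2) (et p.2)) ^ 2 / p.1)
        ∂(μ1.prod μ2) := by
    rw [lintegral_prod _ mN.aemeasurable, lintegral_prod _ mQ.aemeasurable, hμ1]
    refine setLIntegral_mono' measurableSet_Ioi fun r hr => ?_
    exact hA r hr
  have s3 : ∫⁻ p, ENNReal.ofReal (μ * (p.1 * v (X p.1 p.2) ^ 2)) ∂(μ1.prod μ2) ≤
      ∫⁻ p, (ENNReal.ofReal (p.1 * fderiv ℝ v (X p.1 p.2) (er p.2) ^ 2) +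
        ENNReal.ofReal ((p.1 * fderiv ℝ v (X p.1 p.2) (et p.2)) ^ 2 / p.1)) ∂(μ1.prod μ2) := by
    refine s1.trans ?_
    rw [lintegral_add_left mP, lintegral_add_left mP]
    exact add_le_add le_rfl s2
  have hprod : μ1.prod μ2 = (volume : Measure (ℝ × ℝ)).restrict (Ioi 0 ×ˢ Ioo (-π) π) := by
    rw [hμ1, hμ2, Measure.prod_restrict]
    rfl
  have htarget : polarCoord.target = Ioi (0 : ℝ) ×ˢ Ioo (-π) π := rfl
  have hmt : MeasurableSet (Ioi (0 : ℝ) ×ˢ Ioo (-π) π) := measurableSet_Ioi.prod measurableSet_Ioo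
  rw [hprod] at s3
  -- back to the plane
  have t1 : ∫⁻ x : ℂ, ENNReal.ofReal (μ * v x ^ 2) =
      ∫⁻ p in Ioi (0 : ℝ) ×ˢ Ioo (-π) π, ENNReal.ofReal (μ * (p.1 * v (X p.1 p.2) ^ 2)) := by
    rw [← Complex.lintegral_comp_polarCoord_symm, htarget]
    refine setLIntegral_congr_fun hmt fun p hp => ?_
    have hp1 : 0 < p.1 := hp.1
    simp only [smul_eq_mul]
    rw [← ENNReal.ofReal_mul hp1.le, Complex.polarCoord_symm_apply]
    congr 1
    unfold X
    ring
  have t2 : ∫⁻ x : ℂ, ENNReal.ofReal ((fderiv ℝ v x 1) ^ 2 + (fderiv ℝ v x Complex.I) ^ 2) =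
      ∫⁻ p in Ioi (0 : ℝ) ×ˢ Ioo (-π) π,
        (ENNReal.ofReal (p.1 * fderiv ℝ v (X p.1 p.2) (er p.2) ^ 2) +
        ENNReal.ofReal ((p.1 * fderiv ℝ v (X p.1 p.2) (et p.2)) ^ 2 / p.1)) := by
    rw [← Complex.lintegral_comp_polarCoord_symm, htarget]
    refine setLIntegral_congr_fun hmt fun p hp => ?_
    have hp1 : 0 < p.1 := hp.1
    simp only [smul_eq_mul]
    rw [← ENNReal.ofReal_mul hp1.le, Complex.polarCoord_symm_apply,
      ← ENNReal.ofReal_add (by positivity) (by positivity)]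
    congr 1
    change p.1 * ((fderiv ℝ v (X p.1 p.2) 1) ^ 2 + (fderiv ℝ v (X p.1 p.2) Complex.I) ^ 2) = _
    rw [← lin_sq _ p.2]
    field_simp
  rw [← t1, ← t2] at s3
  have j1 : Integrable fun x => μ * v x ^ 2 := by
    have : Continuous fun x => μ * v x ^ 2 := by fun_prop
    refine this.integrable_of_hasCompactSupport ?_
    refine HasCompactSupport.intro (isCompact_closedBall (0 : ℂ) b) fun x hx => ?_
    rw [mem_closedBall_zero_iff, not_le] at hx
    simp only [hsupp x hx.le]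
    ring
  have j2 : Integrable fun x => (fderiv ℝ v x 1) ^ 2 + (fderiv ℝ v x Complex.I) ^ 2 := by
    have : Continuous fun x => (fderiv ℝ v x 1) ^ 2 + (fderiv ℝ v x Complex.I) ^ 2 := by fun_prop
    refine this.integrable_of_hasCompactSupport ?_
    exact hdcs.comp_left (g := fun T : ℂ →L[ℝ] ℝ => T 1 ^ 2 + T Complex.I ^ 2) (by simp)
  rw [← integral_const_mul]
  rw [← ofReal_integral_eq_lintegral_ofReal j1 (Filter.Eventually.of_forall fun x => by
        simp only [Pi.zero_apply]; positivity),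
      ← ofReal_integral_eq_lintegral_ofReal j2 (Filter.Eventually.of_forall fun x => by
        simp only [Pi.zero_apply]; positivity)] at s3
  rwa [ENNReal.ofReal_le_ofReal_iff (integral_nonneg fun x => by
    simp only [Pi.zero_apply]; positivity)] at s3

end Pool.Agent.TH298.Sch
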