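import Mathlib

/-!
The rotation derivative of functions of the plane.
-/

set_option autoImplicit false

namespace Pool.Agent.TH298.Sch

open MeasureTheory Set
open scoped ContDiff

/-- smooth functions with compact support -/
structure SC (φ : ℂ → ℝ) : Prop where
  sm : ContDiff ℝ ∞ φ
  cs : HasCompactSupport φ

/-- the rotation derivative -/
noncomputable def Lr (φ : ℂ → ℝ) (x : ℂ) : ℝ := fderiv ℝ φ x (Complex.I * x)

/-- directional derivatives -/
noncomputable def dd (h : ℂ) (φ : ℂ → ℝ) (x : ℂ) : ℝ := fderiv ℝ φ x h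

/-- the scalar product of the gradients -/
noncomputable def gr (φ ψ : ℂ → ℝ) (x : ℂ) : ℝ :=
  dd 1 φ x * dd 1 ψ x + dd Complex.I φ x * dd Complex.I ψ x

theorem lin_val (T : ℂ →L[ℝ] ℝ) (x : ℂ) : T x = x.re * T 1 + x.im * T Complex.I := by
  have : x = x.re • (1 : ℂ) + x.im • Complex.I := by
    simp only [Complex.real_smul, mul_one]
    exact (Complex.re_add_im x).symm
  conv_lhs => rw [this]
  rw [map_add, map_smul, map_smul, smul_eq_mul, smul_eq_mul]

theorem Lr_eq (φ : ℂ → ℝ) (x : ℂ) : Lr φ x = -x.im * dd 1 φ x + x.re * dd Complex.I φ x := by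
  unfold Lr dd
  rw [lin_val]
  simp

theorem dd_sc {φ : ℂ → ℝ} (h : SC φ) (v : ℂ) : SC (dd v φ) := by
  constructor
  · exact (h.sm.fderiv_right (m := ∞) (by simp)).clm_apply contDiff_const
  · exact (h.cs.fderiv ℝ).comp_left (g := fun T : ℂ →L[ℝ] ℝ => T v) (by simp)

theorem Lr_sc {φ : ℂ → ℝ} (h : SC φ) : SC (Lr φ) := by
  constructor
  · exact (h.sm.fderiv_right (m := ∞) (by simp)).clm_apply (by fun_prop)
  · refine (h.cs.fderiv ℝ).mono' ?_
    intro x hx
    apply subset_tsupport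
    rw [Function.mem_support] at hx ⊢
    intro h0
    apply hx
    unfold Lr
    rw [h0]
    simp

theorem SC.cont {φ : ℂ → ℝ} (h : SC φ) : Continuous φ := h.sm.continuous

theorem SC.diff {φ : ℂ → ℝ} (h : SC φ) : Differentiable ℝ φ := h.sm.differentiable (by simp)

theorem SC.int {φ : ℂ → ℝ} (h : SC φ) : Integrable φ := h.cont.integrable_of_hasCompactSupport h.cs

theorem SC.mul {φ ψ : ℂ → ℝ} (h : SC φ) (h' : SC ψ) : SC (fun x => φ x * ψ x) :=
  ⟨h.sm.mul h'.sm, h.cs.mul_right⟩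

theorem SC.add {φ ψ : ℂ → ℝ} (h : SC φ) (h' : SC ψ) : SC (fun x => φ x + ψ x) :=
  ⟨h.sm.add h'.sm, h.cs.add h'.cs⟩

/-- the integral of a rotation derivative vanishes -/
theorem int_Lr {g : ℂ → ℝ} (h : SC g) : ∫ x, Lr g x = 0 := by
  have key : ∀ (T : ℂ →L[ℝ] ℝ) (v : ℂ), T v = 0 → ∫ x, T x * dd v g x = 0 := by
    intro T v hT
    have i1 : Integrable (fun x => fderiv ℝ (fun y => T y) x v * g x) := by
      have : (fun x => fderiv ℝ (fun y => T y) x v * g x) = fun _ => 0 := by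
        funext x
        rw [show (fun y => T y) = T from rfl, T.fderiv, hT, zero_mul]
      rw [this]
      exact integrable_zero _ _ _
    have i2 : Integrable (fun x => T x * fderiv ℝ g x v) := by
      refine Continuous.integrable_of_hasCompactSupport ?_ ?_
      · exact T.continuous.mul (dd_sc h v).cont
      · exact (dd_sc h v).cs.mul_left
    have i3 : Integrable (fun x => T x * g x) :=
      Continuous.integrable_of_hasCompactSupport (T.continuous.mul h.cont) h.cs.mul_left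
    have := integral_mul_fderiv_eq_neg_fderiv_mul_of_integrable (f := fun y => T y) (g := g)
      (v := v) i1 i2 i3 (fun x _ => T.differentiableAt) (fun x _ => h.diff x)
    have e : ∫ x, fderiv ℝ (fun y => T y) x v * g x = 0 := by
      have : (fun x => fderiv ℝ (fun y => T y) x v * g x) = fun _ => 0 := by
        funext x
        rw [show (fun y => T y) = T from rfl, T.fderiv, hT, zero_mul]
      rw [this, integral_zero]
    rw [e, neg_zero] at this
    exact this
  have k1 := key Complex.imCLM 1 (by simp)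
  have k2 := key Complex.reCLM Complex.I (by simp)
  have i1 : Integrable (fun x => Complex.imCLM x * dd 1 g x) :=
    Continuous.integrable_of_hasCompactSupport
      (Complex.imCLM.continuous.mul (dd_sc h 1).cont) (dd_sc h 1).cs.mul_left
  have i2 : Integrable (fun x => Complex.reCLM x * dd Complex.I g x) :=
    Continuous.integrable_of_hasCompactSupport
      (Complex.reCLM.continuous.mul (dd_sc h Complex.I).cont) (dd_sc h Complex.I).cs.mul_left
  have e : Lr g = fun x => Complex.reCLM x * dd Complex.I g x - Complex.imCLM x * dd 1 g x := by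
    funext x
    rw [Lr_eq]
    simp only [Complex.reCLM_apply, Complex.imCLM_apply]
    ring
  rw [e, integral_sub i2 i1, k1, k2, sub_zero]

theorem Lr_mul {φ ψ : ℂ → ℝ} (h : SC φ) (h' : SC ψ) (x : ℂ) :
    Lr (fun y => φ y * ψ y) x = φ x * Lr ψ x + ψ x * Lr φ x := by
  unfold Lr
  have := ((h.diff x).hasFDerivAt.mul (h'.diff x).hasFDerivAt).fderiv
  rw [show (fun y => φ y * ψ y) = φ * ψ from rfl, this]
  simp

theorem Lr_add {φ ψ : ℂ → ℝ} (h : SC φ) (h' : SC ψ) (x : ℂ) :
    Lr (fun y => φ y + ψ y) x = Lr φ x + Lr ψ x := by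
  unfold Lr
  have := ((h.diff x).hasFDerivAt.add (h'.diff x).hasFDerivAt).fderiv
  rw [show (fun y => φ y + ψ y) = φ + ψ from rfl, this]
  simp

/-- the rotation derivative is antisymmetric -/
theorem anti {φ ψ : ℂ → ℝ} (h : SC φ) (h' : SC ψ) :
    ∫ x, φ x * Lr ψ x = -∫ x, Lr φ x * ψ x := by
  have h0 := int_Lr (h.mul h')
  have e : (fun x => Lr (fun y => φ y * ψ y) x) = fun x => φ x * Lr ψ x + Lr φ x * ψ x := by
    funext x
    rw [Lr_mul h h']
    ring
  rw [e, integral_add (h.mul (Lr_sc h')).int ((Lr_sc h).mul h').int] at h0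
  linarith

/-- the commutator with the directional derivatives -/
theorem dd_Lr {φ : ℂ → ℝ} (h : SC φ) (v x : ℂ) :
    dd v (Lr φ) x = Lr (dd v φ) x + dd (Complex.I * v) φ x := by
  have h2 : ContDiff ℝ ∞ (fderiv ℝ φ) := h.sm.fderiv_right (m := ∞) (by simp)
  have h3 : HasFDerivAt (fderiv ℝ φ) (fderiv ℝ (fderiv ℝ φ) x) x :=
    ((h2.differentiable (by simp)) x).hasFDerivAt
  have hI : HasFDerivAt (fun y : ℂ => Complex.I * y)
      (Complex.I • (ContinuousLinearMap.id ℝ ℂ)) x := by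
    have := (hasFDerivAt_id (𝕜 := ℝ) x).const_mul Complex.I
    exact this
  have h4 : HasFDerivAt (Lr φ) ((fderiv ℝ φ x).comp (Complex.I • (ContinuousLinearMap.id ℝ ℂ)) +
      (fderiv ℝ (fderiv ℝ φ) x).flip (Complex.I * x)) x := h3.clm_apply hI
  have h5 : HasFDerivAt (dd v φ) ((fderiv ℝ φ x).comp (0 : ℂ →L[ℝ] ℂ) +
      (fderiv ℝ (fderiv ℝ φ) x).flip v) x := h3.clm_apply (hasFDerivAt_const v x)
  have hsym : fderiv ℝ (fderiv ℝ φ) x v (Complex.I * x) =
      fderiv ℝ (fderiv ℝ φ) x (Complex.I * x) v :=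
    second_derivative_symmetric (fun y => (h.diff y).hasFDerivAt) h3 v (Complex.I * x)
  unfold dd Lr at *
  rw [h4.fderiv, h5.fderiv]
  simp only [ContinuousLinearMap.add_apply, ContinuousLinearMap.comp_apply,
    ContinuousLinearMap.flip_apply, ContinuousLinearMap.smul_apply, ContinuousLinearMap.id_apply,
    smul_eq_mul, ContinuousLinearMap.zero_apply, map_zero, zero_add]
  rw [hsym]
  ring

theorem gr_sc {φ ψ : ℂ → ℝ} (h : SC φ) (h' : SC ψ) : SC (gr φ ψ) :=
  ((dd_sc h 1).mul (dd_sc h' 1)).add ((dd_sc h Complex.I).mul (dd_sc h' Complex.I))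

theorem dd_neg_dir (v : ℂ) (φ : ℂ → ℝ) (x : ℂ) : dd (-v) φ x = -dd v φ x := by
  unfold dd
  rw [map_neg]

/-- the Dirichlet form is antisymmetric for the rotation derivative -/
theorem gr_anti {φ ψ : ℂ → ℝ} (h : SC φ) (h' : SC ψ) :
    ∫ x, gr φ (Lr ψ) x = -∫ x, gr (Lr φ) ψ x := by
  have e : (fun x => gr φ (Lr ψ) x + gr (Lr φ) ψ x) = fun x => Lr (gr φ ψ) x := by
    funext x
    have k1 : Lr (gr φ ψ) x = Lr (fun y => dd 1 φ y * dd 1 ψ y) x +
        Lr (fun y => dd Complex.I φ y * dd Complex.I ψ y) x :=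
      Lr_add ((dd_sc h 1).mul (dd_sc h' 1)) ((dd_sc h Complex.I).mul (dd_sc h' Complex.I)) x
    rw [k1, Lr_mul (dd_sc h 1) (dd_sc h' 1), Lr_mul (dd_sc h Complex.I) (dd_sc h' Complex.I)]
    unfold gr
    rw [dd_Lr h', dd_Lr h', dd_Lr h, dd_Lr h]
    rw [mul_one, Complex.I_mul_I, dd_neg_dir, dd_neg_dir]
    ring
  have h0 := int_Lr (gr_sc h h')
  rw [← e, integral_add (gr_sc h (Lr_sc h')).int (gr_sc (Lr_sc h) h').int] at h0
  linarith

/-- pointwise bound for the rotation derivative -/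
theorem Lr_sq_le (φ : ℂ → ℝ) (x : ℂ) : Lr φ x ^ 2 ≤ ‖x‖ ^ 2 * gr φ φ x := by
  rw [Lr_eq, gr, ← Complex.normSq_eq_norm_sq, Complex.normSq_apply]
  nlinarith [sq_nonneg (x.re * dd 1 φ x + x.im * dd Complex.I φ x)]

end Pool.Agent.TH298.Sch
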