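import Pool.Agent.TH298.Sch.Coer2

/-!
Coercivity of the Dirichlet integral for functions orthogonal to `1`, `x`, `y` (no condition on the
circle means; job 3798 of helper298, written by helper511). The circle mean `a` of the function is
treated by the substitution `w = a - 2 G / r ^ 2`, `G r = ∫_0^r s a(s) ds`.
-/

set_option autoImplicit false
set_option linter.unusedVariables false

namespace Pool.Agent.TH298.Sch

open MeasureTheory Set Real

namespace Coer3

open Coer2

theorem G_b1 {a : ℝ → ℝ} {b : ℝ} (hb : 0 < b) (hm : ∫ r in (0 : ℝ)..b, r * a r = 0) :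
    G 1 a b = 0 := by
  unfold G
  have h := intervalIntegral.integral_comp_mul_left (a := 0) (b := 1)
    (fun s => a s * (s / b) ^ 1) hb.ne'
  have e1 : ∫ u in (0 : ℝ)..1, a (b * u) * u ^ 1 =
      ∫ u in (0 : ℝ)..1, a (b * u) * (b * u / b) ^ 1 := by
    refine intervalIntegral.integral_congr fun u _ => ?_
    rw [mul_div_cancel_left₀ _ hb.ne']
  rw [e1, h, mul_zero, mul_one, smul_eq_mul]
  have e2 : ∫ s in (0 : ℝ)..b, a s * (s / b) ^ 1 = (∫ s in (0 : ℝ)..b, s * a s) / b := by
    rw [← intervalIntegral.integral_div]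
    refine intervalIntegral.integral_congr fun s _ => ?_
    ring
  rw [e2, hm]
  simp

/-- the mode zero -/
theorem mode0 {b μ : ℝ} (hb : 0 < b) (hμ : 0 < μ) {z z1 z2 : ℝ → ℝ}
    (hz : Comp 2 (μ * b ^ 2 / 4) z z1 z2) {a a' : ℝ → ℝ} (ha : ∀ r, HasDerivAt a (a' r) r)
    (ha' : Continuous a') (h1 : a b = 0) (hm : ∫ r in (0 : ℝ)..b, r * a r = 0) :
    μ * ∫ r in (0 : ℝ)..b, r * a r ^ 2 ≤ ∫ r in (0 : ℝ)..b, r * a' r ^ 2 := by
  have hac : Continuous a := continuous_iff_continuousAt.2 (fun x => (ha x).continuousAt)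
  set g : ℝ → ℝ := G 1 a with hg
  set g' : ℝ → ℝ := G 2 a' with hg'
  have hgd : ∀ r, HasDerivAt g (g' r) r := fun r => G_deriv 1 ha ha' r
  have hgc : Continuous g := G_cont 1 hac
  have hgc' : Continuous g' := G_cont 2 ha'
  have hge : ∀ r, r * g' r + 2 * g r = a r := by
    intro r
    have := G_eq 1 ha ha' r
    push_cast at this
    rw [hg, hg']
    linarith
  have hgb : g b = 0 := G_b1 hb hm
  set t : ℝ → ℝ := fun r => a r - 2 * g r with ht
  set t' : ℝ → ℝ := fun r => a' r - 2 * g' r with ht'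
  have htd : ∀ r, HasDerivAt t (t' r) r := fun r => (ha r).sub ((hgd r).const_mul 2)
  have htc : Continuous t := hac.sub (hgc.const_mul 2)
  have htc' : Continuous t' := ha'.sub (hgc'.const_mul 2)
  have htg : ∀ r, t r = r * g' r := by
    intro r
    rw [ht]
    have := hge r
    simp only
    linarith
  have ht0 : t 0 = 0 := by rw [htg, zero_mul]
  have htb : t b = 0 := by rw [ht]; simp only [h1, hgb]; ring
  obtain ⟨it, hrad⟩ := rad hb hμ hz htd htc' ht0 htb
  -- `∫ r a² = ∫ r t²`
  have e1 : ∫ r in (0 : ℝ)..b, r * a r ^ 2 = ∫ r in (0 : ℝ)..b, r * t r ^ 2 := by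
    have c1 : Continuous fun r => r * a r ^ 2 := by fun_prop
    have c2 : Continuous fun r => r * t r ^ 2 := by fun_prop
    have hd : ∀ r ∈ uIcc (0 : ℝ) b, HasDerivAt (fun r => 2 * (r ^ 2 * g r ^ 2))
        (r * a r ^ 2 - r * t r ^ 2) r := by
      intro r _
      have k1 := ((hasDerivAt_pow 2 r).mul ((hgd r).pow 2)).const_mul 2
      refine k1.congr_deriv ?_
      have := hge r
      rw [ht]
      simp only
      rw [← this]
      push_cast
      simp only [Pi.pow_apply, pow_one]
      ring
    have h := intervalIntegral.integral_eq_sub_of_hasDerivAt hd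
      ((c1.sub c2).intervalIntegrable 0 b)
    rw [intervalIntegral.integral_sub (c1.intervalIntegrable _ _) (c2.intervalIntegrable _ _),
      hgb] at h
    norm_num at h
    linarith
  -- the energies
  have c1 : Continuous fun r => r * a' r ^ 2 := by fun_prop
  have c2 : Continuous fun r => r * t' r ^ 2 := by fun_prop
  have c4 : Continuous fun r => 4 * t r * t' r := by fun_prop
  have z2 : ∫ r in (0 : ℝ)..b, 4 * t r * t' r = 0 := by
    have hd : ∀ r ∈ uIcc (0 : ℝ) b, HasDerivAt (fun r => 2 * t r ^ 2) (4 * t r * t' r) r := by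
      intro r _
      have k1 := ((htd r).pow 2).const_mul 2
      refine k1.congr_deriv ?_
      push_cast
      simp only [pow_one]
      ring
    rw [intervalIntegral.integral_eq_sub_of_hasDerivAt hd (c4.intervalIntegrable 0 b), ht0, htb]
    ring
  have e2 : (∫ r in (0 : ℝ)..b, r * a' r ^ 2) =
      ∫ r in (0 : ℝ)..b, (r * t' r ^ 2 + 4 * (t r ^ 2 / r) + 4 * t r * t' r) := by
    rw [intervalIntegral.integral_of_le hb.le, intervalIntegral.integral_of_le hb.le]
    refine setIntegral_congr_fun measurableSet_Ioc fun r hr => ?_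
    have hr0 : r ≠ 0 := hr.1.ne'
    have h2 : a' r = t' r + 2 * g' r := by rw [ht']; ring
    rw [htg r, h2]
    field_simp
    ring
  rw [intervalIntegral.integral_add ((c2.intervalIntegrable _ _).add (it.const_mul 4))
    (c4.intervalIntegrable _ _), z2,
    intervalIntegral.integral_add (c2.intervalIntegrable _ _) (it.const_mul 4),
    intervalIntegral.integral_const_mul] at e2
  rw [e1, e2]
  norm_num at hrad
  linarith

/-- the inequality in polar coordinates -/
theorem core3 {b μ : ℝ} (hb : 0 < b) (hμ : 0 < μ) {z z1 z2 : ℝ → ℝ}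
    (hz : Comp 2 (μ * b ^ 2 / 4) z z1 z2) (V D T V1 : ℝ → ℝ → ℝ) (v0 : ℝ)
    (cV : Continuous (Function.uncurry V)) (cD : Continuous (Function.uncurry D))
    (cT : Continuous (Function.uncurry T)) (cV1 : Continuous (Function.uncurry V1))
    (dV : ∀ r θ, HasDerivAt (fun r => V r θ) (D r θ) r)
    (tV : ∀ r θ, HasDerivAt (fun θ => V r θ) (r * T r θ) θ)
    (eV : ∀ r θ, V r θ = v0 + r * V1 r θ) (pV : ∀ r, V r π = V r (-π)) (Vb : ∀ θ, V b θ = 0)
    (hm0 : ∫ r in (0 : ℝ)..b, ∫ θ in (-π)..π, r * V r θ = 0)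
    (hmc : ∫ r in (0 : ℝ)..b, ∫ θ in (-π)..π, r ^ 2 * (V r θ * cos θ) = 0)
    (hms : ∫ r in (0 : ℝ)..b, ∫ θ in (-π)..π, r ^ 2 * (V r θ * sin θ) = 0) :
    μ * ∫ r in (0 : ℝ)..b, ∫ θ in (-π)..π, r * V r θ ^ 2 ≤
      ∫ r in (0 : ℝ)..b, ∫ θ in (-π)..π, r * (D r θ ^ 2 + T r θ ^ 2) := by
  have hpi := pi_pos
  have cV' : Continuous fun p : ℝ × ℝ => V p.1 p.2 := cV
  have cD' : Continuous fun p : ℝ × ℝ => D p.1 p.2 := cD
  have cT' : Continuous fun p : ℝ × ℝ => T p.1 p.2 := cT
  have cV1' : Continuous fun p : ℝ × ℝ => V1 p.1 p.2 := cV1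
  have sV : ∀ r, Continuous fun θ => V r θ := fun r =>
    cV'.comp (continuous_const.prodMk continuous_id)
  have sD : ∀ r, Continuous fun θ => D r θ := fun r =>
    cD'.comp (continuous_const.prodMk continuous_id)
  have sT : ∀ r, Continuous fun θ => T r θ := fun r =>
    cT'.comp (continuous_const.prodMk continuous_id)
  have sV1 : ∀ r, Continuous fun θ => V1 r θ := fun r =>
    cV1'.comp (continuous_const.prodMk continuous_id)
  have i : ∀ {f : ℝ → ℝ}, Continuous f → IntervalIntegrable f volume (-π) π :=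
    fun hf => hf.intervalIntegrable _ _
  have i' : ∀ {f : ℝ → ℝ}, Continuous f → IntervalIntegrable f volume 0 b :=
    fun hf => hf.intervalIntegrable _ _
  -- the mean values
  obtain ⟨A, hA⟩ : ∃ A : ℝ → ℝ, A = fun r => 1 / (2 * π) * ∫ θ in (-π)..π, V r θ * 1 := ⟨_, rfl⟩
  obtain ⟨A', hA'⟩ : ∃ A' : ℝ → ℝ, A' = fun r => 1 / (2 * π) * ∫ θ in (-π)..π, D r θ * 1 :=
    ⟨_, rfl⟩
  obtain ⟨A1, hA1⟩ : ∃ A1 : ℝ → ℝ, A1 = fun r => 1 / (2 * π) * ∫ θ in (-π)..π, V1 r θ * 1 :=
    ⟨_, rfl⟩
  have cA : Continuous A := by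
    rw [hA]
    refine continuous_const.mul (cont_int (F := fun r θ => V r θ * 1) ?_ _ _)
    exact cV'.mul continuous_const
  have cA' : Continuous A' := by
    rw [hA']
    refine continuous_const.mul (cont_int (F := fun r θ => D r θ * 1) ?_ _ _)
    exact cD'.mul continuous_const
  have cA1 : Continuous A1 := by
    rw [hA1]
    refine continuous_const.mul (cont_int (F := fun r θ => V1 r θ * 1) ?_ _ _)
    exact cV1'.mul continuous_const
  have dA : ∀ r, HasDerivAt A (A' r) r := by
    intro r
    rw [hA, hA']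
    exact (param_deriv cV cD dV continuous_const r).const_mul _
  have pA : ∀ r, ∫ θ in (-π)..π, V r θ = 2 * π * A r := by
    intro r
    rw [hA]
    simp only [mul_one]
    field_simp
  have pA' : ∀ r, ∫ θ in (-π)..π, D r θ = 2 * π * A' r := by
    intro r
    rw [hA']
    simp only [mul_one]
    field_simp
  have hcon : ∀ c : ℝ, ∫ θ in (-π)..π, c = 2 * π * c := by
    intro c
    rw [intervalIntegral.integral_const, smul_eq_mul]
    ring
  have eA : ∀ r, A r = v0 + r * A1 r := by
    intro r
    have h1 := pA r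
    have h2 : ∫ θ in (-π)..π, V r θ = ∫ θ in (-π)..π, (v0 + r * V1 r θ) :=
      intervalIntegral.integral_congr fun θ _ => eV r θ
    have h3 : ∫ θ in (-π)..π, V1 r θ = 2 * π * A1 r := by
      rw [hA1]
      simp only [mul_one]
      field_simp
    have c0 : Continuous fun _ : ℝ => v0 := continuous_const
    have c1 : Continuous fun θ : ℝ => r * V1 r θ := continuous_const.mul (sV1 r)
    rw [intervalIntegral.integral_add (i c0) (i c1),
      intervalIntegral.integral_const_mul, hcon, h3, h1] at h2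
    have h4 : 2 * π * (A r - (v0 + r * A1 r)) = 0 := by linarith
    have h5 := (mul_eq_zero.1 h4).resolve_left (by positivity)
    linarith
  have Ab : A b = 0 := by
    have h := pA b
    simp only [Vb, intervalIntegral.integral_zero] at h
    have := (mul_eq_zero.1 h.symm).resolve_left (by positivity)
    exact this
  clear hA hA' hA1
  -- the mean value
  have mA : ∫ r in (0 : ℝ)..b, r * A r = 0 := by
    have e : ∀ r, ∫ θ in (-π)..π, r * V r θ = 2 * π * (r * A r) := by
      intro r
      rw [intervalIntegral.integral_const_mul, pA]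
      ring
    simp only [e] at hm0
    rw [intervalIntegral.integral_const_mul] at hm0
    exact (mul_eq_zero.1 hm0).resolve_left (by positivity)
  have qA := mode0 hb hμ hz dA cA' Ab mA
  -- the remaining part
  have hY := core hb hμ hz (fun r θ => V r θ - A r) (fun r θ => D r θ - A' r) T
    (fun r θ => V1 r θ - A1 r)
    (by
      show Continuous fun p : ℝ × ℝ => V p.1 p.2 - A p.1
      fun_prop)
    (by
      show Continuous fun p : ℝ × ℝ => D p.1 p.2 - A' p.1
      fun_prop) cT
    (by
      show Continuous fun p : ℝ × ℝ => V1 p.1 p.2 - A1 p.1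
      fun_prop)
    (fun r θ => (dV r θ).sub (dA r))
    (fun r θ => (tV r θ).sub_const _)
    (fun r θ => by
      rw [eV, eA]
      ring)
    (fun r => by
      show V r π - A r = V r (-π) - A r
      rw [pV])
    (fun θ => by
      show V b θ - A b = 0
      rw [Vb, Ab, sub_zero])
    (fun r _ => by
      rw [intervalIntegral.integral_sub (i (sV r)) (i continuous_const), hcon, pA]
      ring)
    (by
      refine Eq.trans ?_ hmc
      refine intervalIntegral.integral_congr fun r _ => ?_
      have e : ∀ θ, r ^ 2 * ((V r θ - A r) * cos θ) =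
          r ^ 2 * (V r θ * cos θ) - (r ^ 2 * A r) * cos θ := fun θ => by ring
      have c0 : Continuous fun θ : ℝ => r ^ 2 * (V r θ * cos θ) :=
        continuous_const.mul ((sV r).mul continuous_cos)
      have c1 : Continuous fun θ : ℝ => (r ^ 2 * A r) * cos θ :=
        continuous_const.mul continuous_cos
      simp only [e]
      rw [intervalIntegral.integral_sub (i c0) (i c1),
        intervalIntegral.integral_const_mul (r ^ 2 * A r) cos, int_cos]
      ring)
    (by
      refine Eq.trans ?_ hms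
      refine intervalIntegral.integral_congr fun r _ => ?_
      have e : ∀ θ, r ^ 2 * ((V r θ - A r) * sin θ) =
          r ^ 2 * (V r θ * sin θ) - (r ^ 2 * A r) * sin θ := fun θ => by ring
      have c0 : Continuous fun θ : ℝ => r ^ 2 * (V r θ * sin θ) :=
        continuous_const.mul ((sV r).mul continuous_sin)
      have c1 : Continuous fun θ : ℝ => (r ^ 2 * A r) * sin θ :=
        continuous_const.mul continuous_sin
      simp only [e]
      rw [intervalIntegral.integral_sub (i c0) (i c1),
        intervalIntegral.integral_const_mul (r ^ 2 * A r) sin, int_sin]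
      ring)
  -- the integrals over the circles
  have g1 : ∀ r, ∫ θ in (-π)..π, r * V r θ ^ 2 =
      (∫ θ in (-π)..π, r * (V r θ - A r) ^ 2) + 2 * π * (r * A r ^ 2) := by
    intro r
    have e : ∀ θ, r * V r θ ^ 2 = r * (V r θ - A r) ^ 2 + ((2 * r * A r) * V r θ +
        (-(r * A r ^ 2))) := fun θ => by ring
    have c0 : Continuous fun θ : ℝ => r * (V r θ - A r) ^ 2 :=
      continuous_const.mul (((sV r).sub continuous_const).pow 2)
    have c1 : Continuous fun θ : ℝ => (2 * r * A r) * V r θ := continuous_const.mul (sV r)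
    have c2 : Continuous fun _ : ℝ => -(r * A r ^ 2) := continuous_const
    have c3 : Continuous fun θ : ℝ => (2 * r * A r) * V r θ + (-(r * A r ^ 2)) := c1.add c2
    simp only [e]
    rw [intervalIntegral.integral_add (i c0) (i c3), intervalIntegral.integral_add (i c1) (i c2),
      intervalIntegral.integral_const_mul (2 * r * A r) (fun θ => V r θ), hcon, pA]
    ring
  have g2 : ∀ r, ∫ θ in (-π)..π, r * (D r θ ^ 2 + T r θ ^ 2) =
      (∫ θ in (-π)..π, r * ((D r θ - A' r) ^ 2 + T r θ ^ 2)) + 2 * π * (r * A' r ^ 2) := by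
    intro r
    have e : ∀ θ, r * (D r θ ^ 2 + T r θ ^ 2) = r * ((D r θ - A' r) ^ 2 + T r θ ^ 2) +
        ((2 * r * A' r) * D r θ + (-(r * A' r ^ 2))) := fun θ => by ring
    have c0 : Continuous fun θ : ℝ => r * ((D r θ - A' r) ^ 2 + T r θ ^ 2) :=
      continuous_const.mul ((((sD r).sub continuous_const).pow 2).add ((sT r).pow 2))
    have c1 : Continuous fun θ : ℝ => (2 * r * A' r) * D r θ := continuous_const.mul (sD r)
    have c2 : Continuous fun _ : ℝ => -(r * A' r ^ 2) := continuous_const
    have c3 : Continuous fun θ : ℝ => (2 * r * A' r) * D r θ + (-(r * A' r ^ 2)) := c1.add c2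
    simp only [e]
    rw [intervalIntegral.integral_add (i c0) (i c3), intervalIntegral.integral_add (i c1) (i c2),
      intervalIntegral.integral_const_mul (2 * r * A' r) (fun θ => D r θ), hcon, pA']
    ring
  have j1 : Continuous fun r : ℝ => r * A r ^ 2 := by fun_prop
  have j3 : Continuous fun r : ℝ => r * A' r ^ 2 := by fun_prop
  have j7 : Continuous fun r : ℝ => ∫ θ in (-π)..π, r * (V r θ - A r) ^ 2 :=
    cont_int (F := fun r θ => r * (V r θ - A r) ^ 2) (by
      show Continuous fun p : ℝ × ℝ => p.1 * (V p.1 p.2 - A p.1) ^ 2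
      fun_prop) _ _
  have j8 : Continuous fun r : ℝ => ∫ θ in (-π)..π, r * ((D r θ - A' r) ^ 2 + T r θ ^ 2) :=
    cont_int (F := fun r θ => r * ((D r θ - A' r) ^ 2 + T r θ ^ 2)) (by
      show Continuous fun p : ℝ × ℝ => p.1 * ((D p.1 p.2 - A' p.1) ^ 2 + T p.1 p.2 ^ 2)
      fun_prop) _ _
  simp only [g1, g2]
  rw [iadd j7 (j1.const_mul (2 * π)), iadd j8 (j3.const_mul (2 * π)),
    intervalIntegral.integral_const_mul, intervalIntegral.integral_const_mul]
  have q8 := mul_le_mul_of_nonneg_left qA (by positivity : (0 : ℝ) ≤ 2 * π)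
  linarith

end Coer3

theorem coer3 {b μ : ℝ} (hb : 0 < b) (hμ : 0 < μ) {z z1 z2 : ℝ → ℝ}
    (hz : Comp 2 (μ * b ^ 2 / 4) z z1 z2) {v : ℂ → ℝ} (hv : ContDiff ℝ (⊤ : ℕ∞) v)
    (hsupp : ∀ x, b ≤ ‖x‖ → v x = 0) (hm0 : ∫ x : ℂ, v x = 0)
    (hm1 : ∫ x : ℂ, x.re * v x = 0) (hm2 : ∫ x : ℂ, x.im * v x = 0) :
    μ * ∫ x, v x ^ 2 ≤ ∫ x, ((fderiv ℝ v x 1) ^ 2 + (fderiv ℝ v x Complex.I) ^ 2) := by
  have hpi := pi_pos
  have hd : ∀ x, HasFDerivAt v (fderiv ℝ v x) x := fun x =>
    (hv.differentiable (by simp) x).hasFDerivAt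
  have hvc : Continuous v := hv.continuous
  have hdc : Continuous (fderiv ℝ v) := hv.continuous_fderiv (by simp)
  -- the derivatives in polar coordinates
  have hdr : ∀ r θ : ℝ, HasDerivAt (fun r : ℝ => v (X r θ)) (fderiv ℝ v (X r θ) (er θ)) r :=
    fun r θ => (hd (X r θ)).comp_hasDerivAt r (X_dr r θ)
  have hdt : ∀ r θ : ℝ, HasDerivAt (fun θ : ℝ => v (X r θ))
      (r * fderiv ℝ v (X r θ) (et θ)) θ := by
    intro r θ
    have h1 := (hd (X r θ)).comp_hasDerivAt θ (X_dt r θ)
    refine h1.congr_deriv ?_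
    rw [show (r : ℂ) * et θ = r • et θ from (Complex.real_smul).symm, map_smul, smul_eq_mul]
  have hXc := X_cont
  have hwc : Continuous fun p : ℝ × ℝ => v (X p.1 p.2) := hvc.comp hXc
  have herc : Continuous er := by unfold er; fun_prop
  have hetc : Continuous et := by unfold et; fun_prop
  have hrc : Continuous fun p : ℝ × ℝ => fderiv ℝ v (X p.1 p.2) (er p.2) :=
    (hdc.comp hXc).clm_apply (herc.comp continuous_snd)
  have htc : Continuous fun p : ℝ × ℝ => fderiv ℝ v (X p.1 p.2) (et p.2) :=
    (hdc.comp hXc).clm_apply (hetc.comp continuous_snd)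
  have X0 : ∀ θ, X 0 θ = 0 := fun θ => by simp [X]
  -- division by the radius
  have hV1 : Continuous (Function.uncurry fun r θ : ℝ =>
      ∫ u in (0 : ℝ)..1, fderiv ℝ v (X (r * u) θ) (er θ)) := by
    have h1 : Continuous (Function.uncurry fun (p : ℝ × ℝ) (u : ℝ) =>
        fderiv ℝ v (X (p.1 * u) p.2) (er p.2)) := by
      have h2 : Continuous fun q : (ℝ × ℝ) × ℝ => ((q.1.1 * q.2, q.1.2) : ℝ × ℝ) := by fun_prop
      exact hrc.comp h2
    exact intervalIntegral.continuous_parametric_intervalIntegral_of_continuous' h1 0 1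
  have eV : ∀ r θ, v (X r θ) =
      v 0 + r * ∫ u in (0 : ℝ)..1, fderiv ℝ v (X (r * u) θ) (er θ) := by
    intro r θ
    have k1 : ∀ u ∈ uIcc (0 : ℝ) 1, HasDerivAt (fun u : ℝ => v (X (r * u) θ))
        (r * fderiv ℝ v (X (r * u) θ) (er θ)) u := by
      intro u _
      have h1 : HasDerivAt (fun u : ℝ => r * u) r u := by
        simpa using (hasDerivAt_id u).const_mul r
      refine ((hdr (r * u) θ).comp u h1).congr_deriv ?_
      ring
    have c1 : Continuous fun u : ℝ => r * fderiv ℝ v (X (r * u) θ) (er θ) := by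
      have h2 : Continuous fun u : ℝ => ((r * u, θ) : ℝ × ℝ) := by fun_prop
      exact continuous_const.mul (hrc.comp h2)
    have := intervalIntegral.integral_eq_sub_of_hasDerivAt k1 (c1.intervalIntegrable 0 1)
    rw [intervalIntegral.integral_const_mul, mul_one, mul_zero, X0] at this
    linarith
  -- support of the derivative
  have hsupp' : ∀ x, b ≤ ‖x‖ → fderiv ℝ v x = 0 := by
    have h1 : ∀ x ∈ (Metric.closedBall (0 : ℂ) b)ᶜ, fderiv ℝ v x = 0 := by
      intro x hx
      have h2 : v =ᶠ[nhds x] fun _ => 0 := by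
        filter_upwards [Metric.isClosed_closedBall.isOpen_compl.mem_nhds hx] with y hy
        rw [mem_compl_iff, mem_closedBall_zero_iff, not_le] at hy
        exact hsupp y hy.le
      rw [h2.fderiv_eq]
      simp
    have hcl : IsClosed {x : ℂ | fderiv ℝ v x = 0} := isClosed_eq hdc continuous_const
    intro x hx
    have h3 : x ∈ closure ((Metric.closedBall (0 : ℂ) b)ᶜ) := by
      rw [closure_compl, interior_closedBall _ hb.ne', mem_compl_iff, mem_ball_zero_iff, not_lt]
      exact hx
    exact closure_minimal h1 hcl h3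
  -- the integrals
  have t0 := Coer2.polar_int hb (f := v) hvc hsupp
  have t1 := Coer2.polar_int hb (f := fun x => v x ^ 2) (hvc.pow 2) (fun x hx => by
    simp only [hsupp x hx]; ring)
  have t2 := Coer2.polar_int hb
    (f := fun x => (fderiv ℝ v x 1) ^ 2 + (fderiv ℝ v x Complex.I) ^ 2) (by fun_prop)
    (fun x hx => by simp only [hsupp' x hx]; simp)
  have t3 := Coer2.polar_int hb (f := fun x => x.re * v x) (Complex.continuous_re.mul hvc)
    (fun x hx => by simp only [hsupp x hx]; ring)
  have t4 := Coer2.polar_int hb (f := fun x => x.im * v x) (Complex.continuous_im.mul hvc)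
    (fun x hx => by simp only [hsupp x hx]; ring)
  rw [hm0] at t0
  rw [hm1] at t3
  rw [hm2] at t4
  have hper : ∀ r θ : ℝ, v (X r (θ + 2 * π)) = v (X r θ) := by
    intro r θ
    rw [X_add]
    have : Complex.exp ((2 * π : ℝ) * Complex.I) = 1 := by
      push_cast
      exact Complex.exp_two_pi_mul_I
    rw [this, one_mul]
  have hre : ∀ r θ, (X r θ).re = r * cos θ := by
    intro r θ
    simp [X, Complex.add_re, Complex.mul_re, Complex.cos_ofReal_re, Complex.sin_ofReal_re]
  have him : ∀ r θ, (X r θ).im = r * sin θ := by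
    intro r θ
    simp [X, Complex.add_im, Complex.mul_im, Complex.cos_ofReal_re, Complex.sin_ofReal_re]
  have key := Coer3.core3 hb hμ hz (fun r θ => v (X r θ)) (fun r θ => fderiv ℝ v (X r θ) (er θ))
    (fun r θ => fderiv ℝ v (X r θ) (et θ))
    (fun r θ => ∫ u in (0 : ℝ)..1, fderiv ℝ v (X (r * u) θ) (er θ)) (v 0) hwc hrc htc hV1 hdr hdt
    eV
    (fun r => by
      have := hper r (-π)
      rw [show -π + 2 * π = π by ring] at this
      exact this)
    (fun θ => hsupp _ (by rw [norm_X, abs_of_pos hb]))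
    t0.symm
    (by
      refine Eq.trans ?_ t3.symm
      refine intervalIntegral.integral_congr fun r _ => ?_
      refine intervalIntegral.integral_congr fun θ _ => ?_
      simp only [hre]
      ring)
    (by
      refine Eq.trans ?_ t4.symm
      refine intervalIntegral.integral_congr fun r _ => ?_
      refine intervalIntegral.integral_congr fun θ _ => ?_
      simp only [him]
      ring)
  rw [t1, t2]
  refine key.trans (le_of_eq ?_)
  refine intervalIntegral.integral_congr fun r _ => ?_
  refine intervalIntegral.integral_congr fun θ _ => ?_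
  show r * (fderiv ℝ v (X r θ) (er θ) ^ 2 + fderiv ℝ v (X r θ) (et θ) ^ 2) =
    r * (fderiv ℝ v (X r θ) 1 ^ 2 + fderiv ℝ v (X r θ) Complex.I ^ 2)
  rw [lin_sq]

end Pool.Agent.TH298.Sch
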