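import Pool.Agent.TH298.Sch.Circ

/-!
Coercivity of the Dirichlet integral for functions with mean value zero on the circles and first
moments zero (written by helper359, job 3383 of helper298).
-/

set_option autoImplicit false
set_option linter.unusedVariables false

namespace Pool.Agent.TH298.Sch

open MeasureTheory Set Real

namespace Coer2

/-- the second Wirtinger inequality -/
theorem wirt2 (f f' : ℝ → ℝ) (hf : ∀ θ, HasDerivAt f (f' θ) θ) (hf' : Continuous f')
    (hper : f π = f (-π)) (h0 : ∫ θ in (-π)..π, f θ = 0)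
    (hc : ∫ θ in (-π)..π, f θ * cos θ = 0) (hs : ∫ θ in (-π)..π, f θ * sin θ = 0) :
    4 * ∫ θ in (-π)..π, f θ ^ 2 ≤ ∫ θ in (-π)..π, f' θ ^ 2 := by
  have hpi := Real.pi_pos
  have hab : (-π : ℝ) < π := by linarith
  have hfc : Continuous f := continuous_iff_continuousAt.2 (fun x => (hf x).continuousAt)
  have hF : Continuous fun x => (f x : ℂ) := by fun_prop
  have hF' : Continuous fun x => (f' x : ℂ) := by fun_prop
  have hmem : ∀ g : ℝ → ℂ, Continuous g → MemLp g 2 (volume.restrict (Ioc (-π) π)) := by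
    intro g hg
    obtain ⟨C, hC⟩ := (isCompact_Icc (a := (-π : ℝ)) (b := π)).exists_bound_of_continuousOn
      hg.continuousOn
    refine MemLp.of_bound hg.aestronglyMeasurable C ?_
    refine (ae_restrict_iff' measurableSet_Ioc).2 (Filter.Eventually.of_forall fun r hr => ?_)
    exact hC r (Ioc_subset_Icc_self hr)
  have s1 := hasSum_sq_fourierCoeffOn hab (hmem _ hF)
  have s2 := hasSum_sq_fourierCoeffOn hab (hmem _ hF')
  -- the coefficients with `|n| ≤ 1`
  have hz : ∀ n : ℤ, |n| ≤ 1 → fourierCoeffOn hab (fun x => (f x : ℂ)) n = 0 := by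
    intro n hn
    rw [fourierCoeffOn_eq_integral]
    have e1 : ∀ x : ℝ, fourier (-n) (x : AddCircle (π - (-π))) • (f x : ℂ) =
        ((f x * cos (n * x) : ℝ) : ℂ) - ((f x * sin (n * x) : ℝ) : ℂ) * Complex.I := by
      intro x
      rw [fourier_coe_apply]
      have e2 : 2 * (π : ℂ) * Complex.I * ((-n : ℤ) : ℂ) * x / ((π - (-π) : ℝ) : ℂ) =
          ((-(n * x) : ℝ) : ℂ) * Complex.I := by
        have : (π : ℂ) ≠ 0 := by exact_mod_cast hpi.ne'
        push_cast
        field_simp
        ring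
      rw [e2, Complex.exp_mul_I, ← Complex.ofReal_cos, ← Complex.ofReal_sin, cos_neg, sin_neg,
        smul_eq_mul]
      push_cast
      ring
    have e3 : ∫ x in (-π)..π, f x * cos (n * x) = 0 := by
      have : n = 0 ∨ n = 1 ∨ n = -1 := by
        rw [abs_le] at hn
        omega
      rcases this with rfl | rfl | rfl
      · simpa using h0
      · simpa using hc
      · simpa using hc
    have e4 : ∫ x in (-π)..π, f x * sin (n * x) = 0 := by
      have : n = 0 ∨ n = 1 ∨ n = -1 := by
        rw [abs_le] at hn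
        omega
      rcases this with rfl | rfl | rfl
      · simp
      · simpa using hs
      · simpa using hs
    have c1 : Continuous fun x => ((f x * cos (n * x) : ℝ) : ℂ) := by fun_prop
    have c2 : Continuous fun x => ((f x * sin (n * x) : ℝ) : ℂ) * Complex.I := by fun_prop
    simp only [e1]
    rw [intervalIntegral.integral_sub (c1.intervalIntegrable _ _) (c2.intervalIntegrable _ _),
      intervalIntegral.integral_mul_const, intervalIntegral.integral_ofReal,
      intervalIntegral.integral_ofReal, e3, e4]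
    simp
  -- the other coefficients
  have hn2 : ∀ n : ℤ, 4 * ‖fourierCoeffOn hab (fun x => (f x : ℂ)) n‖ ^ 2 ≤
      ‖fourierCoeffOn hab (fun x => (f' x : ℂ)) n‖ ^ 2 := by
    intro n
    by_cases hn : |n| ≤ 1
    · rw [hz n hn, norm_zero]
      have h1 : 0 ≤ ‖fourierCoeffOn hab (fun x => (f' x : ℂ)) n‖ ^ 2 := by positivity
      linarith
    · have hn0 : n ≠ 0 := by
        rintro rfl
        simp at hn
      have hd := fourierCoeffOn_of_hasDerivAt hab (n := n) hn0 (f := fun x => (f x : ℂ))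
        (f' := fun x => (f' x : ℂ)) (fun x _ => (hf x).ofReal_comp) (hF'.intervalIntegrable _ _)
      rw [hper, sub_self, mul_zero, zero_sub] at hd
      have e5 : fourierCoeffOn hab (fun x => (f' x : ℂ)) n =
          Complex.I * n * fourierCoeffOn hab (fun x => (f x : ℂ)) n := by
        rw [hd]
        have h1 : (π : ℂ) ≠ 0 := by exact_mod_cast hpi.ne'
        have h2 : (n : ℂ) ≠ 0 := by exact_mod_cast hn0
        have h3 := Complex.I_ne_zero
        push_cast
        field_simp
        ring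
      rw [e5, norm_mul, norm_mul, Complex.norm_I, one_mul, mul_pow]
      have e6 : (4 : ℝ) ≤ ‖(n : ℂ)‖ ^ 2 := by
        rw [Complex.norm_intCast, sq_abs]
        have h4 : 2 ≤ |n| := by omega
        have h5 : (4 : ℤ) ≤ n ^ 2 := by
          rw [← sq_abs]
          nlinarith
        exact_mod_cast h5
      exact mul_le_mul_of_nonneg_right e6 (by positivity)
  have key := hasSum_le hn2 (s1.mul_left 4) s2
  have e7 : ∀ g : ℝ → ℝ, ∫ x in (-π)..π, ‖((g x : ℝ) : ℂ)‖ ^ 2 = ∫ x in (-π)..π, g x ^ 2 := by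
    intro g
    refine intervalIntegral.integral_congr fun x _ => ?_
    simp only [Complex.norm_real, Real.norm_eq_abs, sq_abs]
  rw [e7, e7, smul_eq_mul, smul_eq_mul] at key
  have e8 : (0 : ℝ) < (π - (-π))⁻¹ := by
    apply inv_pos.2
    linarith
  have e9 : (π - (-π))⁻¹ * (4 * ∫ x in (-π)..π, f x ^ 2) ≤
      (π - (-π))⁻¹ * ∫ x in (-π)..π, f' x ^ 2 := by
    calc _ = 4 * ((π - (-π))⁻¹ * ∫ x in (-π)..π, f x ^ 2) := by ring
      _ ≤ _ := key
  exact le_of_mul_le_mul_left e9 e8

/-- mean of a function on `(0, r)` -/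
noncomputable def G (k : ℕ) (a : ℝ → ℝ) (r : ℝ) : ℝ := ∫ u in (0 : ℝ)..1, a (r * u) * u ^ k

theorem G_cont (k : ℕ) {a : ℝ → ℝ} (ha : Continuous a) : Continuous (G k a) := by
  unfold G
  apply intervalIntegral.continuous_parametric_intervalIntegral_of_continuous'
  fun_prop

theorem G_deriv (k : ℕ) {a a' : ℝ → ℝ} (ha : ∀ r, HasDerivAt a (a' r) r) (ha' : Continuous a')
    (r : ℝ) : HasDerivAt (G k a) (G (k + 1) a' r) r := by
  have hac : Continuous a := continuous_iff_continuousAt.2 (fun x => (ha x).continuousAt)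
  obtain ⟨C, hC⟩ := (isCompact_Icc (a := -(|r| + 1)) (b := |r| + 1)).exists_bound_of_continuousOn
    ha'.continuousOn
  have hd : ∀ x u : ℝ, HasDerivAt (fun x => a (x * u) * u ^ k) (a' (x * u) * u ^ (k + 1)) x := by
    intro x u
    have h1 : HasDerivAt (fun x : ℝ => x * u) u x := by
      simpa using (hasDerivAt_id x).mul_const u
    have h2 := ((ha (x * u)).comp x h1).mul_const (u ^ k)
    refine h2.congr_deriv ?_
    ring
  have := intervalIntegral.hasDerivAt_integral_of_dominated_loc_of_deriv_le (μ := volume)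
    (F := fun x u => a (x * u) * u ^ k) (F' := fun x u => a' (x * u) * u ^ (k + 1))
    (a := (0 : ℝ)) (b := 1) (x₀ := r) (s := Metric.ball r 1) (bound := fun _ => C)
    (Metric.ball_mem_nhds r one_pos)
    (Filter.Eventually.of_forall fun x => by
      have : Continuous fun u => a (x * u) * u ^ k := by fun_prop
      exact this.aestronglyMeasurable)
    (by
      have : Continuous fun u => a (r * u) * u ^ k := by fun_prop
      exact this.intervalIntegrable _ _)
    (by
      have : Continuous fun u => a' (r * u) * u ^ (k + 1) := by fun_prop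
      exact this.aestronglyMeasurable)
    (Filter.Eventually.of_forall fun u hu x hx => by
      rw [uIoc_of_le zero_le_one] at hu
      have hu0 := hu.1
      have hu1 := hu.2
      have hx1 : |x| ≤ |r| + 1 := by
        rw [Metric.mem_ball, Real.dist_eq] at hx
        have := abs_sub_abs_le_abs_sub x r
        linarith
      have h1 : |x * u| ≤ |r| + 1 := by
        rw [abs_mul, abs_of_pos hu0]
        have := abs_nonneg x
        nlinarith
      have h2 : ‖a' (x * u)‖ ≤ C := hC _ (abs_le.1 h1)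
      rw [norm_mul]
      have h3 : ‖u ^ (k + 1)‖ ≤ 1 := by
        rw [norm_pow, Real.norm_eq_abs, abs_of_pos hu0]
        exact pow_le_one₀ hu0.le hu1
      have h4 : 0 ≤ C := (norm_nonneg _).trans h2
      calc ‖a' (x * u)‖ * ‖u ^ (k + 1)‖ ≤ C * 1 :=
            mul_le_mul h2 h3 (norm_nonneg _) h4
        _ = C := mul_one C)
    (intervalIntegrable_const)
    (Filter.Eventually.of_forall fun u _ x _ => hd x u)
  exact this.2

/-- integration by parts -/
theorem G_eq (k : ℕ) {a a' : ℝ → ℝ} (ha : ∀ r, HasDerivAt a (a' r) r) (ha' : Continuous a')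
    (r : ℝ) : r * G (k + 1) a' r + (k + 1) * G k a r = a r := by
  have hac : Continuous a := continuous_iff_continuousAt.2 (fun x => (ha x).continuousAt)
  have hd : ∀ u ∈ uIcc (0 : ℝ) 1, HasDerivAt (fun u => a (r * u) * u ^ (k + 1))
      (r * (a' (r * u) * u ^ (k + 1)) + (k + 1) * (a (r * u) * u ^ k)) u := by
    intro u _
    have h1 : HasDerivAt (fun u : ℝ => r * u) r u := by
      simpa using (hasDerivAt_id u).const_mul r
    have h2 := ((ha (r * u)).comp u h1).mul (hasDerivAt_pow (k + 1) u)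
    refine h2.congr_deriv ?_
    simp only [Function.comp_apply]
    push_cast
    ring
  have c1 : Continuous fun u : ℝ => r * (a' (r * u) * u ^ (k + 1)) := by fun_prop
  have c2 : Continuous fun u : ℝ => ((k : ℝ) + 1) * (a (r * u) * u ^ k) := by fun_prop
  have h := intervalIntegral.integral_eq_sub_of_hasDerivAt hd
    ((c1.add c2).intervalIntegrable 0 1)
  rw [intervalIntegral.integral_add (c1.intervalIntegrable _ _) (c2.intervalIntegrable _ _),
    intervalIntegral.integral_const_mul, intervalIntegral.integral_const_mul] at h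
  unfold G
  rw [h]
  simp

theorem G_b {a : ℝ → ℝ} {b : ℝ} (hb : 0 < b) (hm : ∫ r in (0 : ℝ)..b, r ^ 2 * a r = 0) :
    G 2 a b = 0 := by
  unfold G
  have h := intervalIntegral.integral_comp_mul_left (a := 0) (b := 1)
    (fun s => a s * (s / b) ^ 2) hb.ne'
  have e1 : ∫ u in (0 : ℝ)..1, a (b * u) * u ^ 2 =
      ∫ u in (0 : ℝ)..1, a (b * u) * (b * u / b) ^ 2 := by
    refine intervalIntegral.integral_congr fun u _ => ?_
    rw [mul_div_cancel_left₀ _ hb.ne']
  rw [e1, h, mul_zero, mul_one, smul_eq_mul]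
  have e2 : ∫ s in (0 : ℝ)..b, a s * (s / b) ^ 2 = (∫ s in (0 : ℝ)..b, s ^ 2 * a s) / b ^ 2 := by
    rw [← intervalIntegral.integral_div]
    refine intervalIntegral.integral_congr fun s _ => ?_
    ring
  rw [e2, hm]
  simp

/-- the first mode -/
theorem mode1 {b μ : ℝ} (hb : 0 < b) (hμ : 0 < μ) {z z1 z2 : ℝ → ℝ}
    (hz : Comp 2 (μ * b ^ 2 / 4) z z1 z2) {a a' : ℝ → ℝ} (ha : ∀ r, HasDerivAt a (a' r) r)
    (ha' : Continuous a') (h0 : a 0 = 0) (h1 : a b = 0)
    (hm : ∫ r in (0 : ℝ)..b, r ^ 2 * a r = 0) :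
    μ * ∫ r in (0 : ℝ)..b, r * a r ^ 2 ≤
      (∫ r in (0 : ℝ)..b, r * a' r ^ 2) + ∫ r in (0 : ℝ)..b, a r ^ 2 / r := by
  have hac : Continuous a := continuous_iff_continuousAt.2 (fun x => (ha x).continuousAt)
  set g : ℝ → ℝ := G 2 a with hg
  set g' : ℝ → ℝ := G 3 a' with hg'
  have hgd : ∀ r, HasDerivAt g (g' r) r := fun r => G_deriv 2 ha ha' r
  have hgc : Continuous g := G_cont 2 hac
  have hgc' : Continuous g' := G_cont 3 ha'
  have hge : ∀ r, r * g' r + 3 * g r = a r := by
    intro r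
    have := G_eq 2 ha ha' r
    push_cast at this
    rw [hg, hg']
    linarith
  have hgb : g b = 0 := G_b hb hm
  have hg0 : g 0 = 0 := by
    have := hge 0
    rw [h0] at this
    linarith
  set t : ℝ → ℝ := fun r => a r - 4 * g r with ht
  set t' : ℝ → ℝ := fun r => a' r - 4 * g' r with ht'
  have htd : ∀ r, HasDerivAt t (t' r) r := fun r => (ha r).sub ((hgd r).const_mul 4)
  have htc : Continuous t := hac.sub (hgc.const_mul 4)
  have htc' : Continuous t' := ha'.sub (hgc'.const_mul 4)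
  have ht0 : t 0 = 0 := by rw [ht]; simp only [h0, hg0]; ring
  have htb : t b = 0 := by rw [ht]; simp only [h1, hgb]; ring
  obtain ⟨ia, -⟩ := rad hb hμ hz ha ha' h0 h1
  obtain ⟨it, hrad⟩ := rad hb hμ hz htd htc' ht0 htb
  -- `∫ r a² = ∫ r t²`
  have e1 : ∫ r in (0 : ℝ)..b, r * a r ^ 2 = ∫ r in (0 : ℝ)..b, r * t r ^ 2 := by
    have c1 : Continuous fun r => r * a r ^ 2 := by fun_prop
    have c2 : Continuous fun r => r * t r ^ 2 := by fun_prop
    have hd : ∀ r ∈ uIcc (0 : ℝ) b, HasDerivAt (fun r => 4 * (r ^ 2 * g r ^ 2))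
        (r * a r ^ 2 - r * t r ^ 2) r := by
      intro r _
      have k1 := ((hasDerivAt_pow 2 r).mul ((hgd r).pow 2)).const_mul 4
      refine k1.congr_deriv ?_
      have := hge r
      rw [ht]
      simp only
      rw [← this]
      push_cast
      simp only [Pi.pow_apply, pow_one]
      ring
    have h := intervalIntegral.integral_eq_sub_of_hasDerivAt hd
      ((c1.sub c2).intervalIntegrable 0 b)
    rw [intervalIntegral.integral_sub (c1.intervalIntegrable _ _) (c2.intervalIntegrable _ _),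
      hgb] at h
    norm_num at h
    linarith
  -- the energies
  have c1 : Continuous fun r => r * a' r ^ 2 := by fun_prop
  have c2 : Continuous fun r => r * t' r ^ 2 := by fun_prop
  have c3 : Continuous fun r => 2 * a r * a' r := by fun_prop
  have c4 : Continuous fun r => 6 * t r * t' r := by fun_prop
  have z1 : ∫ r in (0 : ℝ)..b, 2 * a r * a' r = 0 := by
    have hd : ∀ r ∈ uIcc (0 : ℝ) b, HasDerivAt (fun r => a r ^ 2) (2 * a r * a' r) r := by
      intro r _
      have k1 := (ha r).pow 2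
      refine k1.congr_deriv ?_
      push_cast
      simp only [pow_one]
    rw [intervalIntegral.integral_eq_sub_of_hasDerivAt hd (c3.intervalIntegrable 0 b), h0, h1]
    ring
  have z2 : ∫ r in (0 : ℝ)..b, 6 * t r * t' r = 0 := by
    have hd : ∀ r ∈ uIcc (0 : ℝ) b, HasDerivAt (fun r => 3 * t r ^ 2) (6 * t r * t' r) r := by
      intro r _
      have k1 := ((htd r).pow 2).const_mul 3
      refine k1.congr_deriv ?_
      push_cast
      simp only [pow_one]
      ring
    rw [intervalIntegral.integral_eq_sub_of_hasDerivAt hd (c4.intervalIntegrable 0 b), ht0, htb]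
    ring
  have e2 : (∫ r in (0 : ℝ)..b, (r * a' r ^ 2 + a r ^ 2 / r - 2 * a r * a' r)) =
      ∫ r in (0 : ℝ)..b, (r * t' r ^ 2 + 9 * (t r ^ 2 / r) + 6 * t r * t' r) := by
    rw [intervalIntegral.integral_of_le hb.le, intervalIntegral.integral_of_le hb.le]
    refine setIntegral_congr_fun measurableSet_Ioc fun r hr => ?_
    have hr0 : r ≠ 0 := hr.1.ne'
    have := hge r
    have hg'' : g' r = (a r - 3 * g r) / r := by
      field_simp
      linarith
    simp only [ht, ht']
    rw [hg'']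
    field_simp
    ring
  rw [intervalIntegral.integral_sub ((c1.intervalIntegrable _ _).add ia)
    (c3.intervalIntegrable _ _), intervalIntegral.integral_add (c1.intervalIntegrable _ _) ia,
    z1, intervalIntegral.integral_add ((c2.intervalIntegrable _ _).add (it.const_mul 9))
    (c4.intervalIntegrable _ _), z2,
    intervalIntegral.integral_add (c2.intervalIntegrable _ _) (it.const_mul 9),
    intervalIntegral.integral_const_mul] at e2
  have hpos : 0 ≤ ∫ r in (0 : ℝ)..b, t r ^ 2 / r := by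
    refine intervalIntegral.integral_nonneg hb.le fun r hr => ?_
    exact div_nonneg (sq_nonneg _) hr.1
  rw [e1]
  push_cast at hrad
  linarith

theorem swap {F : ℝ → ℝ → ℝ} (hF : Continuous (Function.uncurry F)) (a b c d : ℝ) :
    ∫ x in a..b, ∫ y in c..d, F x y = ∫ y in c..d, ∫ x in a..b, F x y := by
  apply intervalIntegral_intervalIntegral_swap
  have h1 : IntegrableOn (Function.uncurry F) (uIcc a b ×ˢ uIcc c d) :=
    hF.continuousOn.integrableOn_compact (isCompact_uIcc.prod isCompact_uIcc)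
  exact h1.mono_set (prod_mono uIoc_subset_uIcc uIoc_subset_uIcc)

theorem cont_int {F : ℝ → ℝ → ℝ} (hF : Continuous (Function.uncurry F)) (c d : ℝ) :
    Continuous fun x => ∫ y in c..d, F x y :=
  intervalIntegral.continuous_parametric_intervalIntegral_of_continuous' hF c d

theorem polar_int {b : ℝ} (hb : 0 < b) {f : ℂ → ℝ} (hf : Continuous f)
    (hsupp : ∀ x, b ≤ ‖x‖ → f x = 0) :
    ∫ x : ℂ, f x = ∫ r in (0 : ℝ)..b, ∫ θ in (-π)..π, r * f (X r θ) := by
  have hpi := pi_pos
  have htarget : polarCoord.target = Ioi (0 : ℝ) ×ˢ Ioo (-π) π := rfl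
  have hmt : MeasurableSet (Ioi (0 : ℝ) ×ˢ Ioo (-π) π) := measurableSet_Ioi.prod measurableSet_Ioo
  have hs : Ioc (0 : ℝ) b ×ˢ Ioo (-π) π ⊆ Ioi 0 ×ˢ Ioo (-π) π :=
    prod_mono Ioc_subset_Ioi_self le_rfl
  rw [← Complex.integral_comp_polarCoord_symm, htarget]
  have e0 : ∫ p in Ioi (0 : ℝ) ×ˢ Ioo (-π) π, p.1 • f (Complex.polarCoord.symm p) =
      ∫ p in Ioi (0 : ℝ) ×ˢ Ioo (-π) π, p.1 * f (X p.1 p.2) := by
    refine setIntegral_congr_fun hmt fun p _ => ?_
    simp only [smul_eq_mul]
    rw [Complex.polarCoord_symm_apply]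
    rfl
  have e1 : ∫ p in Ioi (0 : ℝ) ×ˢ Ioo (-π) π, p.1 * f (X p.1 p.2) =
      ∫ p in Ioc (0 : ℝ) b ×ˢ Ioo (-π) π, p.1 * f (X p.1 p.2) := by
    refine setIntegral_eq_of_subset_of_forall_sdiff_eq_zero hmt hs fun p hp => ?_
    have h1 : 0 < p.1 := hp.1.1
    have h2 : b < p.1 := by
      by_contra hcon
      exact hp.2 ⟨⟨h1, not_lt.1 hcon⟩, hp.1.2⟩
    rw [hsupp _ (by rw [norm_X, abs_of_pos h1]; exact h2.le), mul_zero]
  have hc : Continuous fun p : ℝ × ℝ => p.1 * f (X p.1 p.2) :=
    continuous_fst.mul (hf.comp X_cont)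
  have hi : IntegrableOn (fun p : ℝ × ℝ => p.1 * f (X p.1 p.2)) (Ioc (0 : ℝ) b ×ˢ Ioo (-π) π) := by
    have h1 : IntegrableOn (fun p : ℝ × ℝ => p.1 * f (X p.1 p.2))
        (Icc (0 : ℝ) b ×ˢ Icc (-π) π) :=
      hc.continuousOn.integrableOn_compact (isCompact_Icc.prod isCompact_Icc)
    exact h1.mono_set (prod_mono Ioc_subset_Icc_self Ioo_subset_Icc_self)
  rw [e0, e1, Measure.volume_eq_prod, setIntegral_prod _ (by rw [← Measure.volume_eq_prod]; exact hi),
    intervalIntegral.integral_of_le hb.le]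
  refine setIntegral_congr_fun measurableSet_Ioc fun r _ => ?_
  simp only
  rw [intervalIntegral.integral_of_le (by linarith), integral_Ioc_eq_integral_Ioo]

theorem param_deriv {V D : ℝ → ℝ → ℝ} (cV : Continuous (Function.uncurry V))
    (cD : Continuous (Function.uncurry D)) (dV : ∀ r θ, HasDerivAt (fun r => V r θ) (D r θ) r)
    {φ : ℝ → ℝ} (hφ : Continuous φ) (r : ℝ) :
    HasDerivAt (fun r => ∫ θ in (-π)..π, V r θ * φ θ) (∫ θ in (-π)..π, D r θ * φ θ) r := by
  have cV' : Continuous fun p : ℝ × ℝ => V p.1 p.2 := cV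
  have cD' : Continuous fun p : ℝ × ℝ => D p.1 p.2 := cD
  obtain ⟨C, hC⟩ := ((isCompact_Icc (a := r - 1) (b := r + 1)).prod
    (isCompact_uIcc (a := (-π : ℝ)) (b := π))).exists_bound_of_continuousOn
    (f := fun p : ℝ × ℝ => D p.1 p.2 * φ p.2) (by fun_prop)
  have c1 : ∀ x, Continuous fun θ => V x θ * φ θ := fun x =>
    (cV'.comp (continuous_const.prodMk continuous_id)).mul hφ
  have c2 : ∀ x, Continuous fun θ => D x θ * φ θ := fun x =>
    (cD'.comp (continuous_const.prodMk continuous_id)).mul hφ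
  have := intervalIntegral.hasDerivAt_integral_of_dominated_loc_of_deriv_le (μ := volume)
    (F := fun x u => V x u * φ u) (F' := fun x u => D x u * φ u)
    (a := -π) (b := π) (x₀ := r) (s := Metric.ball r 1) (bound := fun _ => C)
    (Metric.ball_mem_nhds r one_pos)
    (Filter.Eventually.of_forall fun x => (c1 x).aestronglyMeasurable)
    ((c1 r).intervalIntegrable _ _)
    ((c2 r).aestronglyMeasurable)
    (Filter.Eventually.of_forall fun u hu x hx => by
      rw [Metric.mem_ball, Real.dist_eq, abs_lt] at hx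
      exact hC (x, u) ⟨⟨by linarith [hx.1], by linarith [hx.2]⟩, uIoc_subset_uIcc hu⟩)
    (intervalIntegrable_const)
    (Filter.Eventually.of_forall fun u _ x _ => (dV x u).mul_const (φ u))
  exact this.2

theorem int_cos_sq : ∫ θ in (-π)..π, cos θ * cos θ = π := by
  have h := integral_cos_sq (a := -π) (b := π)
  have e : ∫ θ in (-π)..π, cos θ * cos θ = ∫ θ in (-π)..π, cos θ ^ 2 := by
    refine intervalIntegral.integral_congr fun x _ => ?_
    ring
  rw [e, h]
  simp

theorem int_sin_sq : ∫ θ in (-π)..π, sin θ * sin θ = π := by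
  have h := integral_sin_sq (a := -π) (b := π)
  have e : ∫ θ in (-π)..π, sin θ * sin θ = ∫ θ in (-π)..π, sin θ ^ 2 := by
    refine intervalIntegral.integral_congr fun x _ => ?_
    ring
  rw [e, h]
  simp

theorem int_sin_cos : ∫ θ in (-π)..π, sin θ * cos θ = 0 := by
  have hd : ∀ θ ∈ uIcc (-π) π, HasDerivAt (fun θ => sin θ ^ 2 / 2) (sin θ * cos θ) θ := by
    intro θ _
    have := ((hasDerivAt_sin θ).pow 2).div_const 2
    refine this.congr_deriv ?_
    push_cast
    simp only [pow_one]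
    ring
  have c : Continuous fun θ => sin θ * cos θ := by fun_prop
  rw [intervalIntegral.integral_eq_sub_of_hasDerivAt hd (c.intervalIntegrable _ _)]
  simp

theorem int_cos : ∫ θ in (-π)..π, cos θ = 0 := by
  rw [integral_cos]
  simp

theorem int_sin : ∫ θ in (-π)..π, sin θ = 0 := by
  rw [integral_sin]
  simp

/-- the coefficient -/
noncomputable def cf (φ g : ℝ → ℝ) : ℝ := (1 / π) * ∫ θ in (-π)..π, g θ * φ θ

/-- integrals of a function without the first modes -/
theorem proj {g : ℝ → ℝ} (hg : Continuous g) {α β : ℝ} (hα : ∫ θ in (-π)..π, g θ * cos θ = π * α)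
    (hβ : ∫ θ in (-π)..π, g θ * sin θ = π * β) :
    (∫ θ in (-π)..π, g θ ^ 2 = (∫ θ in (-π)..π, (g θ - α * cos θ - β * sin θ) ^ 2) +
      π * (α ^ 2 + β ^ 2)) ∧
    ∫ θ in (-π)..π, (g θ - α * cos θ - β * sin θ) = ∫ θ in (-π)..π, g θ ∧
    ∫ θ in (-π)..π, (g θ - α * cos θ - β * sin θ) * cos θ = 0 ∧
    ∫ θ in (-π)..π, (g θ - α * cos θ - β * sin θ) * sin θ = 0 := by
  have i : ∀ {f : ℝ → ℝ}, Continuous f → IntervalIntegrable f volume (-π) π :=
    fun hf => hf.intervalIntegrable _ _
  have k1 : ∫ θ in (-π)..π, (g θ - α * cos θ - β * sin θ) * cos θ = 0 := by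
    have e : ∀ θ, (g θ - α * cos θ - β * sin θ) * cos θ =
        g θ * cos θ - α * (cos θ * cos θ) - β * (sin θ * cos θ) := fun θ => by ring
    simp only [e]
    rw [intervalIntegral.integral_sub (i (by fun_prop)) (i (by fun_prop)),
      intervalIntegral.integral_sub (i (by fun_prop)) (i (by fun_prop)),
      intervalIntegral.integral_const_mul, intervalIntegral.integral_const_mul, hα, int_cos_sq,
      int_sin_cos]
    ring
  have k2 : ∫ θ in (-π)..π, (g θ - α * cos θ - β * sin θ) * sin θ = 0 := by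
    have e : ∀ θ, (g θ - α * cos θ - β * sin θ) * sin θ =
        g θ * sin θ - α * (sin θ * cos θ) - β * (sin θ * sin θ) := fun θ => by ring
    simp only [e]
    rw [intervalIntegral.integral_sub (i (by fun_prop)) (i (by fun_prop)),
      intervalIntegral.integral_sub (i (by fun_prop)) (i (by fun_prop)),
      intervalIntegral.integral_const_mul, intervalIntegral.integral_const_mul, hβ, int_sin_sq,
      int_sin_cos]
    ring
  refine ⟨?_, ?_, k1, k2⟩
  · have e : ∀ θ, (g θ - α * cos θ - β * sin θ) ^ 2 = g θ ^ 2 -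
        α * (g θ * cos θ) - β * (g θ * sin θ) - α * ((g θ - α * cos θ - β * sin θ) * cos θ) -
        β * ((g θ - α * cos θ - β * sin θ) * sin θ) := fun θ => by ring
    simp only [e]
    rw [intervalIntegral.integral_sub (i (by fun_prop)) (i (by fun_prop)),
      intervalIntegral.integral_sub (i (by fun_prop)) (i (by fun_prop)),
      intervalIntegral.integral_sub (i (by fun_prop)) (i (by fun_prop)),
      intervalIntegral.integral_sub (i (by fun_prop)) (i (by fun_prop)),
      intervalIntegral.integral_const_mul, intervalIntegral.integral_const_mul,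
      intervalIntegral.integral_const_mul, intervalIntegral.integral_const_mul, hα, hβ, k1, k2]
    ring
  · rw [intervalIntegral.integral_sub (i (by fun_prop)) (i (by fun_prop)),
      intervalIntegral.integral_sub (i (by fun_prop)) (i (by fun_prop)),
      intervalIntegral.integral_const_mul, intervalIntegral.integral_const_mul, int_cos, int_sin]
    ring


theorem iadd {f g : ℝ → ℝ} (hf : Continuous f) (hg : Continuous g) {a b : ℝ} :
    ∫ x in a..b, (f x + g x) = (∫ x in a..b, f x) + ∫ x in a..b, g x :=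
  intervalIntegral.integral_add (hf.intervalIntegrable _ _) (hg.intervalIntegrable _ _)

/-- the inequality in polar coordinates -/
theorem core {b μ : ℝ} (hb : 0 < b) (hμ : 0 < μ) {z z1 z2 : ℝ → ℝ}
    (hz : Comp 2 (μ * b ^ 2 / 4) z z1 z2) (V D T V1 : ℝ → ℝ → ℝ)
    (cV : Continuous (Function.uncurry V)) (cD : Continuous (Function.uncurry D))
    (cT : Continuous (Function.uncurry T)) (cV1 : Continuous (Function.uncurry V1))
    (dV : ∀ r θ, HasDerivAt (fun r => V r θ) (D r θ) r)
    (tV : ∀ r θ, HasDerivAt (fun θ => V r θ) (r * T r θ) θ)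
    (eV : ∀ r θ, V r θ = r * V1 r θ) (pV : ∀ r, V r π = V r (-π)) (Vb : ∀ θ, V b θ = 0)
    (hmean : ∀ r, 0 < r → ∫ θ in (-π)..π, V r θ = 0)
    (hmc : ∫ r in (0 : ℝ)..b, ∫ θ in (-π)..π, r ^ 2 * (V r θ * cos θ) = 0)
    (hms : ∫ r in (0 : ℝ)..b, ∫ θ in (-π)..π, r ^ 2 * (V r θ * sin θ) = 0) :
    μ * ∫ r in (0 : ℝ)..b, ∫ θ in (-π)..π, r * V r θ ^ 2 ≤
      ∫ r in (0 : ℝ)..b, ∫ θ in (-π)..π, r * (D r θ ^ 2 + T r θ ^ 2) := by
  have hpi := pi_pos
  have cV' : Continuous fun p : ℝ × ℝ => V p.1 p.2 := cV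
  have cD' : Continuous fun p : ℝ × ℝ => D p.1 p.2 := cD
  have cT' : Continuous fun p : ℝ × ℝ => T p.1 p.2 := cT
  have cV1' : Continuous fun p : ℝ × ℝ => V1 p.1 p.2 := cV1
  have sV : ∀ r, Continuous fun θ => V r θ := fun r =>
    cV'.comp (continuous_const.prodMk continuous_id)
  have sD : ∀ r, Continuous fun θ => D r θ := fun r =>
    cD'.comp (continuous_const.prodMk continuous_id)
  have sT : ∀ r, Continuous fun θ => T r θ := fun r =>
    cT'.comp (continuous_const.prodMk continuous_id)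
  have sV1 : ∀ r, Continuous fun θ => V1 r θ := fun r =>
    cV1'.comp (continuous_const.prodMk continuous_id)
  -- the first modes
  obtain ⟨A, hA⟩ : ∃ A : ℝ → ℝ, A = fun r => 1 / π * ∫ θ in (-π)..π, V r θ * cos θ := ⟨_, rfl⟩
  obtain ⟨A', hA'⟩ : ∃ A' : ℝ → ℝ, A' = fun r => 1 / π * ∫ θ in (-π)..π, D r θ * cos θ := ⟨_, rfl⟩
  obtain ⟨A1, hA1⟩ : ∃ A1 : ℝ → ℝ, A1 = fun r => 1 / π * ∫ θ in (-π)..π, V1 r θ * cos θ :=
    ⟨_, rfl⟩
  obtain ⟨B, hB⟩ : ∃ B : ℝ → ℝ, B = fun r => 1 / π * ∫ θ in (-π)..π, V r θ * sin θ := ⟨_, rfl⟩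
  obtain ⟨B', hB'⟩ : ∃ B' : ℝ → ℝ, B' = fun r => 1 / π * ∫ θ in (-π)..π, D r θ * sin θ := ⟨_, rfl⟩
  obtain ⟨B1, hB1⟩ : ∃ B1 : ℝ → ℝ, B1 = fun r => 1 / π * ∫ θ in (-π)..π, V1 r θ * sin θ :=
    ⟨_, rfl⟩
  have cA : Continuous A := by
    rw [hA]
    refine continuous_const.mul (cont_int (F := fun r θ => V r θ * cos θ) ?_ _ _)
    exact cV'.mul (continuous_cos.comp continuous_snd)
  have cA' : Continuous A' := by
    rw [hA']
    refine continuous_const.mul (cont_int (F := fun r θ => D r θ * cos θ) ?_ _ _)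
    exact cD'.mul (continuous_cos.comp continuous_snd)
  have cA1 : Continuous A1 := by
    rw [hA1]
    refine continuous_const.mul (cont_int (F := fun r θ => V1 r θ * cos θ) ?_ _ _)
    exact cV1'.mul (continuous_cos.comp continuous_snd)
  have cB : Continuous B := by
    rw [hB]
    refine continuous_const.mul (cont_int (F := fun r θ => V r θ * sin θ) ?_ _ _)
    exact cV'.mul (continuous_sin.comp continuous_snd)
  have cB' : Continuous B' := by
    rw [hB']
    refine continuous_const.mul (cont_int (F := fun r θ => D r θ * sin θ) ?_ _ _)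
    exact cD'.mul (continuous_sin.comp continuous_snd)
  have cB1 : Continuous B1 := by
    rw [hB1]
    refine continuous_const.mul (cont_int (F := fun r θ => V1 r θ * sin θ) ?_ _ _)
    exact cV1'.mul (continuous_sin.comp continuous_snd)
  have dA : ∀ r, HasDerivAt A (A' r) r := by
    intro r
    rw [hA, hA']
    exact (param_deriv cV cD dV continuous_cos r).const_mul _
  have dB : ∀ r, HasDerivAt B (B' r) r := by
    intro r
    rw [hB, hB']
    exact (param_deriv cV cD dV continuous_sin r).const_mul _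
  have eA : ∀ r, A r = r * A1 r := by
    intro r
    rw [hA, hA1]
    simp only
    have : ∫ θ in (-π)..π, V r θ * cos θ = r * ∫ θ in (-π)..π, V1 r θ * cos θ := by
      rw [← intervalIntegral.integral_const_mul]
      refine intervalIntegral.integral_congr fun θ _ => ?_
      simp only [eV r θ]
      ring
    rw [this]
    ring
  have eB : ∀ r, B r = r * B1 r := by
    intro r
    rw [hB, hB1]
    simp only
    have : ∫ θ in (-π)..π, V r θ * sin θ = r * ∫ θ in (-π)..π, V1 r θ * sin θ := by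
      rw [← intervalIntegral.integral_const_mul]
      refine intervalIntegral.integral_congr fun θ _ => ?_
      simp only [eV r θ]
      ring
    rw [this]
    ring
  have A0 : A 0 = 0 := by rw [eA, zero_mul]
  have B0 : B 0 = 0 := by rw [eB, zero_mul]
  have Ab : A b = 0 := by rw [hA]; simp [Vb]
  have Bb : B b = 0 := by rw [hB]; simp [Vb]
  have pA : ∀ r, ∫ θ in (-π)..π, V r θ * cos θ = π * A r := by
    intro r
    rw [hA]
    field_simp
  have pB : ∀ r, ∫ θ in (-π)..π, V r θ * sin θ = π * B r := by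
    intro r
    rw [hB]
    field_simp
  have pA' : ∀ r, ∫ θ in (-π)..π, D r θ * cos θ = π * A' r := by
    intro r
    rw [hA']
    field_simp
  have pB' : ∀ r, ∫ θ in (-π)..π, D r θ * sin θ = π * B' r := by
    intro r
    rw [hB']
    field_simp
  clear hA hA' hA1 hB hB' hB1
  -- the moments
  have mA : ∫ r in (0 : ℝ)..b, r ^ 2 * A r = 0 := by
    have e : ∀ r, ∫ θ in (-π)..π, r ^ 2 * (V r θ * cos θ) = π * (r ^ 2 * A r) := by
      intro r
      rw [intervalIntegral.integral_const_mul, pA]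
      ring
    simp only [e] at hmc
    rw [intervalIntegral.integral_const_mul] at hmc
    exact (mul_eq_zero.1 hmc).resolve_left hpi.ne'
  have mB : ∫ r in (0 : ℝ)..b, r ^ 2 * B r = 0 := by
    have e : ∀ r, ∫ θ in (-π)..π, r ^ 2 * (V r θ * sin θ) = π * (r ^ 2 * B r) := by
      intro r
      rw [intervalIntegral.integral_const_mul, pB]
      ring
    simp only [e] at hms
    rw [intervalIntegral.integral_const_mul] at hms
    exact (mul_eq_zero.1 hms).resolve_left hpi.ne'
  have qA := mode1 hb hμ hz dA cA' A0 Ab mA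
  have qB := mode1 hb hμ hz dB cB' B0 Bb mB
  have dv : ∀ f f1 : ℝ → ℝ, (∀ r, f r = r * f1 r) → ∀ r, f r ^ 2 / r = r * f1 r ^ 2 := by
    intro f f1 h r
    rw [h]
    rcases eq_or_ne r 0 with rfl | hr
    · simp
    · field_simp
  simp only [dv A A1 eA] at qA
  simp only [dv B B1 eB] at qB
  -- the remaining part
  obtain ⟨Y, hY⟩ : ∃ Y : ℝ → ℝ → ℝ, Y = fun r θ => V r θ - A r * cos θ - B r * sin θ := ⟨_, rfl⟩
  obtain ⟨Y', hY'⟩ : ∃ Y' : ℝ → ℝ → ℝ, Y' = fun r θ => D r θ - A' r * cos θ - B' r * sin θ :=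
    ⟨_, rfl⟩
  obtain ⟨Y1, hY1⟩ : ∃ Y1 : ℝ → ℝ → ℝ, Y1 = fun r θ => V1 r θ - A1 r * cos θ - B1 r * sin θ :=
    ⟨_, rfl⟩
  obtain ⟨W, hW⟩ : ∃ W : ℝ → ℝ → ℝ, W = fun r θ => T r θ - B1 r * cos θ - (-A1 r) * sin θ :=
    ⟨_, rfl⟩
  have cY : Continuous fun p : ℝ × ℝ => Y p.1 p.2 := by rw [hY]; fun_prop
  have cY' : Continuous fun p : ℝ × ℝ => Y' p.1 p.2 := by rw [hY']; fun_prop
  have cY1 : Continuous fun p : ℝ × ℝ => Y1 p.1 p.2 := by rw [hY1]; fun_prop
  have cW : Continuous fun p : ℝ × ℝ => W p.1 p.2 := by rw [hW]; fun_prop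
  have eY : ∀ r θ, Y r θ = r * Y1 r θ := by
    intro r θ
    rw [hY, hY1]
    simp only [eV r θ, eA r, eB r]
    ring
  have dY : ∀ r θ, HasDerivAt (fun r => Y r θ) (Y' r θ) r := by
    intro r θ
    rw [hY, hY']
    exact ((dV r θ).sub ((dA r).mul_const _)).sub ((dB r).mul_const _)
  have tY : ∀ r θ, HasDerivAt (fun θ => Y r θ) (r * W r θ) θ := by
    intro r θ
    have h1 := ((tV r θ).sub ((hasDerivAt_cos θ).const_mul (A r))).sub
      ((hasDerivAt_sin θ).const_mul (B r))
    rw [hY, hW]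
    refine h1.congr_deriv ?_
    simp only [eA r, eB r]
    ring
  -- radial inequality
  have hrad : ∀ θ, μ * ∫ r in (0 : ℝ)..b, r * Y r θ ^ 2 ≤
      (∫ r in (0 : ℝ)..b, r * Y' r θ ^ 2) + 4 * ∫ r in (0 : ℝ)..b, r * Y1 r θ ^ 2 := by
    intro θ
    have c1 : Continuous fun r => Y' r θ := cY'.comp (continuous_id.prodMk continuous_const)
    obtain ⟨-, h1⟩ := rad hb hμ hz (fun r => dY r θ) c1 (by rw [eY, zero_mul]) (by
      rw [hY]
      simp only [Vb, Ab, Bb]
      ring)
    simp only [dv (fun r => Y r θ) (fun r => Y1 r θ) (fun r => eY r θ)] at h1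
    norm_num at h1
    exact h1
  have c1 : Continuous (Function.uncurry fun θ r : ℝ => r * Y r θ ^ 2) := by
    have : Continuous fun p : ℝ × ℝ => Y p.2 p.1 := cY.comp continuous_swap
    exact continuous_snd.mul (this.pow 2)
  have c2 : Continuous (Function.uncurry fun θ r : ℝ => r * Y' r θ ^ 2) := by
    have : Continuous fun p : ℝ × ℝ => Y' p.2 p.1 := cY'.comp continuous_swap
    exact continuous_snd.mul (this.pow 2)
  have c3 : Continuous (Function.uncurry fun θ r : ℝ => r * Y1 r θ ^ 2) := by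
    have : Continuous fun p : ℝ × ℝ => Y1 p.2 p.1 := cY1.comp continuous_swap
    exact continuous_snd.mul (this.pow 2)
  have i1 := cont_int c1 0 b
  have i2 := cont_int c2 0 b
  have i3 := cont_int c3 0 b
  have h1 : μ * ∫ r in (0 : ℝ)..b, ∫ θ in (-π)..π, r * Y r θ ^ 2 ≤
      (∫ r in (0 : ℝ)..b, ∫ θ in (-π)..π, r * Y' r θ ^ 2) +
        4 * ∫ r in (0 : ℝ)..b, ∫ θ in (-π)..π, r * Y1 r θ ^ 2 := by
    rw [← swap c1, ← swap c2, ← swap c3, ← intervalIntegral.integral_const_mul,
      ← intervalIntegral.integral_const_mul,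
      ← intervalIntegral.integral_add (i2.intervalIntegrable _ _)
        ((i3.const_mul 4).intervalIntegrable _ _)]
    exact intervalIntegral.integral_mono_on (by linarith) ((i1.const_mul μ).intervalIntegrable _ _)
      ((i2.add (i3.const_mul 4)).intervalIntegrable _ _) fun θ _ => hrad θ
  -- the circles
  have pW : ∀ r, 0 < r → ∫ θ in (-π)..π, T r θ * cos θ = π * B1 r ∧
      ∫ θ in (-π)..π, T r θ * sin θ = π * (-A1 r) := by
    intro r hr
    have k1 : ∀ θ ∈ uIcc (-π) π, HasDerivAt (fun θ => V r θ * cos θ)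
        (r * (T r θ * cos θ) - V r θ * sin θ) θ := by
      intro θ _
      refine ((tV r θ).mul (hasDerivAt_cos θ)).congr_deriv ?_
      ring
    have k2 : ∀ θ ∈ uIcc (-π) π, HasDerivAt (fun θ => V r θ * sin θ)
        (r * (T r θ * sin θ) + V r θ * cos θ) θ := by
      intro θ _
      refine ((tV r θ).mul (hasDerivAt_sin θ)).congr_deriv ?_
      ring
    have a1 : Continuous fun θ => r * (T r θ * cos θ) :=
      continuous_const.mul ((sT r).mul continuous_cos)
    have a2 : Continuous fun θ => V r θ * sin θ := (sV r).mul continuous_sin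
    have a3 : Continuous fun θ => r * (T r θ * sin θ) :=
      continuous_const.mul ((sT r).mul continuous_sin)
    have a4 : Continuous fun θ => V r θ * cos θ := (sV r).mul continuous_cos
    have j1 := intervalIntegral.integral_eq_sub_of_hasDerivAt k1
      ((a1.sub a2).intervalIntegrable _ _)
    have j2 := intervalIntegral.integral_eq_sub_of_hasDerivAt k2
      ((a3.add a4).intervalIntegrable _ _)
    rw [intervalIntegral.integral_sub (a1.intervalIntegrable _ _) (a2.intervalIntegrable _ _),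
      intervalIntegral.integral_const_mul, pB, pV r, cos_neg, sub_self, eB] at j1
    rw [intervalIntegral.integral_add (a3.intervalIntegrable _ _) (a4.intervalIntegrable _ _),
      intervalIntegral.integral_const_mul, pA, pV r, sin_neg, sin_pi, neg_zero, sub_self,
      eA] at j2
    constructor
    · have : r * ((∫ θ in (-π)..π, T r θ * cos θ) - π * B1 r) = 0 := by linarith
      have := (mul_eq_zero.1 this).resolve_left hr.ne'
      linarith
    · have : r * ((∫ θ in (-π)..π, T r θ * sin θ) - π * (-A1 r)) = 0 := by linarith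
      have := (mul_eq_zero.1 this).resolve_left hr.ne'
      linarith
  have h2 : ∀ r, 0 < r → 4 * ∫ θ in (-π)..π, Y1 r θ ^ 2 ≤ ∫ θ in (-π)..π, W r θ ^ 2 := by
    intro r hr
    obtain ⟨-, q2, q3, q4⟩ := proj (sV r) (pA r) (pB r)
    have sW : Continuous fun θ => r * W r θ :=
      continuous_const.mul (cW.comp (continuous_const.prodMk continuous_id))
    have hw := wirt2 (fun θ => Y r θ) (fun θ => r * W r θ) (tY r) sW
      (by
        rw [hY]
        simp only [pV r, cos_neg, sin_neg, sin_pi, neg_zero])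
      (by
        rw [hY]
        simp only
        rw [q2, hmean r hr])
      (by
        rw [hY]
        exact q3)
      (by
        rw [hY]
        exact q4)
    have e1 : ∫ θ in (-π)..π, Y r θ ^ 2 = r ^ 2 * ∫ θ in (-π)..π, Y1 r θ ^ 2 := by
      rw [← intervalIntegral.integral_const_mul]
      refine intervalIntegral.integral_congr fun θ _ => ?_
      simp only [eY r θ]
      ring
    have e2 : ∫ θ in (-π)..π, (r * W r θ) ^ 2 = r ^ 2 * ∫ θ in (-π)..π, W r θ ^ 2 := by
      rw [← intervalIntegral.integral_const_mul]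
      refine intervalIntegral.integral_congr fun θ _ => ?_
      ring
    rw [e1, e2] at hw
    have h3 : 0 < r ^ 2 := by positivity
    have h4 : r ^ 2 * (4 * ∫ θ in (-π)..π, Y1 r θ ^ 2) ≤ r ^ 2 * ∫ θ in (-π)..π, W r θ ^ 2 := by
      linarith
    exact le_of_mul_le_mul_left h4 h3
  -- the integrals over the circles
  have g1 : ∀ r, ∫ θ in (-π)..π, r * V r θ ^ 2 =
      (∫ θ in (-π)..π, r * Y r θ ^ 2) + π * (r * A r ^ 2) + π * (r * B r ^ 2) := by
    intro r
    obtain ⟨q1, -⟩ := proj (sV r) (pA r) (pB r)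
    rw [intervalIntegral.integral_const_mul, intervalIntegral.integral_const_mul, q1, hY]
    ring
  have g2 : ∀ r ∈ Icc (0 : ℝ) b, (∫ θ in (-π)..π, r * Y' r θ ^ 2) +
      4 * (∫ θ in (-π)..π, r * Y1 r θ ^ 2) + π * (r * A' r ^ 2 + r * A1 r ^ 2) +
      π * (r * B' r ^ 2 + r * B1 r ^ 2) ≤ ∫ θ in (-π)..π, r * (D r θ ^ 2 + T r θ ^ 2) := by
    intro r hr
    rcases hr.1.eq_or_lt with h0 | h0
    · rw [← h0]
      simp
    · obtain ⟨q1, -⟩ := proj (sD r) (pA' r) (pB' r)
      obtain ⟨q5, -⟩ := proj (sT r) (pW r h0).1 (pW r h0).2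
      have q6 := h2 r h0
      have e5 : ∫ θ in (-π)..π, (D r θ ^ 2 + T r θ ^ 2) =
          (∫ θ in (-π)..π, D r θ ^ 2) + ∫ θ in (-π)..π, T r θ ^ 2 :=
        intervalIntegral.integral_add (((sD r).pow 2).intervalIntegrable _ _)
          (((sT r).pow 2).intervalIntegrable _ _)
      have e6 : ∫ θ in (-π)..π, W r θ ^ 2 =
          ∫ θ in (-π)..π, (T r θ - B1 r * cos θ - (-A1 r) * sin θ) ^ 2 := by
        rw [hW]
      have e7 : ∫ θ in (-π)..π, Y' r θ ^ 2 =
          ∫ θ in (-π)..π, (D r θ - A' r * cos θ - B' r * sin θ) ^ 2 := by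
        rw [hY']
      rw [intervalIntegral.integral_const_mul, intervalIntegral.integral_const_mul,
        intervalIntegral.integral_const_mul, e5, q1, q5, ← e6, ← e7]
      have q7 := mul_le_mul_of_nonneg_left q6 h0.le
      linarith
  -- conclusion
  have j1 : Continuous fun r : ℝ => r * A r ^ 2 := by fun_prop
  have j2 : Continuous fun r : ℝ => r * B r ^ 2 := by fun_prop
  have j3 : Continuous fun r : ℝ => r * A' r ^ 2 := by fun_prop
  have j4 : Continuous fun r : ℝ => r * B' r ^ 2 := by fun_prop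
  have j5 : Continuous fun r : ℝ => r * A1 r ^ 2 := by fun_prop
  have j6 : Continuous fun r : ℝ => r * B1 r ^ 2 := by fun_prop
  have j7 : Continuous fun r : ℝ => ∫ θ in (-π)..π, r * Y r θ ^ 2 :=
    cont_int (F := fun r θ => r * Y r θ ^ 2) (by
      show Continuous fun p : ℝ × ℝ => p.1 * Y p.1 p.2 ^ 2
      fun_prop) _ _
  have j8 : Continuous fun r : ℝ => ∫ θ in (-π)..π, r * Y' r θ ^ 2 :=
    cont_int (F := fun r θ => r * Y' r θ ^ 2) (by
      show Continuous fun p : ℝ × ℝ => p.1 * Y' p.1 p.2 ^ 2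
      fun_prop) _ _
  have j9 : Continuous fun r : ℝ => ∫ θ in (-π)..π, r * Y1 r θ ^ 2 :=
    cont_int (F := fun r θ => r * Y1 r θ ^ 2) (by
      show Continuous fun p : ℝ × ℝ => p.1 * Y1 p.1 p.2 ^ 2
      fun_prop) _ _
  have j10 : Continuous fun r : ℝ => ∫ θ in (-π)..π, r * (D r θ ^ 2 + T r θ ^ 2) :=
    cont_int (F := fun r θ => r * (D r θ ^ 2 + T r θ ^ 2)) (by
      show Continuous fun p : ℝ × ℝ => p.1 * (D p.1 p.2 ^ 2 + T p.1 p.2 ^ 2)
      fun_prop) _ _
  have l1 : ∫ r in (0 : ℝ)..b, ∫ θ in (-π)..π, r * V r θ ^ 2 =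
      (∫ r in (0 : ℝ)..b, ∫ θ in (-π)..π, r * Y r θ ^ 2) +
        π * (∫ r in (0 : ℝ)..b, r * A r ^ 2) + π * ∫ r in (0 : ℝ)..b, r * B r ^ 2 := by
    simp only [g1]
    have m0 : Continuous fun r : ℝ => (∫ θ in (-π)..π, r * Y r θ ^ 2) + π * (r * A r ^ 2) :=
      j7.add (j1.const_mul π)
    have m1 : Continuous fun r : ℝ => π * (r * A r ^ 2) := j1.const_mul π
    have m2 : Continuous fun r : ℝ => π * (r * B r ^ 2) := j2.const_mul π
    rw [iadd m0 m2, iadd j7 m1, intervalIntegral.integral_const_mul,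
      intervalIntegral.integral_const_mul]
  have l2 : (∫ r in (0 : ℝ)..b, ∫ θ in (-π)..π, r * Y' r θ ^ 2) +
      4 * (∫ r in (0 : ℝ)..b, ∫ θ in (-π)..π, r * Y1 r θ ^ 2) +
      π * ((∫ r in (0 : ℝ)..b, r * A' r ^ 2) + ∫ r in (0 : ℝ)..b, r * A1 r ^ 2) +
      π * ((∫ r in (0 : ℝ)..b, r * B' r ^ 2) + ∫ r in (0 : ℝ)..b, r * B1 r ^ 2) ≤
      ∫ r in (0 : ℝ)..b, ∫ θ in (-π)..π, r * (D r θ ^ 2 + T r θ ^ 2) := by
    have m4 : Continuous fun r : ℝ => 4 * ∫ θ in (-π)..π, r * Y1 r θ ^ 2 := j9.const_mul 4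
    have m3 : Continuous fun r : ℝ => (∫ θ in (-π)..π, r * Y' r θ ^ 2) +
        4 * ∫ θ in (-π)..π, r * Y1 r θ ^ 2 := j8.add m4
    have m5 : Continuous fun r : ℝ => π * (r * A' r ^ 2 + r * A1 r ^ 2) :=
      (j3.add j5).const_mul π
    have m6 : Continuous fun r : ℝ => π * (r * B' r ^ 2 + r * B1 r ^ 2) :=
      (j4.add j6).const_mul π
    have m1 : Continuous fun r : ℝ => (∫ θ in (-π)..π, r * Y' r θ ^ 2) +
        4 * (∫ θ in (-π)..π, r * Y1 r θ ^ 2) + π * (r * A' r ^ 2 + r * A1 r ^ 2) := m3.add m5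
    have m2 : Continuous fun r : ℝ => (∫ θ in (-π)..π, r * Y' r θ ^ 2) +
        4 * (∫ θ in (-π)..π, r * Y1 r θ ^ 2) + π * (r * A' r ^ 2 + r * A1 r ^ 2) +
        π * (r * B' r ^ 2 + r * B1 r ^ 2) := m1.add m6
    have h := intervalIntegral.integral_mono_on (μ := volume) hb.le (m2.intervalIntegrable 0 b)
      (j10.intervalIntegrable 0 b) g2
    refine le_trans (le_of_eq ?_) h
    rw [iadd m1 m6, iadd m3 m5, iadd j8 m4, intervalIntegral.integral_const_mul,
      intervalIntegral.integral_const_mul, intervalIntegral.integral_const_mul,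
      iadd j3 j5, iadd j4 j6]
  rw [l1]
  have q8 := mul_le_mul_of_nonneg_left qA hpi.le
  have q9 := mul_le_mul_of_nonneg_left qB hpi.le
  linarith

end Coer2


theorem coer2 {b μ : ℝ} (hb : 0 < b) (hμ : 0 < μ) {z z1 z2 : ℝ → ℝ}
    (hz : Comp 2 (μ * b ^ 2 / 4) z z1 z2) {v : ℂ → ℝ} (hv : ContDiff ℝ (⊤ : ℕ∞) v)
    (hsupp : ∀ x, b ≤ ‖x‖ → v x = 0) (h0 : v 0 = 0)
    (hmean : ∀ r : ℝ, 0 < r → ∫ θ in (0 : ℝ)..(2 * π), v (X r θ) = 0)
    (hm1 : ∫ x : ℂ, x.re * v x = 0) (hm2 : ∫ x : ℂ, x.im * v x = 0) :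
    μ * ∫ x, v x ^ 2 ≤ ∫ x, ((fderiv ℝ v x 1) ^ 2 + (fderiv ℝ v x Complex.I) ^ 2) := by
  have hpi := pi_pos
  have hd : ∀ x, HasFDerivAt v (fderiv ℝ v x) x := fun x =>
    (hv.differentiable (by simp) x).hasFDerivAt
  have hvc : Continuous v := hv.continuous
  have hdc : Continuous (fderiv ℝ v) := hv.continuous_fderiv (by simp)
  -- the derivatives in polar coordinates
  have hdr : ∀ r θ : ℝ, HasDerivAt (fun r : ℝ => v (X r θ)) (fderiv ℝ v (X r θ) (er θ)) r :=
    fun r θ => (hd (X r θ)).comp_hasDerivAt r (X_dr r θ)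
  have hdt : ∀ r θ : ℝ, HasDerivAt (fun θ : ℝ => v (X r θ))
      (r * fderiv ℝ v (X r θ) (et θ)) θ := by
    intro r θ
    have h1 := (hd (X r θ)).comp_hasDerivAt θ (X_dt r θ)
    refine h1.congr_deriv ?_
    rw [show (r : ℂ) * et θ = r • et θ from (Complex.real_smul).symm, map_smul, smul_eq_mul]
  have hXc := X_cont
  have hwc : Continuous fun p : ℝ × ℝ => v (X p.1 p.2) := hvc.comp hXc
  have herc : Continuous er := by unfold er; fun_prop
  have hetc : Continuous et := by unfold et; fun_prop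
  have hrc : Continuous fun p : ℝ × ℝ => fderiv ℝ v (X p.1 p.2) (er p.2) :=
    (hdc.comp hXc).clm_apply (herc.comp continuous_snd)
  have htc : Continuous fun p : ℝ × ℝ => fderiv ℝ v (X p.1 p.2) (et p.2) :=
    (hdc.comp hXc).clm_apply (hetc.comp continuous_snd)
  have X0 : ∀ θ, X 0 θ = 0 := fun θ => by simp [X]
  -- division by the radius
  have hV1 : Continuous (Function.uncurry fun r θ : ℝ =>
      ∫ u in (0 : ℝ)..1, fderiv ℝ v (X (r * u) θ) (er θ)) := by
    have h1 : Continuous (Function.uncurry fun (p : ℝ × ℝ) (u : ℝ) =>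
        fderiv ℝ v (X (p.1 * u) p.2) (er p.2)) := by
      have h2 : Continuous fun q : (ℝ × ℝ) × ℝ => ((q.1.1 * q.2, q.1.2) : ℝ × ℝ) := by fun_prop
      exact hrc.comp h2
    exact intervalIntegral.continuous_parametric_intervalIntegral_of_continuous' h1 0 1
  have eV : ∀ r θ, v (X r θ) = r * ∫ u in (0 : ℝ)..1, fderiv ℝ v (X (r * u) θ) (er θ) := by
    intro r θ
    have k1 : ∀ u ∈ uIcc (0 : ℝ) 1, HasDerivAt (fun u : ℝ => v (X (r * u) θ))
        (r * fderiv ℝ v (X (r * u) θ) (er θ)) u := by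
      intro u _
      have h1 : HasDerivAt (fun u : ℝ => r * u) r u := by
        simpa using (hasDerivAt_id u).const_mul r
      refine ((hdr (r * u) θ).comp u h1).congr_deriv ?_
      ring
    have c1 : Continuous fun u : ℝ => r * fderiv ℝ v (X (r * u) θ) (er θ) := by
      have h2 : Continuous fun u : ℝ => ((r * u, θ) : ℝ × ℝ) := by fun_prop
      exact continuous_const.mul (hrc.comp h2)
    have := intervalIntegral.integral_eq_sub_of_hasDerivAt k1 (c1.intervalIntegrable 0 1)
    rw [intervalIntegral.integral_const_mul, mul_one, mul_zero, X0, h0, sub_zero] at this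
    exact this.symm
  -- support of the derivative
  have hsupp' : ∀ x, b ≤ ‖x‖ → fderiv ℝ v x = 0 := by
    have h1 : ∀ x ∈ (Metric.closedBall (0 : ℂ) b)ᶜ, fderiv ℝ v x = 0 := by
      intro x hx
      have h2 : v =ᶠ[nhds x] fun _ => 0 := by
        filter_upwards [Metric.isClosed_closedBall.isOpen_compl.mem_nhds hx] with y hy
        rw [mem_compl_iff, mem_closedBall_zero_iff, not_le] at hy
        exact hsupp y hy.le
      rw [h2.fderiv_eq]
      simp
    have hcl : IsClosed {x : ℂ | fderiv ℝ v x = 0} := isClosed_eq hdc continuous_const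
    intro x hx
    have h3 : x ∈ closure ((Metric.closedBall (0 : ℂ) b)ᶜ) := by
      rw [closure_compl, interior_closedBall _ hb.ne', mem_compl_iff, mem_ball_zero_iff, not_lt]
      exact hx
    exact closure_minimal h1 hcl h3
  -- the integrals
  have t1 := Coer2.polar_int hb (f := fun x => v x ^ 2) (hvc.pow 2) (fun x hx => by
    simp only [hsupp x hx]; ring)
  have t2 := Coer2.polar_int hb
    (f := fun x => (fderiv ℝ v x 1) ^ 2 + (fderiv ℝ v x Complex.I) ^ 2) (by fun_prop)
    (fun x hx => by simp only [hsupp' x hx]; simp)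
  have t3 := Coer2.polar_int hb (f := fun x => x.re * v x) (Complex.continuous_re.mul hvc)
    (fun x hx => by simp only [hsupp x hx]; ring)
  have t4 := Coer2.polar_int hb (f := fun x => x.im * v x) (Complex.continuous_im.mul hvc)
    (fun x hx => by simp only [hsupp x hx]; ring)
  rw [hm1] at t3
  rw [hm2] at t4
  have hper : ∀ r θ : ℝ, v (X r (θ + 2 * π)) = v (X r θ) := by
    intro r θ
    rw [X_add]
    have : Complex.exp ((2 * π : ℝ) * Complex.I) = 1 := by
      push_cast
      exact Complex.exp_two_pi_mul_I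
    rw [this, one_mul]
  have hre : ∀ r θ, (X r θ).re = r * cos θ := by
    intro r θ
    simp [X, Complex.add_re, Complex.mul_re, Complex.cos_ofReal_re, Complex.sin_ofReal_re]
  have him : ∀ r θ, (X r θ).im = r * sin θ := by
    intro r θ
    simp [X, Complex.add_im, Complex.mul_im, Complex.cos_ofReal_re, Complex.sin_ofReal_re]
  have key := Coer2.core hb hμ hz (fun r θ => v (X r θ)) (fun r θ => fderiv ℝ v (X r θ) (er θ))
    (fun r θ => fderiv ℝ v (X r θ) (et θ))
    (fun r θ => ∫ u in (0 : ℝ)..1, fderiv ℝ v (X (r * u) θ) (er θ)) hwc hrc htc hV1 hdr hdt eV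
    (fun r => by
      have := hper r (-π)
      rw [show -π + 2 * π = π by ring] at this
      exact this)
    (fun θ => hsupp _ (by rw [norm_X, abs_of_pos hb]))
    (fun r hr => by
      have hp : Function.Periodic (fun θ => v (X r θ)) (2 * π) := hper r
      have := hp.intervalIntegral_add_eq (-π) 0
      rw [zero_add, show -π + 2 * π = π by ring] at this
      rw [this]
      exact hmean r hr)
    (by
      refine Eq.trans ?_ t3.symm
      refine intervalIntegral.integral_congr fun r _ => ?_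
      refine intervalIntegral.integral_congr fun θ _ => ?_
      simp only [hre]
      ring)
    (by
      refine Eq.trans ?_ t4.symm
      refine intervalIntegral.integral_congr fun r _ => ?_
      refine intervalIntegral.integral_congr fun θ _ => ?_
      simp only [him]
      ring)
  rw [t1, t2]
  refine key.trans (le_of_eq ?_)
  refine intervalIntegral.integral_congr fun r _ => ?_
  refine intervalIntegral.integral_congr fun θ _ => ?_
  show r * (fderiv ℝ v (X r θ) (er θ) ^ 2 + fderiv ℝ v (X r θ) (et θ) ^ 2) =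
    r * (fderiv ℝ v (X r θ) 1 ^ 2 + fderiv ℝ v (X r θ) Complex.I ^ 2)
  rw [lin_sq]

end Pool.Agent.TH298.Sch
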