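import Mathlib
import Pool.Agent.TH298.Sch.Key

/-!
The energy estimate, with the coercivity as a hypothesis.
-/

set_option autoImplicit false

namespace Pool.Agent.TH298.Sch

open MeasureTheory Set Real Filter Topology
open scoped ContDiff

/-- the energy estimate -/
theorem key2 {b μ lam c C0 : ℝ} (hb : 0 < b) (hlam : 0 < lam) (hμ : lam < μ) (hC0 : 0 ≤ C0) :
    ∃ K, 0 ≤ K ∧ ∀ (F χ : ℂ → ℝ) (N : Set ℂ), SC F → Continuous χ →
      (∀ x, 0 ≤ χ x ∧ χ x ≤ 1) → MeasurableSet N → volume N ≠ ⊤ →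
      √((volume N).toReal) * (lam * |c| * b ^ 2) ≤ 1 → √((volume N).toReal) ≤ 1 →
      (∀ x, x ∉ N → χ x = 1 ∨ F =ᶠ[𝓝 x] 0) → (∀ x, b ≤ ‖x‖ → F =ᶠ[𝓝 x] 0) →
      μ * ∫ x, Lr F x ^ 2 ≤ ∫ x, gr (Lr F) (Lr F) x → ∫ x, F x ^ 2 ≤ C0 →
      (∀ φ, SC φ → ∫ x, gr F φ x = lam * (∫ x, F x * φ x) + lam * c * ∫ x, χ x * φ x) →
      ∫ x, Lr F x ^ 2 ≤ K * √((volume N).toReal) ∧
      ∫ x, gr (Lr F) (Lr F) x ≤ K * √((volume N).toReal) := by
  set A := (volume (Metric.closedBall (0 : ℂ) b)).toReal with hA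
  have hA0 : 0 ≤ A := ENNReal.toReal_nonneg
  obtain ⟨C1, hC1⟩ : ∃ C1, C1 = lam * C0 + lam * |c| * ((A + C0) / 2) := ⟨_, rfl⟩
  obtain ⟨C2, hC2⟩ : ∃ C2, C2 = 2 * lam * (b ^ 2 * C1) + lam * |c| := ⟨_, rfl⟩
  obtain ⟨K3, hK3⟩ : ∃ K3, K3 = lam * |c| / 2 * (b ^ 2 * C2 + 1) := ⟨_, rfl⟩
  have hC10 : 0 ≤ C1 := by rw [hC1]; positivity
  have hC20 : 0 ≤ C2 := by rw [hC2]; positivity
  have hK30 : 0 ≤ K3 := by rw [hK3]; positivity
  have hμl : 0 < μ - lam := by linarith
  refine ⟨lam * (K3 / (μ - lam)) + K3 + K3 / (μ - lam), by positivity, ?_⟩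
  intro F χ N hF hχ hχ01 hN hNt hs1 hs2 hcov hsup hcoer hL2 hW
  obtain ⟨s, hs⟩ : ∃ s, s = √((volume N).toReal) := ⟨_, rfl⟩
  rw [← hs] at hs1 hs2 ⊢
  have hs0 : 0 ≤ s := by rw [hs]; exact Real.sqrt_nonneg _
  have hss : s * s = (volume N).toReal := by
    rw [hs]; exact Real.mul_self_sqrt ENNReal.toReal_nonneg
  have hv : SC (Lr F) := Lr_sc hF
  have hw : SC (Lr (Lr F)) := Lr_sc hv
  -- the first energy
  have hχF : |∫ x, χ x * F x| ≤ (A + C0) / 2 := by
    have iF2 : Integrable (fun x => F x ^ 2) := by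
      have := (hF.mul hF).int
      simpa only [sq] using this
    have iI : Integrable (fun x => (Metric.closedBall (0 : ℂ) b).indicator (fun _ => (1 : ℝ)) x) :=
      (integrable_indicator_iff measurableSet_closedBall).2
        (integrableOn_const (by exact measure_closedBall_lt_top.ne))
    have h1 : ∫ x, ‖χ x * F x‖ ≤
        ∫ x, (1 / 2) * ((Metric.closedBall (0 : ℂ) b).indicator (fun _ => (1 : ℝ)) x + F x ^ 2) := by
      refine integral_mono ?_ ((iI.add iF2).const_mul _) fun x => ?_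
      · exact (Continuous.integrable_of_hasCompactSupport (hχ.mul hF.cont) hF.cs.mul_left).norm
      · rw [norm_mul, Real.norm_eq_abs, Real.norm_eq_abs, abs_of_nonneg (hχ01 x).1]
        rcases le_or_gt b ‖x‖ with h | h
        · have h1 := (hsup x h).self_of_nhds
          rw [h1]
          simp only [Pi.zero_apply, abs_zero, mul_zero]
          have : 0 ≤ (Metric.closedBall (0 : ℂ) b).indicator (fun _ => (1 : ℝ)) x :=
            indicator_nonneg (fun _ _ => zero_le_one) x
          positivity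
        · have : x ∈ Metric.closedBall (0 : ℂ) b := by
            rw [mem_closedBall_zero_iff]; exact h.le
          rw [indicator_of_mem this]
          have k1 := (hχ01 x).1
          have k2 := (hχ01 x).2
          have k3 := abs_nonneg (F x)
          have k4 := sq_abs (F x)
          nlinarith [sq_nonneg (|F x| - 1), mul_le_mul_of_nonneg_right k2 k3]
    have h2 : ∫ x, (1 / 2) *
        ((Metric.closedBall (0 : ℂ) b).indicator (fun _ => (1 : ℝ)) x + F x ^ 2) =
        (1 / 2) * (A + ∫ x, F x ^ 2) := by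
      rw [integral_const_mul, integral_add iI iF2, integral_indicator measurableSet_closedBall,
        setIntegral_const, smul_eq_mul, mul_one, measureReal_def]
    calc |∫ x, χ x * F x| = ‖∫ x, χ x * F x‖ := rfl
      _ ≤ ∫ x, ‖χ x * F x‖ := norm_integral_le_integral_norm _
      _ ≤ (1 / 2) * (A + ∫ x, F x ^ 2) := h1.trans h2.le
      _ ≤ (A + C0) / 2 := by linarith
  have hP : ∫ x, gr F F x ≤ C1 := by
    rw [hW F hF, hC1]
    have h1 : ∫ x, F x * F x ≤ C0 := by simpa only [sq] using hL2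
    have h2 : c * ∫ x, χ x * F x ≤ |c| * ((A + C0) / 2) := by
      refine (le_abs_self _).trans ?_
      rw [abs_mul]
      exact mul_le_mul_of_nonneg_left hχF (abs_nonneg _)
    nlinarith
  have hV : ∫ x, Lr F x ^ 2 ≤ b ^ 2 * C1 :=
    (Lr_le hF hsup).trans (mul_le_mul_of_nonneg_left hP (sq_nonneg _))
  have hX : ∫ x, Lr (Lr F) x ^ 2 ≤ b ^ 2 * ∫ x, gr (Lr F) (Lr F) x :=
    Lr_le hv (fun x hx => Lr_ev (hsup x hx))
  -- the energy identity
  have hD : ∫ x, gr (Lr F) (Lr F) x = lam * (∫ x, Lr F x ^ 2) +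
      lam * c * ∫ x, (1 - χ x) * Lr (Lr F) x := by
    have h1 := hW _ hw
    rw [gr_anti hF hv, anti hF hv] at h1
    have h2 : ∫ x, (1 - χ x) * Lr (Lr F) x = -∫ x, χ x * Lr (Lr F) x := by
      have e : (fun x => (1 - χ x) * Lr (Lr F) x) =
          fun x => Lr (Lr F) x - χ x * Lr (Lr F) x := by
        funext x; ring
      have iχ : Integrable (fun x => χ x * Lr (Lr F) x) :=
        Continuous.integrable_of_hasCompactSupport (hχ.mul hw.cont) hw.cs.mul_left
      rw [e, integral_sub hw.int iχ, int_Lr hv, zero_sub]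
    rw [h2]
    simp only [sq]
    linarith
  have hE : |∫ x, (1 - χ x) * Lr (Lr F) x| ≤ s / 2 * ((∫ x, Lr (Lr F) x ^ 2) + 1) := by
    have hoff : ∀ x, x ∉ N → (1 - χ x) * Lr (Lr F) x = 0 := by
      intro x hx
      rcases hcov x hx with h | h
      · rw [h]; ring
      · have := (Lr_ev (Lr_ev h)).self_of_nhds
        rw [this]
        simp
    have iw2 : Integrable (fun x => Lr (Lr F) x ^ 2) := by
      have := (hw.mul hw).int
      simpa only [sq] using this
    rcases eq_or_lt_of_le hs0 with h0 | h0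
    · have hν : volume N = 0 := by
        rw [← h0, mul_zero] at hss
        exact ((ENNReal.toReal_eq_zero_iff _).1 hss.symm).resolve_right hNt
      have : ∫ x, (1 - χ x) * Lr (Lr F) x = 0 := by
        refine integral_eq_zero_of_ae ?_
        have hae : ∀ᵐ x : ℂ, x ∉ N := by
          rw [ae_iff]
          simpa using hν
        filter_upwards [hae] with x hx
        exact hoff x hx
      rw [this, ← h0]
      simp
    · have iI : Integrable (fun x => N.indicator (fun _ => 1 / (2 * s)) x) :=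
        (integrable_indicator_iff hN).2 (integrableOn_const hNt)
      have h1 : ∫ x, ‖(1 - χ x) * Lr (Lr F) x‖ ≤
          ∫ x, (s / 2 * Lr (Lr F) x ^ 2 + N.indicator (fun _ => 1 / (2 * s)) x) := by
        refine integral_mono ?_ ((iw2.const_mul _).add iI) fun x => ?_
        · exact (Continuous.integrable_of_hasCompactSupport ((continuous_const.sub hχ).mul hw.cont)
            hw.cs.mul_left).norm
        · by_cases hx : x ∈ N
          · rw [indicator_of_mem hx, norm_mul, Real.norm_eq_abs, Real.norm_eq_abs,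
              abs_of_nonneg (by linarith [(hχ01 x).2])]
            have k1 := (hχ01 x).1
            have k3 := abs_nonneg (Lr (Lr F) x)
            have k5 : (1 - χ x) * |Lr (Lr F) x| ≤ |Lr (Lr F) x| := by nlinarith
            refine k5.trans ?_
            rw [← sq_abs (Lr (Lr F) x)]
            have k6 : s / 2 * |Lr (Lr F) x| ^ 2 + 1 / (2 * s) - |Lr (Lr F) x| =
                (s * |Lr (Lr F) x| - 1) ^ 2 / (2 * s) := by
              field_simp
              ring
            have k7 : 0 ≤ (s * |Lr (Lr F) x| - 1) ^ 2 / (2 * s) := by positivity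
            linarith
          · rw [hoff x hx, indicator_of_notMem hx, norm_zero]
            positivity
      have h2 : ∫ x, (s / 2 * Lr (Lr F) x ^ 2 + N.indicator (fun _ => 1 / (2 * s)) x) =
          s / 2 * ((∫ x, Lr (Lr F) x ^ 2) + 1) := by
        rw [integral_add (iw2.const_mul _) iI, integral_const_mul, integral_indicator hN,
          setIntegral_const, smul_eq_mul, measureReal_def, ← hss]
        field_simp
      exact (norm_integral_le_integral_norm _).trans (h1.trans h2.le)
  set V := ∫ x, Lr F x ^ 2 with hVd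
  set D := ∫ x, gr (Lr F) (Lr F) x with hDd
  have hV0 : 0 ≤ V := integral_nonneg fun x => sq_nonneg _
  have hD0 : 0 ≤ D := integral_nonneg fun x => gr_self_nonneg _ x
  have hD1 : D ≤ lam * V + lam * |c| * (s / 2 * (b ^ 2 * D + 1)) := by
    rw [hD]
    have h1 : c * ∫ x, (1 - χ x) * Lr (Lr F) x ≤ |c| * (s / 2 * (b ^ 2 * D + 1)) := by
      refine (le_abs_self _).trans ?_
      rw [abs_mul]
      refine mul_le_mul_of_nonneg_left (hE.trans ?_) (abs_nonneg _)
      exact mul_le_mul_of_nonneg_left (by linarith) (by linarith)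
    rw [← hD]
    nlinarith
  have hD2 : D ≤ C2 := by
    have h1 : s * (lam * |c| * b ^ 2) * D ≤ 1 * D := mul_le_mul_of_nonneg_right hs1 hD0
    have h2 : s * (lam * |c|) ≤ 1 * (lam * |c|) :=
      mul_le_mul_of_nonneg_right hs2 (by positivity)
    have h3 : lam * V ≤ lam * (b ^ 2 * C1) := mul_le_mul_of_nonneg_left hV hlam.le
    rw [hC2]
    nlinarith
  have hD3 : D ≤ lam * V + K3 * s := by
    rw [hK3]
    have h1 : s * (lam * |c|) / 2 * (b ^ 2 * D + 1) ≤ s * (lam * |c|) / 2 * (b ^ 2 * C2 + 1) := by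
      apply mul_le_mul_of_nonneg_left _ (by positivity)
      nlinarith [sq_nonneg b]
    nlinarith
  have hV1 : V ≤ K3 / (μ - lam) * s := by
    rw [div_mul_eq_mul_div, le_div_iff₀ hμl]
    nlinarith
  have hV2 : lam * V ≤ lam * (K3 / (μ - lam) * s) := mul_le_mul_of_nonneg_left hV1 hlam.le
  have p1 : 0 ≤ lam * (K3 / (μ - lam)) * s := by positivity
  have p2 : 0 ≤ K3 * s := by positivity
  have p3 : 0 ≤ K3 / (μ - lam) * s := by positivity
  constructor
  · nlinarith
  · nlinarith

end Pool.Agent.TH298.Sch
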