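import Mathlib
import Pool.Agent.TH298.Sch.Rot1

/-!
Mollification of a weak solution.
-/

set_option autoImplicit false

namespace Pool.Agent.TH298.Sch

open MeasureTheory Set Real Filter Topology
open scoped ContDiff Convolution

/-- radial mollifiers -/
structure Mol (ε : ℝ) (ρ : ℂ → ℝ) : Prop where
  sc : SC ρ
  nn : ∀ x, 0 ≤ ρ x
  out : ∀ x, ε ≤ ‖x‖ → ρ x = 0
  rad : ∀ ζ x : ℂ, ‖ζ‖ = 1 → ρ (ζ * x) = ρ x
  one : ∫ x, ρ x = 1

theorem exists_mol {ε : ℝ} (hε : 0 < ε) : ∃ ρ, Mol ε ρ := by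
  set β : ℂ → ℝ := fun x => Real.smoothTransition (1 - ‖x‖ ^ 2 / ε ^ 2) with hβ
  have hsm : ContDiff ℝ ∞ β := by
    have h1 : ContDiff ℝ ∞ (fun x : ℂ => 1 - ‖x‖ ^ 2 / ε ^ 2) :=
      contDiff_const.sub ((contDiff_norm_sq ℝ).div_const _)
    exact Real.smoothTransition.contDiff.comp h1
  have hout : ∀ x, ε ≤ ‖x‖ → β x = 0 := by
    intro x hx
    rw [hβ]
    apply Real.smoothTransition.zero_of_nonpos
    rw [sub_nonpos, one_le_div (by positivity)]
    exact pow_le_pow_left₀ hε.le hx 2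
  have hcs : HasCompactSupport β := by
    refine HasCompactSupport.intro (isCompact_closedBall (0 : ℂ) ε) fun x hx => ?_
    rw [mem_closedBall_zero_iff, not_le] at hx
    exact hout x hx.le
  have hnn : ∀ x, 0 ≤ β x := fun x => Real.smoothTransition.nonneg _
  have hpos : 0 < ∫ x, β x := by
    refine hsm.continuous.integral_pos_of_hasCompactSupport_nonneg_nonzero hcs hnn (x := 0) ?_
    rw [hβ]
    simp
  refine ⟨fun x => β x / ∫ y, β y, ⟨⟨hsm.div_const _, ?_⟩, ?_, ?_, ?_, ?_⟩⟩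
  · exact hcs.mul_right (f' := fun _ => (∫ y, β y)⁻¹)
  · exact fun x => div_nonneg (hnn x) hpos.le
  · intro x hx
    rw [hout x hx, zero_div]
  · intro ζ x hζ
    simp only [hβ, norm_mul, hζ, one_mul]
  · rw [integral_div, div_self hpos.ne']

/-- the mollification -/
noncomputable def Mo (ρ f : ℂ → ℝ) (x : ℂ) : ℝ := ∫ y, f y * ρ (x - y)

theorem Mo_eq (ρ f : ℂ → ℝ) : Mo ρ f = f ⋆[ContinuousLinearMap.mul ℝ ℝ, volume] ρ := rfl

variable {ε : ℝ} {ρ f : ℂ → ℝ}

theorem Mol.even (h : Mol ε ρ) (x : ℂ) : ρ (-x) = ρ x := by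
  have := h.rad (-1) x (by simp)
  rwa [neg_one_mul] at this

theorem Mo_sc (h : Mol ε ρ) (hf : Integrable f) (hfc : HasCompactSupport f) : SC (Mo ρ f) := by
  rw [Mo_eq]
  exact ⟨h.sc.cs.contDiff_convolution_right _ hf.locallyIntegrable h.sc.sm,
    HasCompactSupport.convolution _ hfc h.sc.cs⟩

theorem dd_Mo (h : Mol ε ρ) (hf : Integrable f) (v x : ℂ) :
    dd v (Mo ρ f) x = ∫ y, f y * dd v ρ (x - y) := by
  have h1 := h.sc.cs.hasFDerivAt_convolution_right (ContinuousLinearMap.mul ℝ ℝ)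
    hf.locallyIntegrable (h.sc.sm.of_le (by simp)) x
  unfold dd
  rw [Mo_eq, h1.fderiv, convolution_precompR_apply (ContinuousLinearMap.mul ℝ ℝ)
    hf.locallyIntegrable (h.sc.cs.fderiv ℝ) (h.sc.sm.continuous_fderiv (by simp)) x v]
  rfl

/-- the translated reflected function -/
theorem refl_sc {ρ : ℂ → ℝ} (h : SC ρ) (x : ℂ) : SC (fun y => ρ (x - y)) := by
  constructor
  · exact h.sm.comp (contDiff_const.sub contDiff_id)
  · have : (fun y => ρ (x - y)) = ρ ∘ (Homeomorph.subLeft x) := rfl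
    rw [this]
    exact h.cs.comp_homeomorph _

theorem dd_refl {ρ : ℂ → ℝ} (h : SC ρ) (x v y : ℂ) :
    fderiv ℝ (fun y => ρ (x - y)) y v = -dd v ρ (x - y) := by
  have h1 : HasFDerivAt (fun y : ℂ => x - y) (-(ContinuousLinearMap.id ℝ ℂ)) y := by
    have := (hasFDerivAt_id (𝕜 := ℝ) y).const_sub x
    exact this
  have h2 : HasFDerivAt (fun y => ρ (x - y))
      ((fderiv ℝ ρ (x - y)).comp (-(ContinuousLinearMap.id ℝ ℂ))) y :=
    (h.diff (x - y)).hasFDerivAt.comp y h1
  rw [h2.fderiv]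
  unfold dd
  simp

theorem dd_Mo_sm {φ : ℂ → ℝ} (h : Mol ε ρ) (hφ : SC φ) (v y : ℂ) :
    dd v (Mo ρ φ) y = Mo ρ (dd v φ) y := by
  rw [dd_Mo h hφ.int]
  unfold Mo
  have hr := refl_sc h.sc y
  have hrd : SC (fun x => fderiv ℝ (fun x => ρ (y - x)) x v) := dd_sc hr v
  have := integral_mul_fderiv_eq_neg_fderiv_mul_of_integrable (f := φ) (g := fun x => ρ (y - x))
    (v := v) (μ := volume) ((dd_sc hφ v).mul hr).int (hφ.mul hrd).int (hφ.mul hr).int
    (fun x _ => hφ.diff x) (fun x _ => hr.diff x)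
  simp only [dd_refl h.sc] at this
  have e : ∫ x, φ x * -dd v ρ (y - x) = -∫ x, φ x * dd v ρ (y - x) := by
    rw [← integral_neg]
    refine integral_congr_ae (Eventually.of_forall fun x => ?_)
    simp only [mul_neg]
  rw [e] at this
  have h3 := neg_injective this
  exact h3

theorem Mo_int (h : Mol ε ρ) (hf : Integrable f) : Integrable (Mo ρ f) :=
  hf.integrable_convolution (ContinuousLinearMap.mul ℝ ℝ) h.sc.int

theorem Fub {φ : ℂ → ℝ} (h : Mol ε ρ) (hf : Integrable f) (hφ : SC φ) :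
    ∫ x, φ x * Mo ρ f x = ∫ y, f y * Mo ρ φ y := by
  have hint : Integrable (fun p : ℂ × ℂ => f p.2 * ρ (p.1 - p.2)) (volume.prod volume) :=
    hf.convolution_integrand (ContinuousLinearMap.mul ℝ ℝ) h.sc.int
  obtain ⟨C, hC⟩ := hφ.cs.exists_bound_of_continuous hφ.cont
  have hint2 : Integrable (fun p : ℂ × ℂ => φ p.1 * (f p.2 * ρ (p.1 - p.2)))
      (volume.prod volume) := by
    refine hint.bdd_mul (c := C) ?_ ?_
    · exact (hφ.cont.comp continuous_fst).aestronglyMeasurable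
    · exact Eventually.of_forall fun p => hC p.1
  have e1 : ∫ x, φ x * Mo ρ f x = ∫ x, ∫ y, φ x * (f y * ρ (x - y)) := by
    refine integral_congr_ae (Eventually.of_forall fun x => ?_)
    simp only []
    rw [integral_const_mul]
    rfl
  rw [e1, integral_integral_swap hint2]
  refine integral_congr_ae (Eventually.of_forall fun y => ?_)
  simp only []
  unfold Mo
  rw [← integral_const_mul]
  refine integral_congr_ae (Eventually.of_forall fun x => ?_)
  simp only []
  have : ρ (x - y) = ρ (y - x) := by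
    rw [← h.even, neg_sub]
  rw [this]
  ring

theorem int_Mo (h : Mol ε ρ) (hf : Integrable f) : ∫ x, Mo ρ f x = ∫ x, f x := by
  rw [Mo_eq, integral_convolution (ContinuousLinearMap.mul ℝ ℝ) hf h.sc.int, h.one]
  simp

theorem refl_int (h : Mol ε ρ) (x : ℂ) : ∫ y, ρ (x - y) = 1 := by
  rw [integral_sub_left_eq_self (fun y => ρ y) volume x, h.one]

/-- Jensen's inequality -/
theorem Mo_sq (h : Mol ε ρ) (hf : Integrable f) (hf2 : Integrable (fun x => f x ^ 2)) (x : ℂ) :
    Mo ρ f x ^ 2 ≤ Mo ρ (fun y => f y ^ 2) x := by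
  obtain ⟨C, hC⟩ := h.sc.cs.exists_bound_of_continuous h.sc.cont
  have hr := refl_sc h.sc x
  have i1 : Integrable (fun y => f y * ρ (x - y)) := by
    refine hf.mul_bdd (c := C) hr.cont.aestronglyMeasurable (Eventually.of_forall fun y => hC _)
  have i2 : Integrable (fun y => f y ^ 2 * ρ (x - y)) := by
    refine hf2.mul_bdd (c := C) hr.cont.aestronglyMeasurable (Eventually.of_forall fun y => hC _)
  set m := Mo ρ f x with hm
  have h1 : 0 ≤ ∫ y, (f y - m) ^ 2 * ρ (x - y) :=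
    integral_nonneg fun y => mul_nonneg (sq_nonneg _) (h.nn _)
  have e : (fun y => (f y - m) ^ 2 * ρ (x - y)) = fun y =>
      (f y ^ 2 * ρ (x - y) - 2 * m * (f y * ρ (x - y))) + m ^ 2 * ρ (x - y) := by
    funext y; ring
  have i3 : Integrable (fun y => 2 * m * (f y * ρ (x - y))) := i1.const_mul _
  have i4 : Integrable (fun y => f y ^ 2 * ρ (x - y) - 2 * m * (f y * ρ (x - y))) := i2.sub i3
  have i5 : Integrable (fun y => m ^ 2 * ρ (x - y)) := hr.int.const_mul _
  rw [e, integral_add i4 i5, integral_sub i2 i3, integral_const_mul, integral_const_mul,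
    refl_int h] at h1
  have e2 : ∫ y, f y * ρ (x - y) = m := rfl
  have e3 : ∫ y, f y ^ 2 * ρ (x - y) = Mo ρ (fun y => f y ^ 2) x := rfl
  rw [e2, e3] at h1
  nlinarith

theorem int_Mo_sq (h : Mol ε ρ) (hf : Integrable f) (hfc : HasCompactSupport f)
    (hf2 : Integrable (fun x => f x ^ 2)) : ∫ x, Mo ρ f x ^ 2 ≤ ∫ x, f x ^ 2 := by
  rw [← int_Mo h hf2]
  refine integral_mono ?_ (Mo_int h hf2) (fun x => Mo_sq h hf hf2 x)
  have := ((Mo_sc h hf hfc).mul (Mo_sc h hf hfc)).int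
  simpa only [sq] using this

theorem Mo_rot (h : Mol ε ρ) {ζ : ℂ} (hζ : ‖ζ‖ = 1) (hf : ∀ x, f (ζ * x) = f x) (x : ℂ) :
    Mo ρ f (ζ * x) = Mo ρ f x := by
  unfold Mo
  let c : Circle := ⟨ζ, by simpa [Submonoid.unitSphere] using hζ⟩
  have hmp := (rotation c).measurePreserving
  have h1 := hmp.integral_comp (rotation c).toHomeomorph.measurableEmbedding
    (fun y => f y * ρ (ζ * x - y))
  rw [← h1]
  refine integral_congr_ae (Eventually.of_forall fun y => ?_)
  have h2 : rotation c y = ζ * y := rfl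
  simp only [h2, hf]
  rw [← mul_sub, h.rad ζ _ hζ]

/-- weak solutions of the overdetermined problem -/
structure Sol (Ω : Set ℂ) (lam c : ℝ) (u : ℂ → ℝ) (G : ℂ → ℂ) : Prop where
  u2 : MemLp u 2 (volume.restrict Ω)
  G2 : MemLp G 2 (volume.restrict Ω)
  h1 : ∀ φ : ℂ → ℝ, ContDiff ℝ 1 φ → HasCompactSupport φ → ∀ v : ℂ,
    ∫ x in Ω, (u x - c) * (fderiv ℝ φ x v) = - ∫ x in Ω, inner ℝ (G x) v * φ x
  h2 : ∀ φ : ℂ → ℝ, ContDiff ℝ 1 φ → HasCompactSupport φ →
    ∫ x in Ω, fderiv ℝ φ x (G x) = lam * ∫ x in Ω, u x * φ x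

section sol

variable {Ω : Set ℂ} {lam c : ℝ} {u : ℂ → ℝ} {G : ℂ → ℂ}

/-- the extension by zero -/
noncomputable def ext (Ω : Set ℂ) (g : ℂ → ℝ) : ℂ → ℝ := Ω.indicator g

theorem ext_int (hm : MeasurableSet Ω) {g : ℂ → ℝ} (hg : IntegrableOn g Ω) :
    Integrable (ext Ω g) := (integrable_indicator_iff hm).2 hg

theorem ext_cs (hb : Bornology.IsBounded Ω) (g : ℂ → ℝ) : HasCompactSupport (ext Ω g) := by
  refine HasCompactSupport.intro (hb.isCompact_closure) fun x hx => ?_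
  exact indicator_of_notMem (fun h => hx (subset_closure h)) g

theorem ext_mul (hm : MeasurableSet Ω) (g h : ℂ → ℝ) :
    ∫ x, ext Ω g x * h x = ∫ x in Ω, g x * h x := by
  rw [← integral_indicator hm]
  refine integral_congr_ae (Eventually.of_forall fun x => ?_)
  simp only [ext]
  by_cases hx : x ∈ Ω
  · rw [indicator_of_mem hx, indicator_of_mem hx]
  · rw [indicator_of_notMem hx, indicator_of_notMem hx, zero_mul]

theorem Sol.fin (hb : Bornology.IsBounded Ω) : IsFiniteMeasure (volume.restrict Ω) := ⟨by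
    rw [Measure.restrict_apply_univ]; exact hb.measure_lt_top⟩

theorem Sol.ui (h : Sol Ω lam c u G) (hb : Bornology.IsBounded Ω) : IntegrableOn u Ω := by
  have := Sol.fin hb
  exact h.u2.integrable (by norm_num)

theorem Sol.Gi (h : Sol Ω lam c u G) (hb : Bornology.IsBounded Ω) : IntegrableOn G Ω := by
  have := Sol.fin hb
  exact h.G2.integrable (by norm_num)

theorem ci (hb : Bornology.IsBounded Ω) (c : ℝ) : IntegrableOn (fun _ : ℂ => c) Ω :=
  integrableOn_const hb.measure_lt_top.ne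

/-- the gradient of the mollification -/
theorem Sol.grad (h : Sol Ω lam c u G) (hb : Bornology.IsBounded Ω) (hm : MeasurableSet Ω)
    (hρ : Mol ε ρ) (v x : ℂ) :
    dd v (Mo ρ (ext Ω (fun y => u y - c))) x = Mo ρ (ext Ω (fun y => inner ℝ (G y) v)) x := by
  have hr := refl_sc hρ.sc x
  have hi : Integrable (ext Ω (fun y => u y - c)) := ext_int hm ((h.ui hb).sub (ci hb c))
  rw [dd_Mo hρ hi]
  unfold Mo
  rw [ext_mul hm, ext_mul hm]
  have := h.h1 (fun y => ρ (x - y)) (hr.sm.of_le (by simp)) hr.cs v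
  simp only [dd_refl hρ.sc] at this
  have e : ∫ y in Ω, (u y - c) * -dd v ρ (x - y) = -∫ y in Ω, (u y - c) * dd v ρ (x - y) := by
    rw [← integral_neg]
    refine integral_congr_ae (Eventually.of_forall fun x => ?_)
    simp only [mul_neg]
  rw [e] at this
  exact neg_injective this

/-- the weak equation for the mollification -/
theorem Sol.weak (h : Sol Ω lam c u G) (hb : Bornology.IsBounded Ω) (hm : MeasurableSet Ω)
    (hρ : Mol ε ρ) {φ : ℂ → ℝ} (hφ : SC φ) :
    ∫ x, gr (Mo ρ (ext Ω (fun y => u y - c))) φ x =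
      lam * (∫ x, Mo ρ (ext Ω (fun y => u y - c)) x * φ x) +
        lam * c * ∫ x, Mo ρ (ext Ω (fun _ => 1)) x * φ x := by
  have hui := h.ui hb
  have hGi := h.Gi hb
  have hre : IntegrableOn (fun y => (G y).re) Ω := hGi.re
  have him : IntegrableOn (fun y => (G y).im) Ω := hGi.im
  have hin1 : ∀ y, inner ℝ (G y) (1 : ℂ) = (G y).re := fun y => by
    rw [Complex.inner]; simp
  have hinI : ∀ y, inner ℝ (G y) Complex.I = (G y).im := fun y => by
    rw [Complex.inner]; simp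
  have hMφ : SC (Mo ρ φ) := Mo_sc hρ hφ.int hφ.cs
  have hf : Integrable (ext Ω (fun y => u y - c)) := ext_int hm (hui.sub (ci hb c))
  have h1i : Integrable (ext Ω (fun _ => (1 : ℝ))) := ext_int hm (ci hb 1)
  have hg1 : Integrable (ext Ω (fun y => (G y).re)) := ext_int hm hre
  have hg2 : Integrable (ext Ω (fun y => (G y).im)) := ext_int hm him
  -- left side
  have L : ∫ x, gr (Mo ρ (ext Ω (fun y => u y - c))) φ x =
      ∫ y in Ω, fderiv ℝ (Mo ρ φ) y (G y) := by
    have e1 : (fun x => gr (Mo ρ (ext Ω (fun y => u y - c))) φ x) = fun x =>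
        dd 1 φ x * Mo ρ (ext Ω (fun y => (G y).re)) x +
        dd Complex.I φ x * Mo ρ (ext Ω (fun y => (G y).im)) x := by
      funext x
      unfold gr
      rw [h.grad hb hm hρ, h.grad hb hm hρ]
      simp only [hin1, hinI]
      ring
    have j1 : Integrable (fun x => dd 1 φ x * Mo ρ (ext Ω (fun y => (G y).re)) x) :=
      ((dd_sc hφ 1).mul (Mo_sc hρ hg1 (ext_cs hb _))).int
    have j2 : Integrable (fun x => dd Complex.I φ x * Mo ρ (ext Ω (fun y => (G y).im)) x) :=
      ((dd_sc hφ Complex.I).mul (Mo_sc hρ hg2 (ext_cs hb _))).int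
    rw [e1, integral_add j1 j2, Fub hρ hg1 (dd_sc hφ 1), Fub hρ hg2 (dd_sc hφ Complex.I),
      ext_mul hm, ext_mul hm]
    obtain ⟨C1, hC1⟩ := (dd_sc hMφ 1).cs.exists_bound_of_continuous (dd_sc hMφ 1).cont
    obtain ⟨C2, hC2⟩ :=
      (dd_sc hMφ Complex.I).cs.exists_bound_of_continuous (dd_sc hMφ Complex.I).cont
    have k1 : IntegrableOn (fun y => (G y).re * Mo ρ (dd 1 φ) y) Ω := by
      refine Integrable.mul_bdd (c := C1) hre ?_ (Eventually.of_forall fun y => ?_)
      · exact (Mo_sc hρ (dd_sc hφ 1).int (dd_sc hφ 1).cs).cont.aestronglyMeasurable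
      · rw [← dd_Mo_sm hρ hφ]
        exact hC1 y
    have k2 : IntegrableOn (fun y => (G y).im * Mo ρ (dd Complex.I φ) y) Ω := by
      refine Integrable.mul_bdd (c := C2) him ?_ (Eventually.of_forall fun y => ?_)
      · exact (Mo_sc hρ (dd_sc hφ Complex.I).int
          (dd_sc hφ Complex.I).cs).cont.aestronglyMeasurable
      · rw [← dd_Mo_sm hρ hφ]
        exact hC2 y
    rw [← integral_add k1 k2]
    refine integral_congr_ae (Eventually.of_forall fun y => ?_)
    simp only []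
    rw [← dd_Mo_sm hρ hφ, ← dd_Mo_sm hρ hφ, lin_val (fderiv ℝ (Mo ρ φ) y) (G y)]
    rfl
  rw [L, h.h2 (Mo ρ φ) (hMφ.sm.of_le (by simp)) hMφ.cs]
  have R1 : ∫ x, Mo ρ (ext Ω (fun y => u y - c)) x * φ x = ∫ y in Ω, (u y - c) * Mo ρ φ y := by
    rw [← ext_mul hm, ← Fub hρ hf hφ]
    refine integral_congr_ae (Eventually.of_forall fun y => ?_)
    simp only [mul_comm]
  have R2 : ∫ x, Mo ρ (ext Ω (fun _ => 1)) x * φ x = ∫ y in Ω, 1 * Mo ρ φ y := by
    rw [← ext_mul hm (fun _ => 1), ← Fub hρ h1i hφ]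
    refine integral_congr_ae (Eventually.of_forall fun y => ?_)
    simp only [mul_comm]
  rw [R1, R2]
  obtain ⟨C, hC⟩ := hMφ.cs.exists_bound_of_continuous hMφ.cont
  have k1 : IntegrableOn (fun y => (u y - c) * Mo ρ φ y) Ω :=
    Integrable.mul_bdd (c := C) (hui.sub (ci hb c)) hMφ.cont.aestronglyMeasurable
      (Eventually.of_forall hC)
  have k2 : IntegrableOn (fun y => 1 * Mo ρ φ y) Ω :=
    Integrable.mul_bdd (c := C) (ci hb 1) hMφ.cont.aestronglyMeasurable
      (Eventually.of_forall hC)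
  have e : ∫ y in Ω, u y * Mo ρ φ y = (∫ y in Ω, (u y - c) * Mo ρ φ y) +
      c * ∫ y in Ω, 1 * Mo ρ φ y := by
    rw [← integral_const_mul, ← integral_add k1 (k2.const_mul c)]
    refine integral_congr_ae (Eventually.of_forall fun y => ?_)
    simp only []
    ring
  rw [e]
  ring

end sol

end Pool.Agent.TH298.Sch
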