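import Mathlib
import Pool.Agent.TH298.Sch.Key
import Pool.Agent.TH298.Sch.Moll

/-!
The limit of the mollifications.
-/

set_option autoImplicit false

namespace Pool.Agent.TH298.Sch

open MeasureTheory Set Real Filter Topology Metric
open scoped ContDiff

variable {Ω : Set ℂ} {ε : ℝ} {ρ : ℂ → ℝ}

theorem near_cases (hε : 0 ≤ ε) (ho : IsOpen Ω) {x : ℂ}
    (hx : x ∉ cthickening ε (frontier Ω)) :
    ∃ ε', ε < ε' ∧ ((x ∈ Ω ∧ ball x ε' ⊆ Ω) ∨ (x ∉ Ω ∧ ball x ε' ⊆ Ωᶜ)) := by
  rw [mem_cthickening_iff, not_le] at hx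
  obtain ⟨r, hr1, hr2⟩ := exists_between hx
  have hrt : r ≠ ⊤ := hr2.ne_top
  have hεr : ε < r.toReal := (ENNReal.ofReal_lt_iff_lt_toReal hε hrt).1 hr1
  refine ⟨r.toReal, hεr, ?_⟩
  have hdis : ∀ y ∈ ball x r.toReal, y ∉ frontier Ω := by
    intro y hy hyf
    have h1 : infEDist x (frontier Ω) ≤ edist x y := infEDist_le_edist_of_mem hyf
    have h2 : edist x y < r := by
      rw [mem_ball, dist_comm] at hy
      rw [edist_dist, ENNReal.ofReal_lt_iff_lt_toReal dist_nonneg hrt]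
      exact hy
    exact absurd (h1.trans_lt h2) (not_lt.2 hr2.le)
  have hsub : ball x r.toReal ⊆ Ω ∪ (closure Ω)ᶜ := by
    intro y hy
    by_contra hcon
    rw [mem_union, not_or, notMem_compl_iff] at hcon
    exact hdis y hy ((ho.frontier_eq) ▸ ⟨hcon.2, hcon.1⟩)
  have hpre : IsPreconnected (ball x r.toReal) := (convex_ball x r.toReal).isPreconnected
  have hxb : x ∈ ball x r.toReal := mem_ball_self (hε.trans_lt hεr)
  have hdj : Disjoint Ω (closure Ω)ᶜ :=
    disjoint_left.2 fun y h1 h2 => h2 (subset_closure h1)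
  by_cases hxo : x ∈ Ω
  · left
    exact ⟨hxo, hpre.subset_left_of_subset_union ho isClosed_closure.isOpen_compl hdj hsub
      ⟨x, hxb, hxo⟩⟩
  · right
    have hxc : x ∈ (closure Ω)ᶜ := (hsub hxb).resolve_left hxo
    refine ⟨hxo, ?_⟩
    have := hpre.subset_right_of_subset_union ho isClosed_closure.isOpen_compl hdj hsub
      ⟨x, hxb, hxc⟩
    exact this.trans (compl_subset_compl.2 subset_closure)

theorem Mo_ev {g : ℂ → ℝ} (h : Mol ε ρ) {x : ℂ} {ε' : ℝ} (hε' : ε < ε')
    (hx : ball x ε' ⊆ Ωᶜ) : Mo ρ (ext Ω g) =ᶠ[𝓝 x] 0 := by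
  have : ball x (ε' - ε) ∈ 𝓝 x := ball_mem_nhds x (by linarith)
  filter_upwards [this] with y hy
  simp only [Pi.zero_apply]
  unfold Mo
  have : ∀ t, ext Ω g t * ρ (y - t) = 0 := by
    intro t
    by_cases ht : t ∈ Ω
    · have h1 : t ∉ ball x ε' := fun h2 => hx h2 ht
      rw [mem_ball, not_lt, dist_comm] at h1
      rw [mem_ball, dist_comm] at hy
      have h2 : ε ≤ ‖y - t‖ := by
        rw [← dist_eq_norm]
        have := dist_triangle x y t
        linarith
      rw [h.out _ h2, mul_zero]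
    · rw [ext, indicator_of_notMem ht, zero_mul]
  simp only [this, integral_zero]

theorem chi_le (hm : MeasurableSet Ω) (hb : Bornology.IsBounded Ω) (h : Mol ε ρ) (x : ℂ) :
    0 ≤ Mo ρ (ext Ω (fun _ => 1)) x ∧ Mo ρ (ext Ω (fun _ => 1)) x ≤ 1 := by
  have h0 : ∀ y, 0 ≤ ext Ω (fun _ => (1 : ℝ)) y := fun y =>
    indicator_nonneg (fun _ _ => zero_le_one) y
  have h1 : ∀ y, ext Ω (fun _ => (1 : ℝ)) y ≤ 1 := by
    intro y
    by_cases hy : y ∈ Ω
    · rw [ext, indicator_of_mem hy]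
    · rw [ext, indicator_of_notMem hy]; exact zero_le_one
  obtain ⟨C, hC⟩ := h.sc.cs.exists_bound_of_continuous h.sc.cont
  have hr := refl_sc h.sc x
  constructor
  · exact integral_nonneg fun y => mul_nonneg (h0 y) (h.nn _)
  · refine le_trans ?_ (refl_int h x).le
    refine integral_mono ?_ hr.int fun y => ?_
    · exact (ext_int hm (ci hb 1)).mul_bdd (c := C) hr.cont.aestronglyMeasurable
        (Eventually.of_forall fun y => hC _)
    · exact mul_le_of_le_one_left (h.nn _) (h1 y)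

theorem chi_one (h : Mol ε ρ) {x : ℂ} {ε' : ℝ} (hε' : ε < ε') (hx : ball x ε' ⊆ Ω) :
    Mo ρ (ext Ω (fun _ => 1)) x = 1 := by
  refine Eq.trans ?_ (refl_int h x)
  unfold Mo
  refine integral_congr_ae (Eventually.of_forall fun y => ?_)
  simp only []
  by_cases hy : y ∈ Ω
  · rw [ext, indicator_of_mem hy, one_mul]
  · rw [ext, indicator_of_notMem hy, zero_mul]
    have h1 : y ∉ ball x ε' := fun h2 => hy (hx h2)
    rw [mem_ball, not_lt, dist_comm, dist_eq_norm] at h1
    rw [h.out _ (hε'.le.trans h1)]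

/-- Young's inequality for integrals -/
theorem young {f g : ℂ → ℝ} {a : ℝ} {A B : ℝ} (ha : 0 < a) (hfg : Integrable (fun x => f x * g x))
    (hf : Integrable (fun x => f x ^ 2)) (hg : Integrable (fun x => g x ^ 2))
    (hA : ∫ x, f x ^ 2 ≤ A) (hB : ∫ x, g x ^ 2 ≤ B) :
    |∫ x, f x * g x| ≤ A / (2 * a) + a / 2 * B := by
  have h1 : ∫ x, ‖f x * g x‖ ≤ ∫ x, (1 / (2 * a) * f x ^ 2 + a / 2 * g x ^ 2) := by
    refine integral_mono hfg.norm ((hf.const_mul _).add (hg.const_mul _)) fun x => ?_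
    simp only []
    rw [norm_mul, Real.norm_eq_abs, Real.norm_eq_abs, ← sq_abs (f x), ← sq_abs (g x)]
    have : 1 / (2 * a) * |f x| ^ 2 + a / 2 * |g x| ^ 2 - |f x| * |g x| =
        (|f x| - a * |g x|) ^ 2 / (2 * a) := by
      field_simp
      ring
    have h2 : 0 ≤ (|f x| - a * |g x|) ^ 2 / (2 * a) := by positivity
    linarith
  rw [integral_add (hf.const_mul _) (hg.const_mul _), integral_const_mul,
    integral_const_mul] at h1
  have h3 : 1 / (2 * a) * ∫ x, f x ^ 2 ≤ 1 / (2 * a) * A :=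
    mul_le_mul_of_nonneg_left hA (by positivity)
  have h4 : a / 2 * ∫ x, g x ^ 2 ≤ a / 2 * B := mul_le_mul_of_nonneg_left hB (by positivity)
  have h5 : ‖∫ x, f x * g x‖ ≤ ∫ x, ‖f x * g x‖ := norm_integral_le_integral_norm _
  rw [Real.norm_eq_abs] at h5
  calc |∫ x, f x * g x| ≤ ∫ x, ‖f x * g x‖ := h5
    _ ≤ 1 / (2 * a) * A + a / 2 * B := by linarith
    _ = A / (2 * a) + a / 2 * B := by ring

theorem SC.int_sq {φ : ℂ → ℝ} (h : SC φ) : Integrable (fun x => φ x ^ 2) := by
  have := (h.mul h).int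
  simpa only [sq] using this

/-- the main limit: integrals of rotation derivatives vanish -/
theorem rot_zero {n : ℕ} (hn : 0 < n) (ho : IsOpen Ω) (hfr : volume (frontier Ω) = 0)
    {R b μ lam c : ℝ} (hR : ∀ x ∈ Ω, ‖x‖ ≤ R) (hb : R < b) (hb0 : 0 < b) (hlam : 0 < lam)
    (hμ : lam < μ) {z z1 z2 : ℝ → ℝ} (hz : Comp n (μ * b ^ 2 / 4) z z1 z2) {u : ℂ → ℝ}
    {G : ℂ → ℂ} (h : Sol Ω lam c u G) (hc : c ≠ 0)
    (hΩ : ∀ x, Complex.exp ((2 * π / n : ℝ) * Complex.I) * x ∈ Ω ↔ x ∈ Ω)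
    (hu : ∀ x, u (Complex.exp ((2 * π / n : ℝ) * Complex.I) * x) = u x) {ψ : ℂ → ℝ}
    (hψ : SC ψ) : ∫ x in Ω, Lr ψ x = 0 := by
  have hbd : Bornology.IsBounded Ω := by
    refine (isBounded_closedBall (x := (0 : ℂ)) (r := R)).subset fun x hx => ?_
    rw [mem_closedBall_zero_iff]
    exact hR x hx
  have hm : MeasurableSet Ω := ho.measurableSet
  have hfin := Sol.fin hbd
  set f := ext Ω (fun y => u y - c) with hf
  have hfi : Integrable f := ext_int hm ((h.ui hbd).sub (ci hbd c))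
  have hfc : HasCompactSupport f := ext_cs hbd _
  have hf2 : Integrable (fun x => f x ^ 2) := by
    have h2 : MemLp (fun y => u y - c) 2 (volume.restrict Ω) := h.u2.sub (memLp_const c)
    have h3 : IntegrableOn (fun y => (u y - c) ^ 2) Ω := h2.integrable_sq
    have h4 := ext_int hm h3
    have e : ext Ω (fun y => (u y - c) ^ 2) = fun x => f x ^ 2 := by
      funext x
      rw [hf]
      unfold ext
      by_cases hx : x ∈ Ω
      · rw [indicator_of_mem hx, indicator_of_mem hx]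
      · rw [indicator_of_notMem hx, indicator_of_notMem hx]; ring
    rwa [e] at h4
  have hfr' : ∀ x, f (Complex.exp ((2 * π / n : ℝ) * Complex.I) * x) = f x := by
    intro x
    rw [hf]
    unfold ext
    by_cases hx : x ∈ Ω
    · rw [indicator_of_mem hx, indicator_of_mem ((hΩ x).2 hx), hu]
    · rw [indicator_of_notMem hx, indicator_of_notMem (fun h => hx ((hΩ x).1 h))]
  have hζ : ‖Complex.exp ((2 * π / n : ℝ) * Complex.I)‖ = 1 := Complex.norm_exp_ofReal_mul_I _
  set C0 := ∫ x, f x ^ 2 with hC0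
  have hC00 : 0 ≤ C0 := integral_nonneg fun x => sq_nonneg _
  obtain ⟨K, hK, hkey⟩ := key (c := c) hn hb0 hlam hμ hz hC00
  -- the sequence
  have hfrb : Bornology.IsBounded (frontier Ω) :=
    hbd.closure.subset frontier_subset_closure
  have hfrc : IsCompact (frontier Ω) := isCompact_of_isClosed_isBounded isClosed_frontier hfrb
  let e : ℕ → ℝ := fun k => 1 / ((k : ℝ) + 1)
  have he0 : ∀ k, 0 < e k := fun k => by positivity
  have he : Tendsto e atTop (𝓝 0) := tendsto_one_div_add_atTop_nhds_zero_nat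
  let N : ℕ → Set ℂ := fun k => cthickening (e k) (frontier Ω)
  have hNt : ∀ k, volume (N k) ≠ ⊤ := fun k => hfrb.cthickening.measure_lt_top.ne
  have hνt : Tendsto (fun k => (volume (N k)).toReal) atTop (𝓝 0) := by
    have h1 : Tendsto (fun k => volume (N k)) atTop (𝓝 0) := by
      have := (tendsto_measure_cthickening_of_isCompact (μ := volume) hfrc).comp he
      rwa [hfr] at this
    have h2 := (ENNReal.tendsto_toReal (a := 0) (by simp)).comp h1
    rw [ENNReal.toReal_zero] at h2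
    exact h2
  let s : ℕ → ℝ := fun k => √((volume (N k)).toReal)
  have hst : Tendsto s atTop (𝓝 0) := by
    have := (Real.continuous_sqrt.tendsto 0).comp hνt
    rwa [Real.sqrt_zero] at this
  choose ρ hρ using fun k => exists_mol (he0 k)
  let F : ℕ → ℂ → ℝ := fun k => Mo (ρ k) f
  let χ : ℕ → ℂ → ℝ := fun k => Mo (ρ k) (ext Ω (fun _ => 1))
  have hF : ∀ k, SC (F k) := fun k => Mo_sc (hρ k) hfi hfc
  have hχ : ∀ k, SC (χ k) := fun k => Mo_sc (hρ k) (ext_int hm (ci hbd 1)) (ext_cs hbd _)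
  have hcov : ∀ k x, x ∉ N k → (x ∈ Ω ∧ χ k x = 1) ∨
      (x ∉ Ω ∧ F k =ᶠ[𝓝 x] 0 ∧ χ k x = 0) := by
    intro k x hx
    obtain ⟨ε', hε', h1 | h1⟩ := near_cases (he0 k).le ho hx
    · exact Or.inl ⟨h1.1, chi_one (hρ k) hε' h1.2⟩
    · exact Or.inr ⟨h1.1, Mo_ev (hρ k) hε' h1.2, (Mo_ev (hρ k) hε' h1.2).self_of_nhds⟩
  -- estimates for large k
  have hev : ∀ᶠ k in atTop, ∫ x, Lr (F k) x ^ 2 ≤ K * s k ∧
      ∫ x, gr (Lr (F k)) (Lr (F k)) x ≤ K * s k := by
    have t1 : Tendsto (fun k => s k * (lam * |c| * b ^ 2)) atTop (𝓝 0) := by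
      have := hst.mul_const (lam * |c| * b ^ 2)
      rwa [zero_mul] at this
    filter_upwards [t1.eventually_lt_const one_pos, hst.eventually_lt_const one_pos,
      he.eventually_lt_const (show (0 : ℝ) < b - R by linarith)] with k k1 k2 k3
    refine hkey (F k) (χ k) (N k) (hF k) (hχ k).cont (fun x => chi_le hm hbd (hρ k) x)
      isClosed_cthickening.measurableSet (hNt k) k1.le k2.le ?_ ?_ ?_ ?_ ?_
    · intro x hx
      rcases hcov k x hx with h1 | h1
      · exact Or.inl h1.2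
      · exact Or.inr h1.2.1
    · intro x hx
      refine Mo_ev (hρ k) k3 fun y hy hyΩ => ?_
      rw [mem_ball, dist_eq_norm] at hy
      have h1 := hR y hyΩ
      have h2 := norm_sub_norm_le x y
      rw [norm_sub_rev] at hy
      linarith
    · exact Mo_rot (hρ k) hζ hfr'
    · exact int_Mo_sq (hρ k) hfi hfc hf2
    · intro φ hφ
      exact h.weak hbd hm (hρ k) hφ
  -- the limit of the integrals
  have hw := Lr_sc hψ
  have hlim : Tendsto (fun k => ∫ x, χ k x * Lr ψ x) atTop (𝓝 (∫ x in Ω, Lr ψ x)) := by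
    obtain ⟨C, hC⟩ := hw.cs.exists_bound_of_continuous hw.cont
    have hC0' : 0 ≤ C := (norm_nonneg _).trans (hC 0)
    have h1 : ∀ k, ‖(∫ x, χ k x * Lr ψ x) - ∫ x in Ω, Lr ψ x‖ ≤ C * (volume (N k)).toReal := by
      intro k
      have e1 : ∫ x in Ω, Lr ψ x = ∫ x, ext Ω (fun _ => 1) x * Lr ψ x := by
        rw [ext_mul hm]
        simp only [one_mul]
      have i1 : Integrable (fun x => χ k x * Lr ψ x) := ((hχ k).mul hw).int
      have i2 : Integrable (fun x => ext Ω (fun _ => (1 : ℝ)) x * Lr ψ x) :=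
        (ext_int hm (ci hbd 1)).mul_bdd (c := C) hw.cont.aestronglyMeasurable
          (Eventually.of_forall hC)
      have hNm : MeasurableSet (N k) := isClosed_cthickening.measurableSet
      rw [e1, ← integral_sub i1 i2]
      have h2 : ∫ x, ‖χ k x * Lr ψ x - ext Ω (fun _ => 1) x * Lr ψ x‖ ≤
          ∫ x, (N k).indicator (fun _ => C) x := by
        refine integral_mono (i1.sub i2).norm
          ((integrable_indicator_iff hNm).2 (integrableOn_const (hNt k))) fun x => ?_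
        simp only []
        by_cases hx : x ∈ N k
        · rw [indicator_of_mem hx, ← sub_mul, norm_mul]
          have k1 : ‖χ k x - ext Ω (fun _ => (1 : ℝ)) x‖ ≤ 1 := by
            obtain ⟨a1, a2⟩ := chi_le hm hbd (hρ k) x
            rw [Real.norm_eq_abs, abs_le]
            by_cases hxo : x ∈ Ω
            · rw [ext, indicator_of_mem hxo]
              constructor <;> linarith
            · rw [ext, indicator_of_notMem hxo]
              constructor <;> linarith
          calc _ ≤ 1 * C := mul_le_mul k1 (hC x) (norm_nonneg _) zero_le_one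
            _ = C := one_mul C
        · rw [indicator_of_notMem hx]
          rcases hcov k x hx with h1 | h1
          · rw [h1.2, ext, indicator_of_mem h1.1, sub_self, norm_zero]
          · rw [h1.2.2, ext, indicator_of_notMem h1.1, sub_self, norm_zero]
      refine (norm_integral_le_integral_norm _).trans (h2.trans (le_of_eq ?_))
      rw [integral_indicator hNm, setIntegral_const, smul_eq_mul, measureReal_def, mul_comm]
    rw [tendsto_iff_norm_sub_tendsto_zero]
    have h2 : Tendsto (fun k => C * (volume (N k)).toReal) atTop (𝓝 0) := by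
      have := hνt.const_mul C
      rwa [mul_zero] at this
    exact squeeze_zero (fun k => norm_nonneg _) h1 h2
  set Q := lam * (∫ x, ψ x ^ 2) + (∫ x, dd 1 ψ x ^ 2) + ∫ x, dd Complex.I ψ x ^ 2 with hQ
  have hQ0 : 0 ≤ Q := by
    have a1 : 0 ≤ ∫ x, ψ x ^ 2 := integral_nonneg fun x => sq_nonneg _
    have a2 : 0 ≤ ∫ x, dd 1 ψ x ^ 2 := integral_nonneg fun x => sq_nonneg _
    have a3 : 0 ≤ ∫ x, dd Complex.I ψ x ^ 2 := integral_nonneg fun x => sq_nonneg _
    positivity
  have hmain : ∀ a : ℝ, 0 < a → |lam * c * ∫ x in Ω, Lr ψ x| ≤ a / 2 * Q := by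
    intro a ha
    have t1 : Tendsto (fun k => |lam * c * ∫ x, χ k x * Lr ψ x|) atTop
        (𝓝 |lam * c * ∫ x in Ω, Lr ψ x|) := (hlim.const_mul (lam * c)).abs
    have t2 : Tendsto (fun k => (lam + 2) * (K * s k) / (2 * a) + a / 2 * Q) atTop
        (𝓝 (a / 2 * Q)) := by
      have h1 := ((hst.const_mul K).const_mul (lam + 2)).div_const (2 * a)
      rw [mul_zero, mul_zero, zero_div] at h1
      have h2 := h1.add_const (a / 2 * Q)
      rwa [zero_add] at h2
    refine le_of_tendsto_of_tendsto t1 t2 ?_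
    filter_upwards [hev] with k hk
    obtain ⟨hV, hD⟩ := hk
    have hLF := Lr_sc (hF k)
    have hwk := h.weak hbd hm (hρ k) hw
    have g1 : ∫ x, gr (F k) (Lr ψ) x = -∫ x, gr (Lr (F k)) ψ x := gr_anti (hF k) hψ
    have g2 : ∫ x, F k x * Lr ψ x = -∫ x, Lr (F k) x * ψ x := anti (hF k) hψ
    have hwk' : ∫ x, gr (F k) (Lr ψ) x = lam * (∫ x, F k x * Lr ψ x) +
        lam * c * ∫ x, χ k x * Lr ψ x := hwk
    rw [g1, g2] at hwk'
    have g3 : ∫ x, gr (Lr (F k)) ψ x = (∫ x, dd 1 (Lr (F k)) x * dd 1 ψ x) +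
        ∫ x, dd Complex.I (Lr (F k)) x * dd Complex.I ψ x :=
      integral_add ((dd_sc hLF 1).mul (dd_sc hψ 1)).int
        ((dd_sc hLF Complex.I).mul (dd_sc hψ Complex.I)).int
    have g4 : ∫ x, gr (Lr (F k)) (Lr (F k)) x = (∫ x, dd 1 (Lr (F k)) x ^ 2) +
        ∫ x, dd Complex.I (Lr (F k)) x ^ 2 := by
      rw [← integral_add (dd_sc hLF 1).int_sq (dd_sc hLF Complex.I).int_sq]
      refine integral_congr_ae (Eventually.of_forall fun x => ?_)
      unfold gr
      simp only []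
      ring
    have g5 : 0 ≤ ∫ x, dd 1 (Lr (F k)) x ^ 2 := integral_nonneg fun x => sq_nonneg _
    have g6 : 0 ≤ ∫ x, dd Complex.I (Lr (F k)) x ^ 2 := integral_nonneg fun x => sq_nonneg _
    have y1 := young ha (hLF.mul hψ).int hLF.int_sq hψ.int_sq hV le_rfl
    have y2 := young ha ((dd_sc hLF 1).mul (dd_sc hψ 1)).int (dd_sc hLF 1).int_sq
      (dd_sc hψ 1).int_sq (show ∫ x, dd 1 (Lr (F k)) x ^ 2 ≤ K * s k by linarith) le_rfl
    have y3 := young ha ((dd_sc hLF Complex.I).mul (dd_sc hψ Complex.I)).int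
      (dd_sc hLF Complex.I).int_sq (dd_sc hψ Complex.I).int_sq
      (show ∫ x, dd Complex.I (Lr (F k)) x ^ 2 ≤ K * s k by linarith) le_rfl
    have e1 : lam * c * ∫ x, χ k x * Lr ψ x = lam * (∫ x, Lr (F k) x * ψ x) -
        ((∫ x, dd 1 (Lr (F k)) x * dd 1 ψ x) +
        ∫ x, dd Complex.I (Lr (F k)) x * dd Complex.I ψ x) := by
      rw [← g3]
      linarith
    rw [e1]
    have e2 : (lam + 2) * (K * s k) / (2 * a) + a / 2 * Q =
        lam * (K * s k / (2 * a) + a / 2 * ∫ x, ψ x ^ 2) +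
        ((K * s k / (2 * a) + a / 2 * ∫ x, dd 1 ψ x ^ 2) +
        (K * s k / (2 * a) + a / 2 * ∫ x, dd Complex.I ψ x ^ 2)) := by
      rw [hQ]
      ring
    rw [e2]
    have y4 : |lam * ∫ x, Lr (F k) x * ψ x| ≤
        lam * (K * s k / (2 * a) + a / 2 * ∫ x, ψ x ^ 2) := by
      rw [abs_mul, abs_of_pos hlam]
      exact mul_le_mul_of_nonneg_left y1 hlam.le
    rw [abs_le] at y2 y3 y4 ⊢
    constructor <;> linarith [y2.1, y2.2, y3.1, y3.2, y4.1, y4.2]
  have hz0 : lam * c * ∫ x in Ω, Lr ψ x = 0 := by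
    by_contra hne
    have hpos := abs_pos.2 hne
    set t := |lam * c * ∫ x in Ω, Lr ψ x| with ht
    have h1 := hmain (t / (Q + 1)) (by positivity)
    have h2 : t / (Q + 1) / 2 * Q < t := by
      rw [div_div, div_mul_eq_mul_div, div_lt_iff₀ (by positivity)]
      nlinarith
    linarith
  have hlc : lam * c ≠ 0 := mul_ne_zero hlam.ne' hc
  exact (mul_eq_zero.1 hz0).resolve_left hlc

end Pool.Agent.TH298.Sch
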