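import Mathlib
import Pool.Agent.TH298.Sch.Key
import Pool.Agent.TH298.Sch.Moll
import Pool.Agent.TH298.Sch.Coer2

/-!
First moments.
-/

set_option autoImplicit false

namespace Pool.Agent.TH298.Sch

open MeasureTheory Set Real Filter Topology
open scoped ContDiff

theorem lin_mul_sc (T : ℂ →L[ℝ] ℝ) {F : ℂ → ℝ} (hF : SC F) : SC (fun x => T x * F x) :=
  ⟨T.contDiff.mul hF.sm, hF.cs.mul_left⟩

theorem Lr_lin_mul (T : ℂ →L[ℝ] ℝ) {F : ℂ → ℝ} (hF : SC F) (x : ℂ) :
    Lr (fun y => T y * F y) x = T x * Lr F x + F x * T (Complex.I * x) := by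
  unfold Lr
  have := (T.hasFDerivAt.mul (hF.diff x).hasFDerivAt (x := x)).fderiv
  rw [show (fun y => T y * F y) = (T : ℂ → ℝ) * F from rfl, this]
  simp

theorem mom_Lr {F : ℂ → ℝ} (hF : SC F) :
    ∫ x : ℂ, x.re * Lr F x = ∫ x : ℂ, x.im * F x ∧
    ∫ x : ℂ, x.im * Lr F x = -∫ x : ℂ, x.re * F x := by
  have key : ∀ T : ℂ →L[ℝ] ℝ, ∫ x, T x * Lr F x = -∫ x, F x * T (Complex.I * x) := by
    intro T
    have h0 := int_Lr (lin_mul_sc T hF)
    have i1 : Integrable fun x => T x * Lr F x := (lin_mul_sc T (Lr_sc hF)).int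
    have i2 : Integrable fun x => F x * T (Complex.I * x) :=
      Continuous.integrable_of_hasCompactSupport (hF.cont.mul (by fun_prop)) hF.cs.mul_right
    have e : (fun x => Lr (fun y => T y * F y) x) =
        fun x => T x * Lr F x + F x * T (Complex.I * x) := funext (Lr_lin_mul T hF)
    rw [e, integral_add i1 i2] at h0
    linarith
  constructor
  · have h1 := key Complex.reCLM
    simp only [Complex.reCLM_apply] at h1
    rw [h1, ← integral_neg]
    refine integral_congr_ae (Eventually.of_forall fun x => ?_)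
    simp
    ring
  · have h1 := key Complex.imCLM
    simp only [Complex.imCLM_apply] at h1
    rw [h1]
    congr 1
    refine integral_congr_ae (Eventually.of_forall fun x => ?_)
    simp
    ring

/-- the coercivity for rotation derivatives -/
theorem coer_Lr {b μ : ℝ} (hb : 0 < b) (hμ : 0 < μ) {z z1 z2 : ℝ → ℝ}
    (hz : Comp 2 (μ * b ^ 2 / 4) z z1 z2) {F : ℂ → ℝ} (hF : SC F)
    (hsup : ∀ x, b ≤ ‖x‖ → F =ᶠ[𝓝 x] 0) (h1 : ∫ x : ℂ, x.re * F x = 0)
    (h2 : ∫ x : ℂ, x.im * F x = 0) :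
    μ * ∫ x, Lr F x ^ 2 ≤ ∫ x, gr (Lr F) (Lr F) x := by
  have hv := Lr_sc hF
  have hm := mom_Lr hF
  have := coer2 hb hμ hz (v := Lr F) hv.sm
    (fun x hx => (Lr_ev (hsup x hx)).self_of_nhds) (Lr_zero F) (fun r _ => Lr_mean hF r)
    (hm.1.trans h2) (by rw [hm.2, h1, neg_zero])
  refine this.trans (le_of_eq ?_)
  refine integral_congr_ae (Eventually.of_forall fun x => ?_)
  unfold gr dd
  simp only []
  ring

/-- smooth cutoff functions -/
theorem exists_cut (R : ℝ) : ∃ χ : ℂ → ℝ, SC χ ∧ ∀ x, ‖x‖ < R → χ x = 1 := by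
  by_cases hR : 0 < R
  · let β : ContDiffBump (0 : ℂ) := ⟨R, R + 1, hR, by linarith⟩
    refine ⟨β, ⟨β.contDiff, β.hasCompactSupport⟩, fun x hx => ?_⟩
    apply β.one_of_mem_closedBall
    rw [mem_closedBall_zero_iff]
    exact hx.le
  · refine ⟨fun _ => 0, ⟨contDiff_const, HasCompactSupport.zero⟩, fun x hx => ?_⟩
    exact absurd ((norm_nonneg x).trans_lt hx) hR

theorem exists_bd {f : ℂ → ℝ} (hf : HasCompactSupport f) : ∃ R, ∀ x, f x ≠ 0 → ‖x‖ < R := by
  obtain ⟨R, hR⟩ := hf.isBounded.subset_ball (0 : ℂ)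
  refine ⟨R, fun x hx => ?_⟩
  have := hR (subset_tsupport f (Function.mem_support.2 hx))
  rwa [mem_ball_zero_iff] at this

theorem Mo_lin {ε : ℝ} {ρ : ℂ → ℝ} (h : Mol ε ρ) (T : ℂ →L[ℝ] ℝ) {φ : ℂ → ℝ} {R : ℝ}
    (hφ : ∀ x, ‖x‖ < R + ε → φ x = T x) {y : ℂ} (hy : ‖y‖ < R) : Mo ρ φ y = T y := by
  unfold Mo
  have h1 : ∀ t, φ t * ρ (y - t) = T y * ρ (y - t) - T (y - t) * ρ (y - t) := by
    intro t
    rcases le_or_gt ε ‖y - t‖ with ht | ht
    · rw [h.out _ ht]; ring
    · have : ‖t‖ < R + ε := by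
        have h2 : ‖t‖ ≤ ‖y‖ + ‖y - t‖ := by
          have := norm_sub_norm_le t y
          rw [norm_sub_rev] at this
          linarith
        linarith
      rw [hφ t this, map_sub]
      ring
  have hr := refl_sc h.sc y
  have hlin : ∫ t, T (y - t) * ρ (y - t) = 0 := by
    rw [integral_sub_left_eq_self (fun t => T t * ρ t) volume y]
    have h3 : ∫ t, T t * ρ t = ∫ t, T (-t) * ρ (-t) :=
      (integral_neg_eq_self (fun t => T t * ρ t) volume).symm
    have h4 : ∫ t, T (-t) * ρ (-t) = -∫ t, T t * ρ t := by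
      rw [← integral_neg]
      refine integral_congr_ae (Eventually.of_forall fun t => ?_)
      simp only [map_neg, h.even]
      ring
    linarith
  have i1 : Integrable fun t => T y * ρ (y - t) := hr.int.const_mul _
  have i2 : Integrable fun t => T (y - t) * ρ (y - t) :=
    Continuous.integrable_of_hasCompactSupport
      ((T.continuous.comp (continuous_const.sub continuous_id)).mul hr.cont) hr.cs.mul_left
  simp only [h1]
  rw [integral_sub i1 i2, hlin, integral_const_mul, refl_int h, mul_one, sub_zero]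

/-- the mollification preserves the first moments -/
theorem mom_lin {ε : ℝ} {ρ f : ℂ → ℝ} (h : Mol ε ρ) (hf : Integrable f)
    (hfc : HasCompactSupport f) (T : ℂ →L[ℝ] ℝ) :
    ∫ x, T x * Mo ρ f x = ∫ x, T x * f x := by
  obtain ⟨R1, hR1⟩ := exists_bd hfc
  obtain ⟨R2, hR2⟩ := exists_bd (Mo_sc h hf hfc).cs
  set R := max R1 R2 with hR
  obtain ⟨χ, hχ, hχ1⟩ := exists_cut (R + |ε|)
  have hφ := lin_mul_sc T hχ
  have hF := Fub h hf hφ
  have e1 : ∫ x, T x * χ x * Mo ρ f x = ∫ x, T x * Mo ρ f x := by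
    refine integral_congr_ae (Eventually.of_forall fun x => ?_)
    simp only []
    by_cases hx : Mo ρ f x = 0
    · rw [hx, mul_zero, mul_zero]
    · have h1 := hR2 x hx
      rw [hχ1 x (by have := le_max_right R1 R2; have := abs_nonneg ε; linarith), mul_one]
  have e2 : ∫ y, f y * Mo ρ (fun x => T x * χ x) y = ∫ y, T y * f y := by
    refine integral_congr_ae (Eventually.of_forall fun y => ?_)
    simp only []
    by_cases hy : f y = 0
    · rw [hy, mul_zero, zero_mul]
    · have h1 := hR1 y hy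
      have h2 : ‖y‖ < R := lt_of_lt_of_le h1 (le_max_left R1 R2)
      rw [Mo_lin h T (R := R) (fun x hx => by
        rw [hχ1 x (by have := le_abs_self ε; linarith), mul_one]) h2]
      ring
  rw [← e1, ← e2]
  exact hF

theorem mom_Mo {ε : ℝ} {ρ f : ℂ → ℝ} (h : Mol ε ρ) (hf : Integrable f)
    (hfc : HasCompactSupport f) :
    ∫ x : ℂ, x.re * Mo ρ f x = ∫ x : ℂ, x.re * f x ∧
    ∫ x : ℂ, x.im * Mo ρ f x = ∫ x : ℂ, x.im * f x :=
  ⟨mom_lin h hf hfc Complex.reCLM, mom_lin h hf hfc Complex.imCLM⟩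

variable {Ω : Set ℂ} {lam c : ℝ} {u : ℂ → ℝ} {G : ℂ → ℂ}

/-- the first moments of a solution on a domain with centroid zero vanish -/
theorem Sol.mom (h : Sol Ω lam c u G) (hb : Bornology.IsBounded Ω) (hm : MeasurableSet Ω)
    (hlam : 0 < lam) (hcr : ∫ x in Ω, x.re = 0) (hci : ∫ x in Ω, x.im = 0) :
    ∫ x : ℂ, x.re * ext Ω (fun y => u y - c) x = 0 ∧
    ∫ x : ℂ, x.im * ext Ω (fun y => u y - c) x = 0 := by
  obtain ⟨R, hR⟩ := hb.subset_ball (0 : ℂ)
  have hRn : ∀ x ∈ Ω, ‖x‖ < R := fun x hx => by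
    have := hR hx
    rwa [mem_ball_zero_iff] at this
  obtain ⟨χ, hχ, hχ1⟩ := exists_cut R
  have hnb : ∀ x ∈ Ω, χ =ᶠ[𝓝 x] fun _ => 1 := by
    intro x hx
    have : Metric.ball (0 : ℂ) R ∈ 𝓝 x := Metric.isOpen_ball.mem_nhds (hR hx)
    filter_upwards [this] with y hy
    rw [mem_ball_zero_iff] at hy
    exact hχ1 y hy
  have hd0 : ∀ x ∈ Ω, fderiv ℝ χ x = 0 := by
    intro x hx
    rw [(hnb x hx).fderiv_eq]
    simp
  have hui := h.ui hb
  -- the mean of the gradient
  have hG : ∀ v : ℂ, ∫ x in Ω, inner ℝ (G x) v = 0 := by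
    intro v
    have h1 := h.h1 χ (hχ.sm.of_le (by simp)) hχ.cs v
    have e1 : ∫ x in Ω, (u x - c) * fderiv ℝ χ x v = 0 := by
      rw [setIntegral_congr_fun hm (g := fun _ => (0 : ℝ)) fun x hx => by
        simp only [hd0 x hx]
        simp]
      simp
    have e2 : ∫ x in Ω, inner ℝ (G x) v * χ x = ∫ x in Ω, inner ℝ (G x) v := by
      refine setIntegral_congr_fun hm fun x hx => ?_
      simp only [hχ1 x (hRn x hx), mul_one]
    rw [e1, e2] at h1
    linarith
  have key : ∀ T : ℂ →L[ℝ] ℝ, (∫ x in Ω, T x = 0) → ∀ v : ℂ, (∀ x : ℂ, T x = inner ℝ x v) →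
      ∫ x, T x * ext Ω (fun y => u y - c) x = 0 := by
    intro T hT v hTv
    have h2 := h.h2 (fun x => T x * χ x) ((lin_mul_sc T hχ).sm.of_le (by simp))
      (lin_mul_sc T hχ).cs
    have e1 : ∫ x in Ω, fderiv ℝ (fun x => T x * χ x) x (G x) = ∫ x in Ω, inner ℝ (G x) v := by
      refine setIntegral_congr_fun hm fun x hx => ?_
      have hev : (fun x => T x * χ x) =ᶠ[𝓝 x] T := by
        filter_upwards [hnb x hx] with y hy
        rw [hy, mul_one]
      rw [hev.fderiv_eq, T.fderiv, hTv]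
    have e2 : ∫ x in Ω, u x * (T x * χ x) = ∫ x in Ω, u x * T x := by
      refine setIntegral_congr_fun hm fun x hx => ?_
      simp only [hχ1 x (hRn x hx), mul_one]
    rw [e1, hG v, e2] at h2
    have h3 : ∫ x in Ω, u x * T x = 0 := by
      rcases mul_eq_zero.1 h2.symm with h4 | h4
      · exact absurd h4 hlam.ne'
      · exact h4
    have e3 : ∫ x, T x * ext Ω (fun y => u y - c) x = ∫ x in Ω, (u x - c) * T x := by
      rw [← ext_mul hm]
      refine integral_congr_ae (Eventually.of_forall fun x => ?_)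
      simp only [mul_comm]
    obtain ⟨C, hC⟩ := (lin_mul_sc T hχ).cs.exists_bound_of_continuous (lin_mul_sc T hχ).cont
    have hTC : ∀ᵐ x ∂(volume.restrict Ω), ‖T x‖ ≤ C := by
      refine (ae_restrict_iff' hm).2 (Eventually.of_forall fun x hx => ?_)
      have := hC x
      rwa [hχ1 x (hRn x hx), mul_one] at this
    have i1 : IntegrableOn (fun x => u x * T x) Ω :=
      Integrable.mul_bdd (c := C) hui T.continuous.aestronglyMeasurable hTC
    have i2 : IntegrableOn (fun x => c * T x) Ω :=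
      Integrable.mul_bdd (c := C) (ci hb c) T.continuous.aestronglyMeasurable hTC
    have e4 : ∫ x in Ω, (u x - c) * T x = (∫ x in Ω, u x * T x) - ∫ x in Ω, c * T x := by
      rw [← integral_sub i1 i2]
      refine integral_congr_ae (Eventually.of_forall fun x => ?_)
      simp only []
      ring
    rw [e3, e4, h3, integral_const_mul, hT]
    simp
  constructor
  · exact key Complex.reCLM hcr 1 (fun x => by rw [Complex.inner]; simp)
  · exact key Complex.imCLM hci Complex.I (fun x => by rw [Complex.inner]; simp)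

end Pool.Agent.TH298.Sch
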