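import Mathlib
import Pool.Agent.TH298.Sch.Key

/-!
Sets for which the integrals of rotation derivatives vanish are rotation invariant.
-/

set_option autoImplicit false

namespace Pool.Agent.TH298.Sch

open MeasureTheory Set Real Filter Topology Metric
open scoped ContDiff

variable {Ω : Set ℂ}

/-- the unit complex numbers -/
noncomputable def ro (t : ℝ) : ℂ := Complex.exp (t * Complex.I)

theorem norm_ro (t : ℝ) : ‖ro t‖ = 1 := Complex.norm_exp_ofReal_mul_I t

theorem rot_sc {ψ : ℂ → ℝ} (h : SC ψ) {ζ : ℂ} (hζ : ‖ζ‖ = 1) : SC (fun x => ψ (ζ * x)) := by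
  have hz : ζ ≠ 0 := by
    intro h0
    rw [h0, norm_zero] at hζ
    exact zero_ne_one hζ
  constructor
  · exact h.sm.comp (by fun_prop)
  · have : (fun x => ψ (ζ * x)) = ψ ∘ (Homeomorph.mulLeft₀ ζ hz) := rfl
    rw [this]
    exact h.cs.comp_homeomorph _

theorem Lr_rot {ψ : ℂ → ℝ} (h : SC ψ) (ζ x : ℂ) :
    Lr (fun y => ψ (ζ * y)) x = Lr ψ (ζ * x) := by
  have hI : HasFDerivAt (fun y : ℂ => ζ * y) (ζ • (ContinuousLinearMap.id ℝ ℂ)) x := by
    have := (hasFDerivAt_id (𝕜 := ℝ) x).const_mul ζ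
    exact this
  have h1 : HasFDerivAt (fun y => ψ (ζ * y))
      ((fderiv ℝ ψ (ζ * x)).comp (ζ • (ContinuousLinearMap.id ℝ ℂ))) x :=
    (h.diff (ζ * x)).hasFDerivAt.comp x hI
  unfold Lr
  rw [h1.fderiv]
  simp only [ContinuousLinearMap.comp_apply, ContinuousLinearMap.smul_apply,
    ContinuousLinearMap.id_apply, smul_eq_mul]
  congr 1
  ring

theorem ro_deriv (t : ℝ) (x : ℂ) : HasDerivAt (fun t : ℝ => ro t * x) (Complex.I * (ro t * x)) t := by
  have h1 : HasDerivAt (fun t : ℝ => (t : ℂ) * Complex.I) Complex.I t := by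
    have := (Complex.ofRealCLM.hasDerivAt (x := t)).mul_const Complex.I
    simpa using this
  have h2 := (h1.cexp).mul_const x
  refine h2.congr_deriv ?_
  unfold ro
  ring

theorem int_rot (hb : Bornology.IsBounded Ω)
    (h : ∀ ψ, SC ψ → ∫ x in Ω, Lr ψ x = 0) {ψ : ℂ → ℝ} (hψ : SC ψ) (t : ℝ) :
    ∫ x in Ω, ψ (ro t * x) = ∫ x in Ω, ψ x := by
  have hfin : IsFiniteMeasure (volume.restrict Ω) := ⟨by
    rw [Measure.restrict_apply_univ]; exact hb.measure_lt_top⟩
  have hL := Lr_sc hψ
  obtain ⟨C, hC⟩ := hL.cs.exists_bound_of_continuous hL.cont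
  have hd : ∀ t : ℝ, HasDerivAt (fun t => ∫ x in Ω, ψ (ro t * x)) 0 t := by
    intro t
    have h1 := hasDerivAt_integral_of_dominated_loc_of_deriv_le
      (μ := volume.restrict Ω) (F := fun (t : ℝ) x => ψ (ro t * x))
      (F' := fun (t : ℝ) x => Lr ψ (ro t * x)) (x₀ := t) (s := univ) (bound := fun _ => C)
      univ_mem
      (Eventually.of_forall fun t => (rot_sc hψ (norm_ro t)).cont.aestronglyMeasurable)
      ((rot_sc hψ (norm_ro t)).int.integrableOn)
      ((rot_sc hL (norm_ro t)).cont.aestronglyMeasurable)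
      (Eventually.of_forall fun x t _ => hC _)
      (integrable_const C)
      (Eventually.of_forall fun x t _ => by
        have := (hψ.diff (ro t * x)).hasFDerivAt.comp_hasDerivAt t (ro_deriv t x)
        exact this)
    have h2 : ∫ x in Ω, Lr ψ (ro t * x) = 0 := by
      rw [← h _ (rot_sc hψ (norm_ro t))]
      refine integral_congr_ae (Eventually.of_forall fun x => ?_)
      simp only [Lr_rot hψ]
    have h3 := h1.2
    rw [h2] at h3
    exact h3
  have hc := is_const_of_deriv_eq_zero (fun t => (hd t).differentiableAt) (fun t => (hd t).deriv)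
    t 0
  have h0 : ro 0 = 1 := by unfold ro; simp
  rw [h0] at hc
  simpa only [one_mul] using hc

theorem rot_inv (ho : IsOpen Ω) (hb : Bornology.IsBounded Ω)
    (h : ∀ ψ, SC ψ → ∫ x in Ω, Lr ψ x = 0) (t : ℝ) {x : ℂ} (hx : x ∈ Ω) :
    ro t * x ∈ closure Ω := by
  by_contra hcon
  have hopen : (closure Ω)ᶜ ∈ 𝓝 (ro t * x) := isClosed_closure.isOpen_compl.mem_nhds hcon
  obtain ⟨r, hr0, hr⟩ := Metric.mem_nhds_iff.1 hopen
  let f : ContDiffBump (ro t * x) := ⟨r / 2, r, by linarith, by linarith⟩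
  have hf : SC f := ⟨f.contDiff, f.hasCompactSupport⟩
  have h1 := int_rot hb h hf t
  have h2 : ∫ y in Ω, f y = 0 := by
    refine setIntegral_eq_zero_of_forall_eq_zero fun y hy => ?_
    apply f.zero_of_le_dist
    by_contra hlt
    rw [not_le] at hlt
    exact hr hlt (subset_closure hy)
  rw [h2] at h1
  have hcont : Continuous fun y => f (ro t * y) := (rot_sc hf (norm_ro t)).cont
  have h3 : 0 < ∫ y in Ω, f (ro t * y) := by
    rw [setIntegral_pos_iff_support_of_nonneg_ae
      (Eventually.of_forall fun y => f.nonneg) (rot_sc hf (norm_ro t)).int.integrableOn]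
    apply IsOpen.measure_pos
    · exact (hcont.isOpen_support).inter ho
    · refine ⟨x, ?_, hx⟩
      rw [Function.mem_support]
      have : 0 < f (ro t * x) := f.pos_of_mem_ball (mem_ball_self (show 0 < f.rOut from hr0))
      exact this.ne'
  linarith

/-- an open convex bounded symmetric set which is mapped to its closure by the rotations is a
disc -/
theorem ball_of_rot (ho : IsOpen Ω) (hb : Bornology.IsBounded Ω) (hc : Convex ℝ Ω)
    (hne : Ω.Nonempty) (hrot : ∀ t : ℝ, ∀ x ∈ Ω, ro t * x ∈ closure Ω) :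
    ∃ r : ℝ, 0 < r ∧ Ω = ball 0 r := by
  have hint : interior (closure Ω) = Ω := by
    rw [hc.interior_closure_eq_interior_of_nonempty_interior
      (by rw [ho.interior_eq]; exact hne), ho.interior_eq]
  have hro0 : ∀ t, ro t ≠ 0 := fun t => Complex.exp_ne_zero _
  have hinv : ∀ t : ℝ, ∀ x ∈ Ω, ro t * x ∈ Ω := by
    intro t x hx
    rw [← hint]
    have h1 : (fun y => ro t * y) '' Ω ⊆ closure Ω := by
      rintro _ ⟨y, hy, rfl⟩
      exact hrot t y hy
    have h2 : IsOpen ((fun y => ro t * y) '' Ω) :=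
      (Homeomorph.mulLeft₀ (ro t) (hro0 t)).isOpenMap Ω ho
    exact interior_maximal h1 h2 ⟨x, hx, rfl⟩
  have hneg : ∀ x ∈ Ω, -x ∈ Ω := by
    intro x hx
    have := hinv π x hx
    unfold ro at this
    rwa [Complex.exp_pi_mul_I, neg_one_mul] at this
  have hbdd : BddAbove (norm '' Ω) := by
    obtain ⟨R, hR⟩ := hb.subset_closedBall 0
    refine ⟨R, ?_⟩
    rintro _ ⟨x, hx, rfl⟩
    have := hR hx
    rwa [mem_closedBall_zero_iff] at this
  have hlt : ∀ x ∈ Ω, ‖x‖ < sSup (norm '' Ω) := by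
    intro x hx
    obtain ⟨δ, hδ0, hδ⟩ := Metric.isOpen_iff.1 ho x hx
    obtain ⟨e, he1, he2⟩ : ∃ e : ℂ, ‖e‖ = 1 ∧ ‖x + (δ / 2 : ℝ) * e‖ = ‖x‖ + δ / 2 := by
      rcases eq_or_ne x 0 with h0 | h0
      · refine ⟨1, by simp, ?_⟩
        rw [h0, zero_add, norm_zero, zero_add, mul_one, Complex.norm_real, Real.norm_eq_abs,
          abs_of_pos (by linarith)]
      · have hx0 : (‖x‖ : ℂ) ≠ 0 := by exact_mod_cast (norm_ne_zero_iff.2 h0)
        have hx1 : 0 < ‖x‖ := norm_pos_iff.2 h0
        refine ⟨x / ‖x‖, ?_, ?_⟩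
        · rw [norm_div, Complex.norm_real, norm_norm, div_self hx1.ne']
        · have : x + (δ / 2 : ℝ) * (x / ‖x‖) = x * (((1 + δ / 2 / ‖x‖ : ℝ)) : ℂ) := by
            push_cast
            field_simp
          rw [this, norm_mul, Complex.norm_real, Real.norm_eq_abs,
            abs_of_pos (by positivity)]
          field_simp
    have h1 : x + (δ / 2 : ℝ) * e ∈ Ω := by
      apply hδ
      rw [mem_ball, dist_eq_norm, add_sub_cancel_left, norm_mul, he1, mul_one, Complex.norm_real,
        Real.norm_eq_abs, abs_of_pos (by linarith)]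
      linarith
    have h2 := le_csSup hbdd (mem_image_of_mem norm h1)
    rw [he2] at h2
    linarith
  obtain ⟨x0, hx0⟩ := hne
  refine ⟨sSup (norm '' Ω), (norm_nonneg _).trans_lt (hlt x0 hx0), ?_⟩
  ext y
  rw [mem_ball_zero_iff]
  constructor
  · exact hlt y
  · intro hy
    obtain ⟨_, ⟨x, hx, rfl⟩, hyx⟩ := exists_lt_of_lt_csSup
      (Nonempty.image norm ⟨x0, hx0⟩) hy
    have hxp : 0 < ‖x‖ := (norm_nonneg y).trans_lt hyx
    -- the point with the direction of y and the modulus of x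
    obtain ⟨w, hw, hwy⟩ : ∃ w ∈ Ω, y = ((‖y‖ / ‖x‖ : ℝ) : ℂ) * w := by
      refine ⟨ro (Complex.arg y - Complex.arg x) * x, hinv _ _ hx, ?_⟩
      have hxx : x = ‖x‖ * Complex.exp (Complex.arg x * Complex.I) :=
        (Complex.norm_mul_exp_arg_mul_I x).symm
      have hyy : y = ‖y‖ * Complex.exp (Complex.arg y * Complex.I) :=
        (Complex.norm_mul_exp_arg_mul_I y).symm
      have hxc : (‖x‖ : ℂ) ≠ 0 := by exact_mod_cast hxp.ne'
      have h1 : ro (Complex.arg y - Complex.arg x) * x =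
          ‖x‖ * Complex.exp (Complex.arg y * Complex.I) := by
        have h2 : ro (Complex.arg y - Complex.arg x) * x = ro (Complex.arg y - Complex.arg x) *
            (‖x‖ * Complex.exp (Complex.arg x * Complex.I)) := by rw [← hxx]
        rw [h2]
        unfold ro
        rw [mul_left_comm, ← Complex.exp_add]
        congr 2
        push_cast
        ring
      rw [h1]
      refine hyy.trans ?_
      push_cast
      field_simp
    have h2 := hc (hneg w hw) hw (a := (1 - ‖y‖ / ‖x‖) / 2) (b := (1 + ‖y‖ / ‖x‖) / 2)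
      (by
        have : ‖y‖ / ‖x‖ ≤ 1 := by rw [div_le_one hxp]; exact hyx.le
        linarith)
      (by positivity) (by ring)
    have h3 : ((1 - ‖y‖ / ‖x‖) / 2) • (-w) + ((1 + ‖y‖ / ‖x‖) / 2) • w = y := by
      conv_rhs => rw [hwy]
      rw [Complex.real_smul, Complex.real_smul]
      push_cast
      ring
    rwa [h3] at h2

end Pool.Agent.TH298.Sch
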