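import Mathlib
import Pool.Agent.TH298.Sch.Moll
import Pool.Agent.TH298.Sch.RotInv
import Pool.Agent.W632.Schiffer2

/-!
Symmetrization of the weak solutions, and the constant is not zero.
-/

set_option autoImplicit false

namespace Pool.Agent.TH298.Sch

open MeasureTheory Set Real Filter Topology Metric
open scoped ContDiff ComplexConjugate

variable {Ω : Set ℂ} {lam c : ℝ} {u : ℂ → ℝ} {G : ℂ → ℂ}

/-- the rotation as a measure preserving map -/
theorem mp_rot {ζ : ℂ} (hζ : ‖ζ‖ = 1) : MeasurePreserving (fun x : ℂ => ζ * x) volume volume := by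
  let c : Circle := ⟨ζ, by simpa [Submonoid.unitSphere] using hζ⟩
  exact (rotation c).measurePreserving

theorem me_rot {ζ : ℂ} (hζ : ‖ζ‖ = 1) : MeasurableEmbedding (fun x : ℂ => ζ * x) := by
  have hz : ζ ≠ 0 := by
    intro h0
    rw [h0, norm_zero] at hζ
    exact zero_ne_one hζ
  exact (Homeomorph.mulLeft₀ ζ hz).measurableEmbedding

theorem mp_rot_res (hm : MeasurableSet Ω) {ζ : ℂ} (hζ : ‖ζ‖ = 1) (hΩ : ∀ x, ζ * x ∈ Ω ↔ x ∈ Ω) :
    MeasurePreserving (fun x : ℂ => ζ * x) (volume.restrict Ω) (volume.restrict Ω) := by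
  have h := (mp_rot hζ).restrict_preimage hm
  have h2 : (fun x : ℂ => ζ * x) ⁻¹' Ω = Ω := by
    ext x
    exact hΩ x
  rwa [h2] at h

theorem conj_mul_self' {ζ : ℂ} (hζ : ‖ζ‖ = 1) : conj ζ * ζ = 1 := by
  rw [mul_comm, Complex.mul_conj, Complex.normSq_eq_norm_sq, hζ]
  simp

theorem Sol.rot (h : Sol Ω lam c u G) (hm : MeasurableSet Ω) {ζ : ℂ} (hζ : ‖ζ‖ = 1)
    (hΩ : ∀ x, ζ * x ∈ Ω ↔ x ∈ Ω) :
    Sol Ω lam c (fun x => u (ζ * x)) (fun x => conj ζ * G (ζ * x)) := by
  have hmp := mp_rot_res hm hζ hΩ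
  have hme := me_rot hζ
  have hcz := conj_mul_self' hζ
  have hcζ : ‖conj ζ‖ = 1 := by rw [RCLike.norm_conj, hζ]
  have hψ : ∀ φ : ℂ → ℝ, ContDiff ℝ 1 φ → HasCompactSupport φ →
      ContDiff ℝ 1 (fun y => φ (conj ζ * y)) ∧ HasCompactSupport (fun y => φ (conj ζ * y)) ∧
      ∀ x w, fderiv ℝ (fun y => φ (conj ζ * y)) (ζ * x) w = fderiv ℝ φ x (conj ζ * w) := by
    intro φ h1 h2
    refine ⟨h1.comp (by fun_prop), ?_, ?_⟩
    · have hz : conj ζ ≠ 0 := by
        intro h0
        rw [h0, norm_zero] at hcζ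
        exact zero_ne_one hcζ
      have : (fun x => φ (conj ζ * x)) = φ ∘ (Homeomorph.mulLeft₀ (conj ζ) hz) := rfl
      rw [this]
      exact h2.comp_homeomorph _
    · intro x w
      have hI : HasFDerivAt (fun y : ℂ => conj ζ * y) (conj ζ • (ContinuousLinearMap.id ℝ ℂ))
          (ζ * x) := (hasFDerivAt_id (𝕜 := ℝ) (ζ * x)).const_mul (conj ζ)
      have h3 : HasFDerivAt (fun y => φ (conj ζ * y))
          ((fderiv ℝ φ (conj ζ * (ζ * x))).comp (conj ζ • (ContinuousLinearMap.id ℝ ℂ)))
          (ζ * x) :=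
        (h1.differentiable one_ne_zero (conj ζ * (ζ * x))).hasFDerivAt.comp (ζ * x) hI
      rw [h3.fderiv, ← mul_assoc, hcz, one_mul]
      rfl
  refine ⟨?_, ?_, ?_, ?_⟩
  · exact h.u2.comp_measurePreserving hmp
  · have h1 : MemLp (fun x => G (ζ * x)) 2 (volume.restrict Ω) :=
      h.G2.comp_measurePreserving hmp
    exact h1.const_mul (conj ζ)
  · intro φ h1 h2 v
    obtain ⟨k1, k2, k3⟩ := hψ φ h1 h2
    have e := h.h1 _ k1 k2 (ζ * v)
    have e1 := hmp.integral_comp hme
      (fun y => (u y - c) * fderiv ℝ (fun y => φ (conj ζ * y)) y (ζ * v))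
    have e2 := hmp.integral_comp hme (fun y => inner ℝ (G y) (ζ * v) * φ (conj ζ * y))
    rw [← e1, ← e2] at e
    simp only [k3] at e
    refine Eq.trans ?_ (e.trans ?_)
    · refine integral_congr_ae (Eventually.of_forall fun x => ?_)
      simp only []
      rw [← mul_assoc, hcz, one_mul]
    · congr 1
      refine integral_congr_ae (Eventually.of_forall fun x => ?_)
      simp only []
      rw [← mul_assoc (conj ζ) ζ x, hcz, one_mul]
      congr 1
      rw [Complex.inner, Complex.inner, map_mul, Complex.conj_conj]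
      congr 1
      ring
  · intro φ h1 h2
    obtain ⟨k1, k2, k3⟩ := hψ φ h1 h2
    have e := h.h2 _ k1 k2
    have e1 := hmp.integral_comp hme
      (fun y => fderiv ℝ (fun y => φ (conj ζ * y)) y (G y))
    have e2 := hmp.integral_comp hme (fun y => u y * φ (conj ζ * y))
    rw [← e1, ← e2] at e
    simp only [k3] at e
    refine e.trans ?_
    congr 1
    refine integral_congr_ae (Eventually.of_forall fun x => ?_)
    simp only []
    rw [← mul_assoc, hcz, one_mul]

theorem Sol.avg (hb : Bornology.IsBounded Ω) {n : ℕ} (hn : 0 < n)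
    {U : ℕ → ℂ → ℝ} {H : ℕ → ℂ → ℂ} (h : ∀ j, Sol Ω lam c (U j) (H j)) :
    Sol Ω lam c (fun x => (1 / n : ℝ) * ∑ j ∈ Finset.range n, U j x)
      (fun x => (1 / n : ℝ) • ∑ j ∈ Finset.range n, H j x) := by
  have hfin := Sol.fin hb
  have hn0 : (n : ℝ) ≠ 0 := by positivity
  have bdd : ∀ φ : ℂ → ℝ, ContDiff ℝ 1 φ → HasCompactSupport φ → ∀ v : ℂ,
      ∃ C, ∀ x, ‖fderiv ℝ φ x v‖ ≤ C := by
    intro φ h1 h2 v
    exact ((h2.fderiv ℝ).comp_left (g := fun T : ℂ →L[ℝ] ℝ => T v)
      (by simp)).exists_bound_of_continuous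
      ((h1.continuous_fderiv one_ne_zero).clm_apply continuous_const)
  refine ⟨?_, ?_, ?_, ?_⟩
  · exact (memLp_finsetSum _ fun j _ => (h j).u2).const_mul _
  · have h1 : MemLp (fun x => ∑ j ∈ Finset.range n, H j x) 2 (volume.restrict Ω) :=
      memLp_finsetSum _ fun j _ => (h j).G2
    exact h1.const_smul (1 / n : ℝ)
  · intro φ h1 h2 v
    obtain ⟨C, hC⟩ := bdd φ h1 h2 v
    obtain ⟨C', hC'⟩ := h2.exists_bound_of_continuous h1.continuous
    have hdc : Continuous fun x => fderiv ℝ φ x v :=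
      (h1.continuous_fderiv one_ne_zero).clm_apply continuous_const
    have i1 : ∀ j ∈ Finset.range n, Integrable (fun x => (U j x - c) * fderiv ℝ φ x v)
        (volume.restrict Ω) := fun j _ =>
      (((h j).ui hb).sub (ci hb c)).mul_bdd (c := C) hdc.aestronglyMeasurable
        (Eventually.of_forall hC)
    have i2 : ∀ j ∈ Finset.range n, Integrable (fun x => inner ℝ (H j x) v * φ x)
        (volume.restrict Ω) := fun j _ =>
      (((h j).Gi hb).inner_const v).mul_bdd (c := C') h1.continuous.aestronglyMeasurable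
        (Eventually.of_forall hC')
    have e1 : ∀ x, ((1 / n : ℝ) * ∑ j ∈ Finset.range n, U j x - c) * fderiv ℝ φ x v =
        (1 / n : ℝ) * ∑ j ∈ Finset.range n, (U j x - c) * fderiv ℝ φ x v := by
      intro x
      rw [← Finset.sum_mul, Finset.sum_sub_distrib, Finset.sum_const, Finset.card_range,
        nsmul_eq_mul]
      field_simp
    have e2 : ∀ x, inner ℝ ((1 / n : ℝ) • ∑ j ∈ Finset.range n, H j x) v * φ x =
        (1 / n : ℝ) * ∑ j ∈ Finset.range n, inner ℝ (H j x) v * φ x := by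
      intro x
      rw [← Finset.sum_mul, real_inner_smul_left, sum_inner]
      ring
    simp only [e1, e2]
    rw [integral_const_mul, integral_const_mul, integral_finsetSum _ i1,
      integral_finsetSum _ i2, ← mul_neg, ← Finset.sum_neg_distrib]
    congr 1
    exact Finset.sum_congr rfl fun j _ => (h j).h1 φ h1 h2 v
  · intro φ h1 h2
    obtain ⟨C', hC'⟩ := h2.exists_bound_of_continuous h1.continuous
    obtain ⟨C, hC⟩ := (h2.fderiv ℝ).exists_bound_of_continuous
      (h1.continuous_fderiv one_ne_zero)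
    have i1 : ∀ j ∈ Finset.range n, Integrable (fun x => fderiv ℝ φ x (H j x))
        (volume.restrict Ω) := by
      intro j _
      have hHi := (h j).Gi hb
      refine (hHi.norm.const_mul C).mono' ?_ (Eventually.of_forall fun x => ?_)
      · exact (isBoundedBilinearMap_apply (𝕜 := ℝ) (E := ℂ)
          (F := ℝ)).continuous.comp_aestronglyMeasurable
          ((h1.continuous_fderiv one_ne_zero).aestronglyMeasurable.prodMk
            hHi.aestronglyMeasurable)
      · exact ((fderiv ℝ φ x).le_opNorm _).trans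
          (mul_le_mul_of_nonneg_right (hC x) (norm_nonneg _))
    have i2 : ∀ j ∈ Finset.range n, Integrable (fun x => U j x * φ x)
        (volume.restrict Ω) := fun j _ =>
      ((h j).ui hb).mul_bdd (c := C') h1.continuous.aestronglyMeasurable
        (Eventually.of_forall hC')
    have e1 : ∀ x, fderiv ℝ φ x ((1 / n : ℝ) • ∑ j ∈ Finset.range n, H j x) =
        (1 / n : ℝ) * ∑ j ∈ Finset.range n, fderiv ℝ φ x (H j x) := by
      intro x
      rw [map_smul, map_sum, smul_eq_mul]
    have e2 : ∀ x, ((1 / n : ℝ) * ∑ j ∈ Finset.range n, U j x) * φ x =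
        (1 / n : ℝ) * ∑ j ∈ Finset.range n, U j x * φ x := by
      intro x
      rw [← Finset.sum_mul]
      ring
    simp only [e1, e2]
    have key : ∑ j ∈ Finset.range n, ∫ x in Ω, fderiv ℝ φ x (H j x) =
        lam * ∑ j ∈ Finset.range n, ∫ x in Ω, U j x * φ x := by
      rw [Finset.mul_sum]
      exact Finset.sum_congr rfl fun j _ => (h j).h2 φ h1 h2
    rw [integral_const_mul, integral_const_mul, integral_finsetSum _ i1,
      integral_finsetSum _ i2, key]
    ring

/-- symmetric solutions -/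
theorem Sol.symm (h : Sol Ω lam c u G) (hb : Bornology.IsBounded Ω) (hm : MeasurableSet Ω) {n : ℕ}
    (hn : 0 < n) {ζ : ℂ} (hζ : ‖ζ‖ = 1) (hζn : ζ ^ n = 1) (hΩ : ∀ x, ζ * x ∈ Ω ↔ x ∈ Ω) :
    ∃ u' G', Sol Ω lam c u' G' ∧ ∀ x, u' (ζ * x) = u' x := by
  have hj : ∀ j : ℕ, Sol Ω lam c (fun x => u (ζ ^ j * x)) (fun x => conj (ζ ^ j) * G (ζ ^ j * x)) := by
    intro j
    refine h.rot hm (by rw [norm_pow, hζ, one_pow]) ?_
    induction j with
    | zero => intro x; simp
    | succ j ih =>
      intro x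
      rw [pow_succ, mul_assoc]
      exact (ih (ζ * x)).trans (hΩ x)
  refine ⟨_, _, Sol.avg hb hn hj, ?_⟩
  intro x
  congr 1
  have h1 : ∀ j : ℕ, u (ζ ^ j * (ζ * x)) = u (ζ ^ (j + 1) * x) := fun j => by
    rw [← mul_assoc, pow_succ]
  simp only [h1]
  have h2 := Finset.sum_range_succ' (fun j => u (ζ ^ j * x)) n
  have h3 := Finset.sum_range_succ (fun j => u (ζ ^ j * x)) n
  rw [h3] at h2
  simp only [hζn, pow_zero] at h2
  linarith

/-- the constant is not zero -/
theorem Sol.c_ne (h : Sol Ω lam c u G) (hb : Bornology.IsBounded Ω) (hm : MeasurableSet Ω)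
    (hlam : 0 < lam) (hne : ¬ (u =ᵐ[volume.restrict Ω] 0)) : c ≠ 0 := by
  have : IsFiniteMeasure (volume.restrict Ω) := Sol.fin hb
  have hu : Integrable u (volume.restrict Ω) := h.ui hb
  have hst := fun η => Pool.Agent.W632.Schiffer.star hb hm hu h.h1 h.h2 η
  intro hc0
  apply hne
  have hz : ∀ η : ℂ, ‖η‖ ≠ Real.sqrt lam →
      (∫ x in Ω, u x * Real.cos (inner ℝ η x)) = 0 ∧
      (∫ x in Ω, u x * Real.sin (inner ℝ η x)) = 0 := by
    intro η hη
    have hd : ‖η‖ ^ 2 - lam ≠ 0 := by
      intro h0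
      apply hη
      rw [← sub_eq_zero.mp h0, Real.sqrt_sq (norm_nonneg _)]
    obtain ⟨a, b⟩ := hst η
    rw [hc0, zero_mul, zero_mul] at a b
    exact ⟨(mul_eq_zero.mp a).resolve_left hd, (mul_eq_zero.mp b).resolve_left hd⟩
  have hdense : Dense {η : ℂ | ‖η‖ ≠ Real.sqrt lam} := by
    have h0 : interior (Metric.sphere (0 : ℂ) (Real.sqrt lam)) = ∅ :=
      interior_sphere _ (Real.sqrt_pos.mpr hlam).ne'
    have : {η : ℂ | ‖η‖ ≠ Real.sqrt lam} = (Metric.sphere (0 : ℂ) (Real.sqrt lam))ᶜ := by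
      ext η; simp
    rw [this]
    exact interior_eq_empty_iff_dense_compl.mp h0
  have cc : Continuous (fun η : ℂ => ∫ x in Ω, u x * Real.cos (inner ℝ η x)) := by
    refine continuous_of_dominated (bound := fun x => ‖u x‖) ?_ ?_ hu.norm ?_
    · intro η
      exact hu.aestronglyMeasurable.mul (by fun_prop)
    · intro η
      refine Filter.Eventually.of_forall fun x => ?_
      rw [norm_mul]
      have := Real.abs_cos_le_one (inner ℝ η x)
      exact mul_le_of_le_one_right (norm_nonneg _) (by simpa using this)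
    · refine Filter.Eventually.of_forall fun x => ?_
      fun_prop
  have cs : Continuous (fun η : ℂ => ∫ x in Ω, u x * Real.sin (inner ℝ η x)) := by
    refine continuous_of_dominated (bound := fun x => ‖u x‖) ?_ ?_ hu.norm ?_
    · intro η
      exact hu.aestronglyMeasurable.mul (by fun_prop)
    · intro η
      refine Filter.Eventually.of_forall fun x => ?_
      rw [norm_mul]
      have := Real.abs_sin_le_one (inner ℝ η x)
      exact mul_le_of_le_one_right (norm_nonneg _) (by simpa using this)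
    · refine Filter.Eventually.of_forall fun x => ?_
      fun_prop
  apply Pool.Agent.W632.Schiffer.ae_zero_of_ft hu
  · have := Continuous.ext_on hdense cc continuous_const (fun η hη => (hz η hη).1)
    exact fun η => congrFun this η
  · have := Continuous.ext_on hdense cs continuous_const (fun η hη => (hz η hη).2)
    exact fun η => congrFun this η

end Pool.Agent.TH298.Sch
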