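import Mathlib

/-!
One dimensional lemmas for the section functions of a convex set which is symmetric with respect to
the origin.
-/

set_option autoImplicit false

namespace Pool.Agent.TH298.Sch

open MeasureTheory Set Real

/-- the properties of the section function of a bounded open symmetric convex set -/
structure Sec (a : ℝ) (s : ℝ → ℝ) : Prop where
  pos : 0 < a
  nonneg : ∀ t, 0 ≤ s t
  even : ∀ t, s (-t) = s t
  out : ∀ t, a ≤ |t| → s t = 0
  conc : ConcaveOn ℝ (Ioo (-a) a) s
  int : Integrable s

theorem int_one_add (β c : ℝ) : ∫ x in (0 : ℝ)..c, (1 + β * cos x) = c + β * sin c := by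
  have h : ∀ x ∈ uIcc (0 : ℝ) c, HasDerivAt (fun x => x + β * sin x) (1 + β * cos x) x :=
    fun x _ => (hasDerivAt_id x).add ((hasDerivAt_sin x).const_mul β)
  rw [intervalIntegral.integral_eq_sub_of_hasDerivAt h
    (Continuous.intervalIntegrable (by fun_prop) _ _)]
  simp

theorem int_one_sub (β c : ℝ) : ∫ x in (0 : ℝ)..c, (1 - β * cos x) = c - β * sin c := by
  have h : ∀ x ∈ uIcc (0 : ℝ) c, HasDerivAt (fun x => x - β * sin x) (1 - β * cos x) x :=
    fun x _ => (hasDerivAt_id x).sub ((hasDerivAt_sin x).const_mul β)
  rw [intervalIntegral.integral_eq_sub_of_hasDerivAt h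
    (Continuous.intervalIntegrable (by fun_prop) _ _)]
  simp

namespace Sec

variable {a : ℝ} {s : ℝ → ℝ}

theorem anti (h : Sec a s) : AntitoneOn s (Ici 0) := by
  intro x hx y hy hxy
  rw [mem_Ici] at hx hy
  rcases le_or_gt a y with hya | hya
  · rw [h.out y (by rw [abs_of_nonneg hy]; exact hya)]
    exact h.nonneg x
  · rcases eq_or_lt_of_le hy with h0 | h0
    · have : x = y := by linarith
      rw [this]
    · have hmy : -y ∈ Ioo (-a) a := ⟨by linarith, by linarith⟩
      have hpy : y ∈ Ioo (-a) a := ⟨by linarith, by linarith⟩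
      have hseg : x ∈ segment ℝ (-y) y := by
        rw [segment_eq_Icc (by linarith)]
        exact ⟨by linarith, hxy⟩
      have := h.conc.min_le_of_mem_segment hmy hpy hseg
      rw [h.even y, min_self] at this
      exact this

theorem le_zero (h : Sec a s) (t : ℝ) : s t ≤ s 0 := by
  have h1 : s t = s |t| := by
    rcases abs_choice t with h2 | h2
    · rw [h2]
    · rw [h2, h.even]
  rw [h1]
  exact h.anti (mem_Ici.2 le_rfl) (mem_Ici.2 (abs_nonneg t)) (abs_nonneg t)

theorem ii (h : Sec a s) (x y : ℝ) : IntervalIntegrable s volume x y :=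
  h.int.intervalIntegrable

theorem ii_mul (h : Sec a s) (g : ℝ → ℝ) (hg : Continuous g) (x y : ℝ) :
    IntervalIntegrable (fun t => s t * g t) volume x y := by
  have := (h.ii x y).mul_continuousOn (g := g) hg.continuousOn
  exact this

/-- reduction of integrals over the line -/
theorem int_eq (h : Sec a s) (ha : a < 2 * π) (g : ℝ → ℝ) (hg : Continuous g)
    (hge : ∀ t, g (-t) = g t) : ∫ t, s t * g t = 2 * ∫ t in (0 : ℝ)..(2 * π), s t * g t := by
  have h1 : ∫ t, s t * g t = ∫ t in (-(2 * π))..(2 * π), s t * g t := by
    rw [intervalIntegral.integral_of_le (by linarith [pi_pos]),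
      ← integral_Icc_eq_integral_Ioc, setIntegral_eq_integral_of_forall_compl_eq_zero]
    intro t ht
    have : a ≤ |t| := by
      by_contra hcon
      push Not at hcon
      rw [abs_lt] at hcon
      exact ht ⟨by linarith, by linarith⟩
    rw [h.out t this, zero_mul]
  rw [h1, ← intervalIntegral.integral_add_adjacent_intervals (h.ii_mul g hg (-(2 * π)) 0)
    (h.ii_mul g hg 0 (2 * π))]
  have h2 : ∫ t in (-(2 * π))..0, s t * g t = ∫ t in (0 : ℝ)..(2 * π), s t * g t := by
    have := intervalIntegral.integral_comp_neg (fun t => s t * g t) (a := 0) (b := 2 * π)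
    rw [neg_zero] at this
    rw [← this]
    refine intervalIntegral.integral_congr fun t _ => ?_
    simp only [h.even, hge]
  rw [h2]
  ring

/-- the upper bound for the integral -/
theorem upper (h : Sec a s) (ha : a < 2 * π) (hcos : ∫ t, s t * cos t = 0) :
    ∫ t, s t ≤ 2 * π * s 0 := by
  have e1 := h.int_eq ha (fun _ => 1) continuous_const (fun _ => rfl)
  have e2 := h.int_eq ha cos continuous_cos cos_neg
  simp only [mul_one] at e1
  rw [hcos] at e2
  have e2' : ∫ t in (0 : ℝ)..(2 * π), s t * cos t = 0 := by linarith
  rw [e1]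
  suffices hs : ∫ t in (0 : ℝ)..(2 * π), s t ≤ π * s 0 by linarith
  have hpi := pi_pos
  rcases le_or_gt a π with hap | hap
  · -- the short case
    have h1 := intervalIntegral.integral_add_adjacent_intervals (h.ii 0 π) (h.ii π (2 * π))
    have h2 : ∫ t in π..(2 * π), s t = 0 := by
      have : ∫ t in π..(2 * π), s t = ∫ t in π..(2 * π), (0 : ℝ) := by
        refine intervalIntegral.integral_congr fun t ht => ?_
        rw [uIcc_of_le (by linarith)] at ht
        exact h.out t (by rw [abs_of_nonneg (by linarith [ht.1])]; linarith [ht.1])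
      rw [this, intervalIntegral.integral_zero]
    have h3 : ∫ t in (0 : ℝ)..π, s t ≤ ∫ t in (0 : ℝ)..π, s 0 :=
      intervalIntegral.integral_mono_on hpi.le (h.ii 0 π) (by simp) (fun t _ => h.le_zero t)
    rw [intervalIntegral.integral_const, smul_eq_mul, sub_zero] at h3
    linarith
  · -- the main case
    set b := a - π with hb
    have hb0 : 0 < b := by linarith
    have hbp : b < π := by linarith
    have hsb : 0 < sin b := sin_pos_of_pos_of_lt_pi hb0 hbp
    set β := b / sin b with hβ
    have hβ0 : 0 < β := by positivity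
    have hβs : β * sin b = b := by rw [hβ]; field_simp
    have hbc : β * cos b ≤ 1 := by
      rw [hβ, div_mul_eq_mul_div, div_le_one hsb]
      rcases le_or_gt (cos b) 0 with hc | hc
      · nlinarith
      · have hb2 : b < π / 2 := by
          by_contra hcon
          push Not at hcon
          exact absurd hc (not_lt.2 (cos_nonpos_of_pi_div_two_le_of_le hcon (by linarith)))
        have := Real.lt_tan hb0 hb2
        rw [tan_eq_sin_div_cos, lt_div_iff₀ hc] at this
        exact this.le
    -- the weight
    have hW : ∫ t in (0 : ℝ)..(2 * π), s t = ∫ t in (0 : ℝ)..(2 * π), s t * (1 + β * cos t) := by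
      have : ∀ t, s t * (1 + β * cos t) = s t + β * (s t * cos t) := fun t => by ring
      simp only [this]
      rw [intervalIntegral.integral_add (h.ii _ _)
        ((h.ii_mul cos continuous_cos _ _).const_mul β), intervalIntegral.integral_const_mul, e2']
      ring
    have hwc : Continuous fun t : ℝ => 1 + β * cos t := by fun_prop
    rw [hW]
    have hsplit := intervalIntegral.integral_add_adjacent_intervals
      (h.ii_mul _ hwc 0 (π - b)) (h.ii_mul _ hwc (π - b) (2 * π))
    have hsplit2 := intervalIntegral.integral_add_adjacent_intervals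
      (h.ii_mul _ hwc (π - b) a) (h.ii_mul _ hwc a (2 * π))
    have hz : ∫ t in a..(2 * π), s t * (1 + β * cos t) = 0 := by
      have : ∫ t in a..(2 * π), s t * (1 + β * cos t) = ∫ t in a..(2 * π), (0 : ℝ) := by
        refine intervalIntegral.integral_congr fun t ht => ?_
        rw [uIcc_of_le ha.le] at ht
        have h0 : s t = 0 := h.out t (by rw [abs_of_nonneg (by linarith [ht.1])]; exact ht.1)
        simp only [h0, zero_mul]
      rw [this, intervalIntegral.integral_zero]
    -- first part
    have hP1 : ∫ t in (0 : ℝ)..(π - b), s t * (1 + β * cos t) ≤ π * s 0 := by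
      have h3 : ∫ t in (0 : ℝ)..(π - b), s t * (1 + β * cos t) ≤
          ∫ t in (0 : ℝ)..(π - b), s 0 * (1 + β * cos t) := by
        refine intervalIntegral.integral_mono_on (by linarith) (h.ii_mul _ hwc _ _)
          ((continuous_const.mul hwc).intervalIntegrable _ _) fun t ht => ?_
        refine mul_le_mul_of_nonneg_right (h.le_zero t) ?_
        have hc : cos (π - b) ≤ cos t := cos_le_cos_of_nonneg_of_le_pi ht.1 (by linarith) ht.2
        rw [cos_pi_sub] at hc
        nlinarith
      refine h3.trans (le_of_eq ?_)
      rw [intervalIntegral.integral_const_mul, int_one_add, sin_pi_sub, hβs]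
      ring
    -- second part
    have hP2 : ∫ t in (π - b)..a, s t * (1 + β * cos t) ≤ 0 := by
      have hsa : a = π + b := by rw [hb]; ring
      have h4 := intervalIntegral.integral_add_adjacent_intervals
        (h.ii_mul _ hwc (π - b) π) (h.ii_mul _ hwc π a)
      have h5 : ∫ t in (π - b)..π, s t * (1 + β * cos t) =
          ∫ x in (0 : ℝ)..b, s (π - x) * (1 - β * cos x) := by
        have := intervalIntegral.integral_comp_sub_left
          (fun t => s t * (1 + β * cos t)) π (a := 0) (b := b)
        rw [sub_zero] at this
        rw [← this]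
        refine intervalIntegral.integral_congr fun t _ => ?_
        simp only [cos_pi_sub]
        ring
      have h6 : ∫ t in π..a, s t * (1 + β * cos t) =
          ∫ x in (0 : ℝ)..b, s (π + x) * (1 - β * cos x) := by
        have := intervalIntegral.integral_comp_add_left
          (fun t => s t * (1 + β * cos t)) π (a := 0) (b := b)
        rw [add_zero, ← hsa] at this
        rw [← this]
        refine intervalIntegral.integral_congr fun t _ => ?_
        simp only [add_comm π t, cos_add_pi]
        ring
      have hvc : Continuous fun x : ℝ => 1 - β * cos x := by fun_prop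
      have i5 : IntervalIntegrable (fun x => s (π - x) * (1 - β * cos x)) volume 0 b := by
        have : IntervalIntegrable (fun x => s (π - x)) volume 0 b :=
          (h.int.comp_sub_left π).intervalIntegrable
        exact this.mul_continuousOn hvc.continuousOn
      have i6 : IntervalIntegrable (fun x => s (π + x) * (1 - β * cos x)) volume 0 b := by
        have : IntervalIntegrable (fun x => s (π + x)) volume 0 b :=
          (h.int.comp_add_left π).intervalIntegrable
        exact this.mul_continuousOn hvc.continuousOn
      rw [← h4, h5, h6, ← intervalIntegral.integral_add i5 i6]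
      -- the crossing point
      have hq1 : sin b / b ≤ 1 := by
        rw [div_le_one hb0]; exact (sin_lt hb0).le
      have hq0 : 0 ≤ sin b / b := by positivity
      set x0 := arccos (sin b / b) with hx0
      have hx00 : 0 ≤ x0 := arccos_nonneg _
      have hcx0 : cos x0 = sin b / b := cos_arccos (by linarith) hq1
      have hx0b : x0 ≤ b := by
        by_contra hcon
        push Not at hcon
        have := cos_lt_cos_of_nonneg_of_le_pi hb0.le (arccos_le_pi _) hcon
        rw [hcx0, div_lt_iff₀ hb0] at this
        rw [hβ, div_mul_eq_mul_div, div_le_one hsb] at hbc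
        linarith
      have hx0lt : x0 < b ∨ x0 = b := lt_or_eq_of_le hx0b
      -- monotonicity of the symmetrised function
      have hS : ∀ x y : ℝ, 0 ≤ x → x ≤ y → y < b →
          s (π - y) + s (π + y) ≤ s (π - x) + s (π + x) := by
        intro x y hx hxy hyb
        rcases eq_or_lt_of_le (hx.trans hxy) with h0 | h0
        · have : x = y := by linarith
          rw [this]
        · have m1 : π - y ∈ Ioo (-a) a := ⟨by linarith, by linarith⟩
          have m2 : π + y ∈ Ioo (-a) a := ⟨by linarith, by linarith⟩
          have hw1 : 0 ≤ (y + x) / (2 * y) := by positivity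
          have hw2 : 0 ≤ (y - x) / (2 * y) := div_nonneg (by linarith) (by linarith)
          have hw : (y + x) / (2 * y) + (y - x) / (2 * y) = 1 := by field_simp; ring
          have c1 := h.conc.2 m1 m2 hw1 hw2 hw
          have c2 := h.conc.2 m1 m2 hw2 hw1 (by rw [add_comm]; exact hw)
          simp only [smul_eq_mul] at c1 c2
          have p1 : (y + x) / (2 * y) * (π - y) + (y - x) / (2 * y) * (π + y) = π - x := by
            field_simp; ring
          have p2 : (y - x) / (2 * y) * (π - y) + (y + x) / (2 * y) * (π + y) = π + x := by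
            field_simp; ring
          rw [p1] at c1
          rw [p2] at c2
          have : s (π - y) + s (π + y) = ((y + x) / (2 * y) + (y - x) / (2 * y)) *
              (s (π - y) + s (π + y)) := by rw [hw, one_mul]
          linarith
      set S0 := s (π - x0) + s (π + x0) with hS0
      have hS00 : 0 ≤ S0 := add_nonneg (h.nonneg _) (h.nonneg _)
      have hpt : ∀ x ∈ Ioo (0 : ℝ) b, s (π - x) * (1 - β * cos x) + s (π + x) * (1 - β * cos x) ≤
          S0 * (1 - β * cos x) := by
        intro x hx
        rw [← add_mul]
        rcases le_total x x0 with hxx | hxx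
        · have hc : cos x0 ≤ cos x := cos_le_cos_of_nonneg_of_le_pi hx.1.le (arccos_le_pi _) hxx
          have hneg : 1 - β * cos x ≤ 0 := by
            have : β * cos x0 = 1 := by rw [hcx0, hβ]; field_simp
            nlinarith
          have hge : S0 ≤ s (π - x) + s (π + x) := by
            rcases hx0lt with h7 | h7
            · exact hS x x0 hx.1.le hxx h7
            · -- x0 = b: s (π + b) = 0
              have h8 : s (π + x0) = 0 := by
                rw [h7, ← hsa]
                exact h.out a (le_abs_self a)
              -- s (π - b) ≤ s (π - y) + s (π + y) for y < b, in particular for x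
              have h9 : s (π - x0) ≤ s (π - x) + s (π + x) := by
                -- antitone on [0, π]: s (π - b) ≥ ..., use concavity with a limit
                have h10 : ∀ y, x ≤ y → y < b → s (π - y) ≤ s (π - x) + s (π + x) := by
                  intro y hy1 hy2
                  have := hS x y hx.1.le hy1 hy2
                  have := h.nonneg (π + y)
                  linarith
                exfalso
                -- cos b = sin b / b contradicts tan b > b
                rw [h7] at hcx0
                have hcb : 0 < cos b := by rw [hcx0]; positivity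
                have hb2 : b < π / 2 := by
                  by_contra hcon
                  push Not at hcon
                  exact absurd hcb (not_lt.2 (cos_nonpos_of_pi_div_two_le_of_le hcon (by linarith)))
                have := Real.lt_tan hb0 hb2
                rw [tan_eq_sin_div_cos, lt_div_iff₀ hcb, hcx0] at this
                rw [mul_div_cancel₀ _ hb0.ne'] at this
                exact lt_irrefl _ this
              rw [hS0, h8, add_zero]
              exact h9
          exact mul_le_mul_of_nonpos_right hge hneg
        · have hc : cos x ≤ cos x0 :=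
            cos_le_cos_of_nonneg_of_le_pi hx00 (by linarith [hx.2]) hxx
          have hpos : 0 ≤ 1 - β * cos x := by
            have : β * cos x0 = 1 := by rw [hcx0, hβ]; field_simp
            nlinarith
          exact mul_le_mul_of_nonneg_right (hS x0 x hx00 hxx hx.2) hpos
      have hint : ∫ x in (0 : ℝ)..b, (s (π - x) * (1 - β * cos x) + s (π + x) * (1 - β * cos x)) ≤
          ∫ x in (0 : ℝ)..b, S0 * (1 - β * cos x) := by
        refine intervalIntegral.integral_mono_ae_restrict hb0.le (i5.add i6)
          ((continuous_const.mul hvc).intervalIntegrable _ _) ?_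
        rw [Filter.EventuallyLE, ← restrict_Ioo_eq_restrict_Icc, ae_restrict_iff' measurableSet_Ioo]
        exact Filter.Eventually.of_forall hpt
      refine hint.trans (le_of_eq ?_)
      rw [intervalIntegral.integral_const_mul, int_one_sub, hβs]
      ring
    linarith

/-- the lower bound for the integral -/
theorem lower (h : Sec a s) (ha : a < 2 * π) (hcos : ∫ t, s t * cos t = 0) :
    4.96 * s 0 ≤ ∫ t, s t := by
  have e1 := h.int_eq ha (fun _ => 1) continuous_const (fun _ => rfl)
  have e2 := h.int_eq ha cos continuous_cos cos_neg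
  simp only [mul_one] at e1
  rw [hcos] at e2
  have e2' : ∫ t in (0 : ℝ)..(2 * π), s t * cos t = 0 := by linarith
  rw [e1]
  suffices hs : 2.48 * s 0 ≤ ∫ t in (0 : ℝ)..(2 * π), s t by linarith
  have hpi := pi_pos
  have hpi3 := pi_gt_three
  have hs0 := h.nonneg 0
  have hnn : ∀ x y : ℝ, x ≤ y → 0 ≤ ∫ t in x..y, s t := fun x y hxy =>
    intervalIntegral.integral_nonneg hxy fun t _ => h.nonneg t
  rcases eq_or_lt_of_le hs0 with h0 | h0
  · rw [← h0, mul_zero]
    exact hnn _ _ (by linarith)
  -- splitting of the cosine integral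
  have c1 := intervalIntegral.integral_add_adjacent_intervals
    (h.ii_mul cos continuous_cos 0 (π / 2)) (h.ii_mul cos continuous_cos (π / 2) (2 * π))
  have c2 := intervalIntegral.integral_add_adjacent_intervals
    (h.ii_mul cos continuous_cos (π / 2) (π / 2 + π))
    (h.ii_mul cos continuous_cos (π / 2 + π) (2 * π))
  have c3 : 0 ≤ ∫ t in (π / 2 + π)..(2 * π), s t * cos t := by
    refine intervalIntegral.integral_nonneg (by linarith) fun t ht => ?_
    refine mul_nonneg (h.nonneg t) ?_
    rw [← cos_two_pi_sub]
    exact cos_nonneg_of_mem_Icc ⟨by linarith [ht.2], by linarith [ht.1]⟩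
  have c4 : ∫ t in (π / 2)..(π / 2 + π), s t * cos t =
      -∫ x in (0 : ℝ)..π, s (π / 2 + x) * sin x := by
    have := intervalIntegral.integral_comp_add_left
      (fun t => s t * cos t) (π / 2) (a := 0) (b := π)
    rw [add_zero] at this
    rw [← this, ← intervalIntegral.integral_neg]
    refine intervalIntegral.integral_congr fun t _ => ?_
    simp only [add_comm (π / 2) t, cos_add_pi_div_two]
    ring
  have c5 : ∫ t in (π / 2)..(π / 2 + π), s t = ∫ x in (0 : ℝ)..π, s (π / 2 + x) := by
    have := intervalIntegral.integral_comp_add_left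
      (fun t => s t) (π / 2) (a := 0) (b := π)
    rw [add_zero] at this
    exact this.symm
  set E := ∫ x in (0 : ℝ)..π, s (π / 2 + x) * sin x with hE
  have hAE : ∫ t in (0 : ℝ)..(π / 2), s t * cos t ≤ E := by linarith
  have iis : ∀ x y : ℝ, IntervalIntegrable (fun t => s (π / 2 + t)) volume x y := fun x y =>
    (h.int.comp_add_left (π / 2)).intervalIntegrable
  have iisg : ∀ (g : ℝ → ℝ), Continuous g → ∀ x y : ℝ,
      IntervalIntegrable (fun t => s (π / 2 + t) * g t) volume x y := fun g hg x y =>
    (iis x y).mul_continuousOn hg.continuousOn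
  have hpa : π / 2 < a := by
    by_contra hcon
    push Not at hcon
    have ha0 := h.pos
    have hE0 : E = 0 := by
      rw [hE]
      have : ∫ x in (0 : ℝ)..π, s (π / 2 + x) * sin x = ∫ x in (0 : ℝ)..π, (0 : ℝ) := by
        refine intervalIntegral.integral_congr fun t ht => ?_
        rw [uIcc_of_le hpi.le] at ht
        have h1 : s (π / 2 + t) = 0 := h.out _ (by
          rw [abs_of_nonneg (by linarith [ht.1])]; linarith [ht.1])
        simp only [h1, zero_mul]
      rw [this, intervalIntegral.integral_zero]
    have h1 := intervalIntegral.integral_add_adjacent_intervals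
      (h.ii_mul cos continuous_cos 0 (a / 4)) (h.ii_mul cos continuous_cos (a / 4) (π / 2))
    have h2 : 0 ≤ ∫ t in (a / 4)..(π / 2), s t * cos t := by
      refine intervalIntegral.integral_nonneg (by linarith) fun t ht => ?_
      exact mul_nonneg (h.nonneg t)
        (cos_nonneg_of_mem_Icc ⟨by linarith [ht.1], by linarith [ht.2]⟩)
    have h3 : ∫ t in (0 : ℝ)..(a / 4), (s 0 / 2) * cos (a / 4) ≤
        ∫ t in (0 : ℝ)..(a / 4), s t * cos t := by
      refine intervalIntegral.integral_mono_on (by linarith) (by simp)
        (h.ii_mul cos continuous_cos _ _) fun t ht => ?_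
      have k1 : cos (a / 4) ≤ cos t := cos_le_cos_of_nonneg_of_le_pi ht.1 (by linarith) ht.2
      have k2 : 0 ≤ cos (a / 4) :=
        cos_nonneg_of_mem_Icc ⟨by linarith, by linarith⟩
      have k3 : s 0 / 2 ≤ s t := by
        have m1 : (0 : ℝ) ∈ Ioo (-a) a := ⟨by linarith, ha0⟩
        have m2 : a / 2 ∈ Ioo (-a) a := ⟨by linarith, by linarith⟩
        have w1 : 0 ≤ 1 - t / (a / 2) := by
          rw [sub_nonneg, div_le_one (by linarith)]; linarith [ht.2]
        have w2 : 0 ≤ t / (a / 2) := div_nonneg ht.1 (by linarith)
        have := h.conc.2 m1 m2 w1 w2 (by ring)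
        simp only [smul_eq_mul, mul_zero, zero_add] at this
        rw [div_mul_cancel₀ _ (by linarith : a / 2 ≠ 0)] at this
        have w3 : 1 / 2 ≤ 1 - t / (a / 2) := by
          have : t / (a / 2) ≤ 1 / 2 := by
            rw [div_le_iff₀ (by linarith)]; linarith [ht.2]
          linarith
        have := h.nonneg (a / 2)
        nlinarith
      exact mul_le_mul k3 k1 k2 (h.nonneg t)
    rw [intervalIntegral.integral_const, smul_eq_mul, sub_zero] at h3
    have h4 : 0 < cos (a / 4) := cos_pos_of_mem_Ioo ⟨by linarith, by linarith⟩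
    have h5 : 0 < a / 4 * (s 0 / 2 * cos (a / 4)) := by positivity
    linarith
  set m := s (π / 2) with hm
  have hm0 : 0 ≤ m := h.nonneg _
  have mem0 : (0 : ℝ) ∈ Ioo (-a) a := ⟨by linarith, by linarith⟩
  have memp : π / 2 ∈ Ioo (-a) a := ⟨by linarith, hpa⟩
  -- the chord
  have hch : ∀ t ∈ Icc (0 : ℝ) (π / 2), s 0 - (s 0 - m) * (2 / π) * t ≤ s t := by
    intro t ht
    have w1 : 0 ≤ 1 - t / (π / 2) := by
      rw [sub_nonneg, div_le_one (by linarith)]; exact ht.2
    have w2 : 0 ≤ t / (π / 2) := div_nonneg ht.1 (by linarith)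
    have := h.conc.2 mem0 memp w1 w2 (by ring)
    simp only [smul_eq_mul, mul_zero, zero_add] at this
    rw [div_mul_cancel₀ _ (by linarith : π / 2 ≠ 0), ← hm] at this
    refine le_trans (le_of_eq ?_) this
    field_simp
    ring
  have hgc : Continuous fun t : ℝ => s 0 - (s 0 - m) * (2 / π) * t := by fun_prop
  have hA1 : 2 / π * s 0 + (1 - 2 / π) * m ≤ ∫ t in (0 : ℝ)..(π / 2), s t * cos t := by
    have h1 : ∫ t in (0 : ℝ)..(π / 2), (s 0 - (s 0 - m) * (2 / π) * t) * cos t ≤
        ∫ t in (0 : ℝ)..(π / 2), s t * cos t := by
      refine intervalIntegral.integral_mono_on (by linarith)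
        ((hgc.mul continuous_cos).intervalIntegrable _ _)
        (h.ii_mul cos continuous_cos _ _) fun t ht => ?_
      exact mul_le_mul_of_nonneg_right (hch t ht)
        (cos_nonneg_of_mem_Icc ⟨by linarith [ht.1], by linarith [ht.2]⟩)
    refine le_trans (le_of_eq ?_) h1
    have hd : ∀ x ∈ uIcc (0 : ℝ) (π / 2), HasDerivAt
        (fun x => s 0 * sin x - (s 0 - m) * (2 / π) * (x * sin x + cos x))
        ((s 0 - (s 0 - m) * (2 / π) * x) * cos x) x := by
      intro x _
      have := ((hasDerivAt_sin x).const_mul (s 0)).sub
        ((((hasDerivAt_id x).mul (hasDerivAt_sin x)).add (hasDerivAt_cos x)).const_mul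
          ((s 0 - m) * (2 / π)))
      refine this.congr_deriv ?_
      simp only [id_eq]
      ring
    rw [intervalIntegral.integral_eq_sub_of_hasDerivAt hd
      ((hgc.mul continuous_cos).intervalIntegrable _ _)]
    simp only [sin_pi_div_two, cos_pi_div_two, sin_zero, cos_zero]
    field_simp
    ring
  have hA2 : π / 4 * (s 0 + m) ≤ ∫ t in (0 : ℝ)..(π / 2), s t := by
    have h1 : ∫ t in (0 : ℝ)..(π / 2), (s 0 - (s 0 - m) * (2 / π) * t) ≤
        ∫ t in (0 : ℝ)..(π / 2), s t :=
      intervalIntegral.integral_mono_on (by linarith) (hgc.intervalIntegrable _ _)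
        (h.ii _ _) hch
    refine le_trans (le_of_eq ?_) h1
    have hd : ∀ x ∈ uIcc (0 : ℝ) (π / 2), HasDerivAt
        (fun x => s 0 * x - (s 0 - m) * (2 / π) * (x ^ 2 / 2))
        (s 0 - (s 0 - m) * (2 / π) * x) x := by
      intro x _
      have := ((hasDerivAt_id x).const_mul (s 0)).sub
        ((((hasDerivAt_id x).pow 2).div_const 2).const_mul ((s 0 - m) * (2 / π)))
      refine this.congr_deriv ?_
      simp only [id_eq]
      push_cast
      ring
    rw [intervalIntegral.integral_eq_sub_of_hasDerivAt hd (hgc.intervalIntegrable _ _)]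
    field_simp
    ring
  -- the value at π / 2 is large
  have hmm : 2 / 3 * s 0 < m := by
    by_contra hcon
    push Not at hcon
    have hup : ∀ x ∈ Icc (0 : ℝ) π, s (π / 2 + x) ≤ m * (1 - x / π) := by
      intro x hx
      have hx1 : 0 ≤ 1 - x / π := by rw [sub_nonneg, div_le_one hpi]; exact hx.2
      rcases lt_or_ge (π / 2 + x) a with hxa | hxa
      · have hpx : 0 < π / 2 + x := by linarith [hx.1]
        have w1 : 0 ≤ x / (π / 2 + x) := div_nonneg hx.1 hpx.le
        have w2 : 0 ≤ (π / 2) / (π / 2 + x) := by positivity
        have w : x / (π / 2 + x) + (π / 2) / (π / 2 + x) = 1 := by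
          rw [← add_div, add_comm x, div_self hpx.ne']
        have memx : π / 2 + x ∈ Ioo (-a) a := ⟨by linarith, hxa⟩
        have := h.conc.2 mem0 memx w1 w2 w
        simp only [smul_eq_mul, mul_zero, zero_add] at this
        rw [div_mul_cancel₀ _ hpx.ne', ← hm, div_mul_eq_mul_div, div_mul_eq_mul_div, ← add_div,
          div_le_iff₀ hpx] at this
        have h1 : m * (1 - x / π) = m - m * x / π := by ring
        rw [h1]
        have h2 : x * (3 / 2 * m) ≤ x * s 0 := mul_le_mul_of_nonneg_left (by linarith) hx.1
        have h3 : π / 2 * s (π / 2 + x) ≤ π / 2 * (m - m * x / π) := by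
          have : π / 2 * (m - m * x / π) = π / 2 * m - m * x / 2 := by field_simp
          rw [this]
          nlinarith
        exact le_of_mul_le_mul_left h3 (by positivity)
      · rw [h.out _ (by rw [abs_of_nonneg (by linarith [hx.1])]; exact hxa)]
        exact mul_nonneg hm0 hx1
    have hEm : E ≤ m := by
      have hc : Continuous fun x : ℝ => m * (1 - x / π) * sin x := by fun_prop
      have h1 : E ≤ ∫ x in (0 : ℝ)..π, m * (1 - x / π) * sin x := by
        rw [hE]
        refine intervalIntegral.integral_mono_on hpi.le (iisg sin continuous_sin _ _)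
          (hc.intervalIntegrable _ _) fun x hx => ?_
        exact mul_le_mul_of_nonneg_right (hup x hx) (sin_nonneg_of_mem_Icc hx)
      refine h1.trans (le_of_eq ?_)
      have hd : ∀ x ∈ uIcc (0 : ℝ) π, HasDerivAt
          (fun x => m * (-cos x - (sin x - x * cos x) / π))
          (m * (1 - x / π) * sin x) x := by
        intro x _
        have := (((hasDerivAt_cos x).neg).sub
          (((hasDerivAt_sin x).sub ((hasDerivAt_id x).mul (hasDerivAt_cos x))).div_const
            π)).const_mul m
        refine this.congr_deriv ?_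
        simp only [id_eq]
        ring
      rw [intervalIntegral.integral_eq_sub_of_hasDerivAt hd (hc.intervalIntegrable _ _)]
      simp only [sin_pi, cos_pi, sin_zero, cos_zero]
      field_simp
      ring
    have h2 : 2 / π * s 0 + (1 - 2 / π) * m ≤ m := hA1.trans (hAE.trans hEm)
    have h3 : 2 / π * (s 0 - m) ≤ 0 := by linarith
    have h4 : 0 < 2 / π * (s 0 - m) := by
      apply mul_pos (by positivity)
      linarith
    linarith
  -- the middle part
  have hmid : 4 / 3 * E ≤ ∫ x in (0 : ℝ)..π, s (π / 2 + x) := by
    set x1 := arcsin (3 / 4) with hx1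
    have hsx : sin x1 = 3 / 4 := sin_arcsin (by norm_num) (by norm_num)
    have hx10 : 0 ≤ x1 := arcsin_nonneg.2 (by norm_num)
    have hx1p : x1 ≤ π / 2 := arcsin_le_pi_div_two _
    have hcx0 : 0 ≤ cos x1 := cos_nonneg_of_mem_Icc ⟨by linarith, hx1p⟩
    have hcx : cos x1 ≤ 0.6615 := by
      have := sin_sq_add_cos_sq x1
      rw [hsx] at this
      nlinarith
    have hx1b : x1 ≤ 0.87 := by
      have h1 : x1 ≤ 1 := by
        by_contra hcon
        push Not at hcon
        have h2 : sin 1 < sin x1 := sin_lt_sin_of_lt_of_le_pi_div_two (by linarith) hx1p hcon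
        have h3 := Real.sin_gt_sub_cube (x := 1) one_pos
        rw [hsx] at h2
        norm_num at h3
        linarith
      rcases eq_or_lt_of_le hx10 with h2 | h2
      · rw [← h2]; norm_num
      · have h3 := Real.sin_gt_sub_cube (x := x1) h2
        rw [hsx] at h3
        by_contra hcon
        push Not at hcon
        have h4 : 0 ≤ 1 - (x1 ^ 2 + 0.87 * x1 + 0.7569) / 6 := by nlinarith
        have h5 := mul_nonneg (sub_nonneg.2 hcon.le) h4
        nlinarith
    have hpd := pi_gt_d2
    have hwc : Continuous fun x : ℝ => 1 - 4 / 3 * sin x := by fun_prop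
    have hrew : (∫ x in (0 : ℝ)..π, s (π / 2 + x)) - 4 / 3 * E =
        ∫ x in (0 : ℝ)..π, s (π / 2 + x) * (1 - 4 / 3 * sin x) := by
      rw [hE, ← intervalIntegral.integral_const_mul, ← intervalIntegral.integral_sub (iis _ _)
        ((iisg sin continuous_sin _ _).const_mul _)]
      refine intervalIntegral.integral_congr fun t _ => ?_
      ring
    have hsp := intervalIntegral.integral_add_adjacent_intervals
      (iisg _ hwc 0 (π - x1)) (iisg _ hwc (π - x1) π)
    have h2 : 0 ≤ ∫ x in (π - x1)..π, s (π / 2 + x) * (1 - 4 / 3 * sin x) := by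
      refine intervalIntegral.integral_nonneg (by linarith) fun t ht => ?_
      refine mul_nonneg (h.nonneg _) ?_
      have : sin t ≤ sin x1 := by
        rw [← sin_pi_sub t]
        exact sin_le_sin_of_le_of_le_pi_div_two (by linarith [ht.2]) hx1p (by linarith [ht.1])
      rw [hsx] at this
      linarith
    have h3 : ∫ x in (0 : ℝ)..(π - x1), s (π / 2 + x1) * (1 - 4 / 3 * sin x) ≤
        ∫ x in (0 : ℝ)..(π - x1), s (π / 2 + x) * (1 - 4 / 3 * sin x) := by
      refine intervalIntegral.integral_mono_on (by linarith)
        ((continuous_const.mul hwc).intervalIntegrable _ _) (iisg _ hwc _ _) fun t ht => ?_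
      rcases le_total t x1 with ht1 | ht1
      · have k1 : s (π / 2 + x1) ≤ s (π / 2 + t) :=
          h.anti (mem_Ici.2 (by linarith [ht.1])) (mem_Ici.2 (by linarith)) (by linarith)
        have k2 : sin t ≤ sin x1 :=
          sin_le_sin_of_le_of_le_pi_div_two (by linarith [ht.1]) hx1p ht1
        rw [hsx] at k2
        exact mul_le_mul_of_nonneg_right k1 (by linarith)
      · have k1 : s (π / 2 + t) ≤ s (π / 2 + x1) :=
          h.anti (mem_Ici.2 (by linarith)) (mem_Ici.2 (by linarith [ht.1])) (by linarith)
        have k2 : sin x1 ≤ sin t := by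
          rcases le_total t (π / 2) with ht2 | ht2
          · exact sin_le_sin_of_le_of_le_pi_div_two (by linarith) ht2 ht1
          · rw [← sin_pi_sub t]
            exact sin_le_sin_of_le_of_le_pi_div_two (by linarith) (by linarith) (by linarith [ht.2])
        rw [hsx] at k2
        exact mul_le_mul_of_nonpos_right k1 (by linarith)
    have h4 : ∫ x in (0 : ℝ)..(π - x1), s (π / 2 + x1) * (1 - 4 / 3 * sin x) =
        s (π / 2 + x1) * (π - x1 - 4 / 3 * (1 + cos x1)) := by
      have hd : ∀ x ∈ uIcc (0 : ℝ) (π - x1), HasDerivAt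
          (fun x => s (π / 2 + x1) * (x + 4 / 3 * cos x))
          (s (π / 2 + x1) * (1 - 4 / 3 * sin x)) x := by
        intro x _
        have := ((hasDerivAt_id x).add ((hasDerivAt_cos x).const_mul (4 / 3))).const_mul
          (s (π / 2 + x1))
        refine this.congr_deriv ?_
        ring
      rw [intervalIntegral.integral_eq_sub_of_hasDerivAt hd
        ((continuous_const.mul hwc).intervalIntegrable _ _), cos_pi_sub, cos_zero]
      ring
    rw [h4] at h3
    have h5 : 0 ≤ s (π / 2 + x1) * (π - x1 - 4 / 3 * (1 + cos x1)) := by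
      refine mul_nonneg (h.nonneg _) ?_
      linarith
    linarith
  -- conclusion
  have d1 := intervalIntegral.integral_add_adjacent_intervals
    (h.ii 0 (π / 2)) (h.ii (π / 2) (2 * π))
  have d2 := intervalIntegral.integral_add_adjacent_intervals
    (h.ii (π / 2) (π / 2 + π)) (h.ii (π / 2 + π) (2 * π))
  have d3 := hnn (π / 2 + π) (2 * π) (by linarith)
  have hEl : 2 / π * s 0 + (1 - 2 / π) * m ≤ E := hA1.trans hAE
  have hfin : 2.48 * s 0 ≤ π / 4 * (s 0 + m) + 4 / 3 * (2 / π * s 0 + (1 - 2 / π) * m) := by
    have q1 := pi_gt_d4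
    have q2 := pi_lt_d4
    have q3 : 0.63661 ≤ 2 / π := by rw [le_div_iff₀ hpi]; linarith
    have q4 : 2 / π ≤ 0.63665 := by rw [div_le_iff₀ hpi]; linarith
    have r1 : π / 4 * (s 0 + m) ≥ 0.78535 * (s 0 + m) :=
      mul_le_mul_of_nonneg_right (by linarith) (by linarith)
    have r2 : 2 / π * s 0 ≥ 0.63661 * s 0 := mul_le_mul_of_nonneg_right q3 h0.le
    have r3 : (1 - 2 / π) * m ≥ (1 - 0.63665) * m := mul_le_mul_of_nonneg_right (by linarith) hm0
    linarith
  linarith

end Sec

end Pool.Agent.TH298.Sch
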