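import Mathlib
import Pool.Agent.TH298.Sch.One

/-!
The section functions of a symmetric convex set of the plane.
-/

set_option autoImplicit false

namespace Pool.Agent.TH298.Sch

open MeasureTheory Set Real Filter Topology Metric

/-- the point with the coordinates t, y -/
noncomputable def pt (t y : ℝ) : ℂ := (t : ℂ) + y * Complex.I

theorem pt_re (t y : ℝ) : (pt t y).re = t := by simp [pt]
theorem pt_im (t y : ℝ) : (pt t y).im = y := by simp [pt]

theorem pt_eta (z : ℂ) : pt z.re z.im = z := Complex.re_add_im z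

theorem pt_cont : Continuous fun p : ℝ × ℝ => pt p.1 p.2 := by
  unfold pt
  fun_prop

theorem pt_comb (a b t y t' y' : ℝ) :
    a • pt t y + b • pt t' y' = pt (a * t + b * t') (a * y + b * y') := by
  apply Complex.ext <;> simp [pt]

theorem pt_neg (t y : ℝ) : -pt t y = pt (-t) (-y) := by
  apply Complex.ext <;> simp [pt]

/-- the section -/
def W (P : Set ℂ) (t : ℝ) : Set ℝ := {y | pt t y ∈ P}

/-- the length of the section -/
noncomputable def sec (P : Set ℂ) (t : ℝ) : ℝ := (volume (W P t)).toReal

/-- an open bounded nonempty convex set of the line is an interval -/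
theorem interval_of {S : Set ℝ} (ho : IsOpen S) (hc : Convex ℝ S) (hb : Bornology.IsBounded S)
    (hne : S.Nonempty) : S = Ioo (sInf S) (sSup S) := by
  have hba : BddAbove S := hb.bddAbove
  have hbb : BddBelow S := hb.bddBelow
  ext y
  constructor
  · intro hy
    obtain ⟨δ, hδ0, hδ⟩ := Metric.isOpen_iff.1 ho y hy
    have h1 : y + δ / 2 ∈ S := hδ (by
      rw [mem_ball, Real.dist_eq, add_sub_cancel_left, abs_of_pos (by linarith)]; linarith)
    have h2 : y - δ / 2 ∈ S := hδ (by
      rw [mem_ball, Real.dist_eq, sub_sub_cancel_left, abs_neg, abs_of_pos (by linarith)]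
      linarith)
    have h3 := le_csSup hba h1
    have h4 := csInf_le hbb h2
    constructor <;> linarith
  · rintro ⟨h1, h2⟩
    obtain ⟨a, ha, hay⟩ := exists_lt_of_csInf_lt hne h1
    obtain ⟨b, hb', hby⟩ := exists_lt_of_lt_csSup hne h2
    have : y ∈ segment ℝ a b := by
      rw [segment_eq_Icc (by linarith)]
      exact ⟨hay.le, hby.le⟩
    exact hc.segment_subset ha hb' this

section sec

variable {P : Set ℂ}

theorem W_open (ho : IsOpen P) (t : ℝ) : IsOpen (W P t) :=
  ho.preimage (pt_cont.comp (continuous_const.prodMk continuous_id))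

theorem W_bdd (hb : Bornology.IsBounded P) (t : ℝ) : Bornology.IsBounded (W P t) := by
  obtain ⟨R, hR⟩ := hb.subset_closedBall 0
  refine (isBounded_closedBall (x := (0 : ℝ)) (r := R)).subset fun y hy => ?_
  have h1 := hR hy
  rw [mem_closedBall_zero_iff] at h1 ⊢
  rw [Real.norm_eq_abs]
  have h2 := Complex.abs_im_le_norm (pt t y)
  rw [pt_im] at h2
  linarith

theorem W_comb (hc : Convex ℝ P) {a b t t' y y' : ℝ} (ha : 0 ≤ a) (hb : 0 ≤ b) (hab : a + b = 1)
    (hy : y ∈ W P t) (hy' : y' ∈ W P t') : a * y + b * y' ∈ W P (a * t + b * t') := by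
  have := hc hy hy' ha hb hab
  rw [pt_comb] at this
  exact this

theorem W_conv (hc : Convex ℝ P) (t : ℝ) : Convex ℝ (W P t) := by
  intro y hy y' hy' a b ha hb hab
  have := W_comb hc ha hb hab hy hy'
  rw [← add_mul, hab, one_mul] at this
  exact this

theorem sec_eq (ho : IsOpen P) (hc : Convex ℝ P) (hb : Bornology.IsBounded P) {t : ℝ}
    (hne : (W P t).Nonempty) : sec P t = sSup (W P t) - sInf (W P t) := by
  unfold sec
  have h := interval_of (W_open ho t) (W_conv hc t) (W_bdd hb t) hne
  have h2 : sInf (W P t) ≤ sSup (W P t) := by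
    obtain ⟨y, hy⟩ := hne
    exact (csInf_le (W_bdd hb t).bddBelow hy).trans (le_csSup (W_bdd hb t).bddAbove hy)
  conv_lhs => rw [h]
  rw [Real.volume_Ioo, ENNReal.toReal_ofReal (by linarith)]

/-- concavity -/
theorem sec_conc (ho : IsOpen P) (hc : Convex ℝ P) (hb : Bornology.IsBounded P)
    {T : Set ℝ} (hT : Convex ℝ T) (hne : ∀ t ∈ T, (W P t).Nonempty) : ConcaveOn ℝ T (sec P) := by
  refine ⟨hT, ?_⟩
  intro t ht t' ht' a b ha hb' hab
  have htt := hT ht ht' ha hb' hab
  simp only [smul_eq_mul] at htt ⊢
  rw [sec_eq ho hc hb (hne t ht), sec_eq ho hc hb (hne t' ht'), sec_eq ho hc hb (hne _ htt)]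
  have hsup : a * sSup (W P t) + b * sSup (W P t') ≤ sSup (W P (a * t + b * t')) := by
    refine le_of_forall_pos_le_add fun δ hδ => ?_
    obtain ⟨y, hy, hy1⟩ := exists_lt_of_lt_csSup (hne t ht)
      (show sSup (W P t) - δ < sSup (W P t) by linarith)
    obtain ⟨y', hy', hy1'⟩ := exists_lt_of_lt_csSup (hne t' ht')
      (show sSup (W P t') - δ < sSup (W P t') by linarith)
    have h1 := le_csSup (W_bdd hb _).bddAbove (W_comb hc ha hb' hab hy hy')
    have h2 : a * sSup (W P t) ≤ a * (y + δ) := mul_le_mul_of_nonneg_left (by linarith) ha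
    have h3 : b * sSup (W P t') ≤ b * (y' + δ) := mul_le_mul_of_nonneg_left (by linarith) hb'
    have h4 : a * (y + δ) + b * (y' + δ) = a * y + b * y' + δ := by
      rw [show a * (y + δ) + b * (y' + δ) = a * y + b * y' + (a + b) * δ by ring, hab, one_mul]
    linarith
  have hinf : sInf (W P (a * t + b * t')) ≤ a * sInf (W P t) + b * sInf (W P t') := by
    refine le_of_forall_pos_le_add fun δ hδ => ?_
    obtain ⟨y, hy, hy1⟩ := exists_lt_of_csInf_lt (hne t ht)
      (show sInf (W P t) < sInf (W P t) + δ by linarith)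
    obtain ⟨y', hy', hy1'⟩ := exists_lt_of_csInf_lt (hne t' ht')
      (show sInf (W P t') < sInf (W P t') + δ by linarith)
    have h1 := csInf_le (W_bdd hb _).bddBelow (W_comb hc ha hb' hab hy hy')
    have h2 : a * (y - δ) ≤ a * sInf (W P t) := mul_le_mul_of_nonneg_left (by linarith) ha
    have h3 : b * (y' - δ) ≤ b * sInf (W P t') := mul_le_mul_of_nonneg_left (by linarith) hb'
    have h4 : a * (y - δ) + b * (y' - δ) = a * y + b * y' - δ := by
      rw [show a * (y - δ) + b * (y' - δ) = a * y + b * y' - (a + b) * δ by ring, hab, one_mul]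
    linarith
  linarith

theorem sec_nonneg (P : Set ℂ) (t : ℝ) : 0 ≤ sec P t := ENNReal.toReal_nonneg

theorem W_neg (hs : ∀ z ∈ P, -z ∈ P) (t : ℝ) : W P (-t) = -W P t := by
  ext y
  rw [Set.mem_neg]
  unfold W
  rw [mem_setOf_eq, mem_setOf_eq]
  constructor
  · intro h
    have := hs _ h
    rwa [pt_neg, neg_neg] at this
  · intro h
    have := hs _ h
    rwa [pt_neg, neg_neg] at this

theorem sec_even (hs : ∀ z ∈ P, -z ∈ P) (t : ℝ) : sec P (-t) = sec P t := by
  unfold sec
  rw [W_neg hs, Measure.measure_neg]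

/-- Fubini -/
theorem sec_fub (ho : IsOpen P) (hb : Bornology.IsBounded P) (g : ℝ → ℝ) (hg : Continuous g)
    {C : ℝ} (hC : ∀ t, |g t| ≤ C) :
    Integrable (fun t => sec P t * g t) ∧ ∫ t, sec P t * g t = ∫ z in P, g z.re := by
  have hm := ho.measurableSet
  have hind : Integrable (P.indicator fun z => g z.re) := by
    rw [integrable_indicator_iff hm]
    have : IsFiniteMeasure (volume.restrict P) := ⟨by
      rw [Measure.restrict_apply_univ]; exact hb.measure_lt_top⟩
    refine Integrable.of_bound (C := C) ?_ (Eventually.of_forall fun z => hC _)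
    exact (hg.comp Complex.continuous_re).aestronglyMeasurable
  have hmp := Complex.volume_preserving_equiv_real_prod.symm
  have he : MeasurableEmbedding Complex.measurableEquivRealProd.symm :=
    Complex.measurableEquivRealProd.symm.measurableEmbedding
  have hsymm : ∀ p : ℝ × ℝ, Complex.measurableEquivRealProd.symm p = pt p.1 p.2 := by
    intro p
    rw [pt]
    apply Complex.ext <;> simp
  have h1 : Integrable (fun p : ℝ × ℝ => P.indicator (fun z => g z.re) (pt p.1 p.2)) := by
    have := (hmp.integrable_comp_emb he).2 hind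
    refine this.congr (Eventually.of_forall fun p => ?_)
    simp only [Function.comp_apply, hsymm]
  have h2 : ∫ z, P.indicator (fun z => g z.re) z =
      ∫ p : ℝ × ℝ, P.indicator (fun z => g z.re) (pt p.1 p.2) := by
    rw [← hmp.integral_comp he]
    refine integral_congr_ae (Eventually.of_forall fun p => ?_)
    simp only [hsymm]
  have h3 : ∀ t : ℝ, ∫ y, P.indicator (fun z => g z.re) (pt t y) = sec P t * g t := by
    intro t
    have : (fun y => P.indicator (fun z => g z.re) (pt t y)) =
        (W P t).indicator fun _ => g t := by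
      funext y
      by_cases hy : pt t y ∈ P
      · rw [indicator_of_mem hy, indicator_of_mem (show y ∈ W P t from hy), pt_re]
      · rw [indicator_of_notMem hy, indicator_of_notMem (show y ∉ W P t from hy)]
    rw [this, integral_indicator (W_open ho t).measurableSet, setIntegral_const, smul_eq_mul]
    rfl
  have h1' : Integrable (fun p : ℝ × ℝ => P.indicator (fun z => g z.re) (pt p.1 p.2))
      ((volume : Measure ℝ).prod volume) := h1
  constructor
  · have := h1'.integral_prod_left
    simp only [h3] at this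
    exact this
  · rw [← integral_indicator hm, h2]
    have := integral_prod _ h1'
    simp only [h3] at this
    exact this.symm

/-- the section function of an open bounded convex symmetric set -/
theorem sec_Sec (ho : IsOpen P) (hc : Convex ℝ P) (hb : Bornology.IsBounded P)
    (hne : P.Nonempty) (hs : ∀ z ∈ P, -z ∈ P) :
    Sec (sSup (Complex.re '' P)) (sec P) := by
  have hba : BddAbove (Complex.re '' P) := by
    obtain ⟨R, hR⟩ := hb.subset_closedBall 0
    refine ⟨R, ?_⟩
    rintro _ ⟨x, hx, rfl⟩
    have := hR hx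
    rw [mem_closedBall_zero_iff] at this
    exact (le_abs_self _).trans ((Complex.abs_re_le_norm x).trans this)
  have hlt : ∀ z ∈ P, z.re < sSup (Complex.re '' P) := by
    intro z hz
    obtain ⟨δ, hδ0, hδ⟩ := Metric.isOpen_iff.1 ho z hz
    have h1 : z + ((δ / 2 : ℝ) : ℂ) ∈ P := hδ (by
      rw [mem_ball, dist_eq_norm, add_sub_cancel_left, Complex.norm_real, Real.norm_eq_abs,
        abs_of_pos (by linarith)]
      linarith)
    have h2 := le_csSup hba (mem_image_of_mem Complex.re h1)
    rw [Complex.add_re, Complex.ofReal_re] at h2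
    linarith
  have hnt : ∀ t : ℝ, |t| < sSup (Complex.re '' P) → (W P t).Nonempty := by
    intro t ht
    obtain ⟨_, ⟨z, hz, rfl⟩, hzt⟩ := exists_lt_of_lt_csSup (hne.image _) ht
    have hz0 : 0 < z.re := (abs_nonneg t).trans_lt hzt
    have h1 : |t / z.re| ≤ 1 := by
      rw [abs_div, abs_of_pos hz0, div_le_one hz0]; exact hzt.le
    rw [abs_le] at h1
    have h2 := hc (hs z hz) hz (a := (1 - t / z.re) / 2) (b := (1 + t / z.re) / 2)
      (by linarith [h1.2]) (by linarith [h1.1]) (by ring)
    refine ⟨(t / z.re) * z.im, ?_⟩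
    have h3 : ((1 - t / z.re) / 2) • (-z) + ((1 + t / z.re) / 2) • z =
        pt t ((t / z.re) * z.im) := by
      apply Complex.ext
      · simp only [pt_re, Complex.add_re, Complex.real_smul, Complex.re_ofReal_mul,
          Complex.neg_re]
        field_simp
        ring
      · simp only [pt_im, Complex.add_im, Complex.real_smul, Complex.im_ofReal_mul,
          Complex.neg_im]
        ring
    rw [h3] at h2
    exact h2
  obtain ⟨z0, hz0⟩ := hne
  have hpos : 0 < sSup (Complex.re '' P) := by
    have h1 := hlt z0 hz0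
    have h2 := hlt _ (hs z0 hz0)
    rw [Complex.neg_re] at h2
    linarith
  refine ⟨hpos, sec_nonneg P, sec_even hs, ?_, ?_, ?_⟩
  · intro t ht
    have : W P t = ∅ := by
      by_contra hcon
      obtain ⟨y, hy⟩ := nonempty_iff_ne_empty.2 hcon
      have h1 := hlt _ hy
      have h2 := hlt _ (hs _ hy)
      rw [Complex.neg_re] at h2
      rw [pt_re] at h1 h2
      have : |t| < sSup (Complex.re '' P) := abs_lt.2 ⟨by linarith, h1⟩
      linarith
    rw [sec, this]
    simp
  · refine sec_conc ho hc hb (convex_Ioo _ _) fun t ht => hnt t (abs_lt.2 ht)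
  · have := (sec_fub ho hb (fun _ => 1) continuous_const (C := 1) (fun _ => by simp)).1
    simpa only [mul_one] using this

/-- the central section -/
theorem sec_zero (ho : IsOpen P) (hc : Convex ℝ P) (hb : Bornology.IsBounded P)
    (hs : ∀ z ∈ P, -z ∈ P) (hne : P.Nonempty) (y : ℝ) : y * Complex.I ∈ P ↔ 2 * |y| < sec P 0 := by
  have hz : (0 : ℂ) ∈ P := by
    obtain ⟨z, hz⟩ := hne
    have := hc hz (hs z hz) (a := 1 / 2) (b := 1 / 2) (by norm_num) (by norm_num) (by norm_num)
    rw [smul_neg, add_neg_cancel] at this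
    exact this
  have hW0 : (0 : ℝ) ∈ W P 0 := by
    change pt 0 0 ∈ P
    unfold pt
    simpa using hz
  have hne0 : (W P 0).Nonempty := ⟨0, hW0⟩
  have h1 := interval_of (W_open ho 0) (W_conv hc 0) (W_bdd hb 0) hne0
  have hneg : W P 0 = -W P 0 := by
    have := W_neg hs 0
    rwa [neg_zero] at this
  have h2 : sInf (W P 0) = -sSup (W P 0) := by
    have h3 := Real.sInf_neg (W P 0)
    rw [← hneg] at h3
    exact h3
  rw [sec_eq ho hc hb hne0, h2]
  have h3 : y * Complex.I ∈ P ↔ y ∈ W P 0 := by
    unfold W pt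
    simp
  rw [h3, h1, mem_Ioo, ← h1, h2]
  constructor
  · rintro ⟨a, b⟩
    have : |y| < sSup (W P 0) := abs_lt.2 ⟨a, b⟩
    linarith
  · intro h
    have : |y| < sSup (W P 0) := by linarith
    exact abs_lt.1 this

end sec

end Pool.Agent.TH298.Sch
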