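import Mathlib
import Pool.Agent.TH298.Sch.Lim
import Pool.Agent.TH298.Sch.RotInv
import Pool.Agent.TH298.Sch.Sect
import Pool.Agent.TH298.Sch.Avg

/-!
Convex centrally symmetric sets: the first band.
-/

set_option autoImplicit false

namespace Pool.Agent.TH298.Sch

open MeasureTheory Set Real Filter Topology Metric
open scoped ContDiff ComplexConjugate

/-! ### the comparison function for n = 2 -/

theorem comp_two {S : ℝ} (hS : S ≤ 13 / 2) : ∃ z z1 z2 : ℝ → ℝ, Comp 2 S z z1 z2 := by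
  refine ⟨fun s => 1 - s / 3 + s ^ 2 / 24 - s ^ 3 / 360 + s ^ 4 / 8640 - s ^ 5 / 302400 +
      s ^ 6 / 14515200 - s ^ 7 / 914457600,
    fun s => -1 / 3 + s / 12 - s ^ 2 / 120 + s ^ 3 / 2160 - s ^ 4 / 60480 +
      s ^ 5 / 2419200 - s ^ 6 / 130636800,
    fun s => 1 / 12 - s / 60 + s ^ 2 / 720 - s ^ 3 / 15120 + s ^ 4 / 483840 - s ^ 5 / 21772800,
    ?_, ?_, ?_, ?_⟩
  · intro s
    have h := ((((((((hasDerivAt_const s (1 : ℝ)).sub ((hasDerivAt_id s).div_const 3)).add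
      (((hasDerivAt_id s).pow 2).div_const 24)).sub (((hasDerivAt_id s).pow 3).div_const 360)).add
      (((hasDerivAt_id s).pow 4).div_const 8640)).sub
      (((hasDerivAt_id s).pow 5).div_const 302400)).add
      (((hasDerivAt_id s).pow 6).div_const 14515200)).sub
      (((hasDerivAt_id s).pow 7).div_const 914457600))
    refine h.congr_deriv ?_
    simp only [id_eq]
    push_cast
    ring
  · intro s
    have h := (((((((hasDerivAt_const s (-1 / 3 : ℝ)).add ((hasDerivAt_id s).div_const 12)).sub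
      (((hasDerivAt_id s).pow 2).div_const 120)).add (((hasDerivAt_id s).pow 3).div_const 2160)).sub
      (((hasDerivAt_id s).pow 4).div_const 60480)).add
      (((hasDerivAt_id s).pow 5).div_const 2419200)).sub
      (((hasDerivAt_id s).pow 6).div_const 130636800))
    refine h.congr_deriv ?_
    simp only [id_eq]
    push_cast
    ring
  · intro s hs
    obtain ⟨t, ht⟩ : ∃ t, t = 13 / 2 - s := ⟨_, rfl⟩
    have ht0 : 0 ≤ t := by linarith [hs.2]
    have hst : s = 13 / 2 - t := by linarith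
    have e : 1 - s / 3 + s ^ 2 / 24 - s ^ 3 / 360 + s ^ 4 / 8640 - s ^ 5 / 302400 +
      s ^ 6 / 14515200 - s ^ 7 / 914457600 = 444512489 / 117050572800 +
      70071257 / 1672151040 * t + 13010717 / 1393459200 * t ^ 2 + 357673 / 418037760 * t ^ 3 +
      8657 / 209018880 * t ^ 4 + 277 / 174182400 * t ^ 5 + 1 / 52254720 * t ^ 6 +
      1 / 914457600 * t ^ 7 := by
      rw [hst]
      ring
    rw [e]
    positivity
  · intro s hs
    have e : s * (1 / 12 - s / 60 + s ^ 2 / 720 - s ^ 3 / 15120 + s ^ 4 / 483840 -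
        s ^ 5 / 21772800) + ((2 : ℕ) + 1) * (-1 / 3 + s / 12 - s ^ 2 / 120 + s ^ 3 / 2160 -
        s ^ 4 / 60480 + s ^ 5 / 2419200 - s ^ 6 / 130636800) +
        (1 - s / 3 + s ^ 2 / 24 - s ^ 3 / 360 + s ^ 4 / 8640 - s ^ 5 / 302400 +
        s ^ 6 / 14515200 - s ^ 7 / 914457600) = -(s ^ 7 / 914457600) := by
      push_cast
      ring
    rw [e]
    have := pow_nonneg hs.1 7
    linarith

variable {Ω : Set ℂ} {lam c : ℝ} {u : ℂ → ℝ} {G : ℂ → ℂ}

/-- the rotated and scaled set -/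
def PP (Ω : Set ℂ) (k θ : ℝ) : Set ℂ := {z | ro θ * ((k⁻¹ : ℝ) • z) ∈ Ω}

theorem PP_int (hm : MeasurableSet Ω) {k : ℝ} (hk : 0 < k) (θ : ℝ) (g : ℂ → ℝ) :
    ∫ z in PP Ω k θ, g z = k ^ 2 * ∫ x in Ω, g (k • (conj (ro θ) * x)) := by
  have hcz : conj (ro θ) * ro θ = 1 := conj_mul_self' (norm_ro θ)
  have hPm : MeasurableSet (PP Ω k θ) := by
    have : Measurable fun z : ℂ => ro θ * ((k⁻¹ : ℝ) • z) := by fun_prop
    exact this hm
  have h1 : ∫ z, (PP Ω k θ).indicator g z =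
      ∫ z, (fun w => Ω.indicator (fun x => g (k • (conj (ro θ) * x))) (ro θ * w))
        ((k⁻¹ : ℝ) • z) := by
    refine integral_congr_ae (Eventually.of_forall fun z => ?_)
    simp only []
    by_cases hz : z ∈ PP Ω k θ
    · rw [indicator_of_mem hz, indicator_of_mem (show ro θ * ((k⁻¹ : ℝ) • z) ∈ Ω from hz),
        ← mul_assoc, hcz, one_mul, smul_smul, mul_inv_cancel₀ hk.ne', one_smul]
    · rw [indicator_of_notMem hz, indicator_of_notMem (show ro θ * ((k⁻¹ : ℝ) • z) ∉ Ω from hz)]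
  rw [← integral_indicator hPm, h1, Measure.integral_comp_smul volume
    (fun w => Ω.indicator (fun x => g (k • (conj (ro θ) * x))) (ro θ * w)) (k⁻¹ : ℝ),
    (mp_rot (norm_ro θ)).integral_comp (me_rot (norm_ro θ))
      (fun w => Ω.indicator (fun x => g (k • (conj (ro θ) * x))) w),
    integral_indicator hm, Complex.finrank_real_complex, smul_eq_mul]
  congr 1
  rw [inv_pow, inv_inv, abs_of_pos (by positivity)]

/-- the geometric estimates -/
theorem geo (ho : IsOpen Ω) (hcv : Convex ℝ Ω) (hb : Bornology.IsBounded Ω) (hne : Ω.Nonempty)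
    (hs : ∀ x ∈ Ω, -x ∈ Ω) {k : ℝ} (hk : 0 < k) (hd : k * diam Ω < 4 * π)
    (hft : ∀ ξ : ℂ, ‖ξ‖ = k → ∫ x in Ω, Real.cos (inner ℝ ξ x) = 0) :
    ∀ x ∈ Ω, ‖x‖ ≤ 5.07 / k := by
  have hpi := pi_pos
  -- the sets
  have hPo : ∀ θ, IsOpen (PP Ω k θ) := fun θ => ho.preimage (by fun_prop)
  have hPc : ∀ θ, Convex ℝ (PP Ω k θ) := by
    intro θ z hz w hw a b ha hb' hab
    have h1 := hcv hz hw ha hb' hab
    change ro θ * ((k⁻¹ : ℝ) • (a • z + b • w)) ∈ Ω
    have : ro θ * ((k⁻¹ : ℝ) • (a • z + b • w)) =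
        a • (ro θ * ((k⁻¹ : ℝ) • z)) + b • (ro θ * ((k⁻¹ : ℝ) • w)) := by
      simp only [Complex.real_smul]
      ring
    rw [this]
    exact h1
  have hPs : ∀ θ, ∀ z ∈ PP Ω k θ, -z ∈ PP Ω k θ := by
    intro θ z hz
    have h1 := hs _ hz
    change ro θ * ((k⁻¹ : ℝ) • (-z)) ∈ Ω
    rw [smul_neg, mul_neg]
    exact h1
  have hnorm : ∀ θ (z : ℂ), ‖ro θ * ((k⁻¹ : ℝ) • z)‖ = ‖z‖ / k := by
    intro θ z
    rw [norm_mul, norm_ro, one_mul, norm_smul, Real.norm_eq_abs, abs_of_pos (inv_pos.2 hk)]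
    ring
  have hxd : ∀ x ∈ Ω, 2 * ‖x‖ ≤ diam Ω := by
    intro x hx
    have h1 := dist_le_diam_of_mem hb hx (hs x hx)
    rw [dist_eq_norm, sub_neg_eq_add, ← two_smul ℝ x, norm_smul, Real.norm_eq_abs,
      abs_of_pos two_pos] at h1
    exact h1
  have hzn : ∀ θ, ∀ z ∈ PP Ω k θ, ‖z‖ ≤ k * diam Ω / 2 := by
    intro θ z hz
    have h1 := hxd _ hz
    rw [hnorm] at h1
    have h2 : ‖z‖ = k * (‖z‖ / k) := by field_simp
    rw [h2]
    nlinarith
  have hPb : ∀ θ, Bornology.IsBounded (PP Ω k θ) := fun θ =>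
    (isBounded_closedBall (x := (0 : ℂ)) (r := k * diam Ω / 2)).subset fun z hz => by
      rw [mem_closedBall_zero_iff]; exact hzn θ z hz
  -- points of the set in polar form
  have hpol : ∀ x : ℂ, ∃ θ, ro θ * ((k⁻¹ : ℝ) • (((k * ‖x‖ : ℝ) : ℂ) * Complex.I)) = x := by
    intro x
    refine ⟨Complex.arg x - π / 2, ?_⟩
    have h1 : ro (Complex.arg x - π / 2) * Complex.I = ro (Complex.arg x) := by
      have : Complex.I = ro (π / 2) := by
        unfold ro
        push_cast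
        rw [Complex.exp_pi_div_two_mul_I]
      rw [this]
      unfold ro
      rw [← Complex.exp_add]
      congr 1
      push_cast
      ring
    have h2 : ro (Complex.arg x - π / 2) * ((k⁻¹ : ℝ) • (((k * ‖x‖ : ℝ) : ℂ) * Complex.I)) =
        ‖x‖ * (ro (Complex.arg x - π / 2) * Complex.I) := by
      rw [Complex.real_smul]
      have hkc : (k : ℂ) ≠ 0 := by exact_mod_cast hk.ne'
      push_cast
      field_simp
    rw [h2, h1]
    exact Complex.norm_mul_exp_arg_mul_I x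
  have hPne : ∀ θ, (PP Ω k θ).Nonempty := by
    intro θ
    obtain ⟨x, hx⟩ := hne
    refine ⟨0, ?_⟩
    change ro θ * ((k⁻¹ : ℝ) • (0 : ℂ)) ∈ Ω
    rw [smul_zero, mul_zero]
    have := hcv hx (hs x hx) (a := 1 / 2) (b := 1 / 2) (by norm_num) (by norm_num) (by norm_num)
    rwa [smul_neg, add_neg_cancel] at this
  -- the area
  set A : ℝ := k ^ 2 * (volume Ω).toReal with hA
  have hA0 : 0 ≤ A := by positivity
  have hbnd : ∀ θ, A ≤ 2 * π * sec (PP Ω k θ) 0 ∧ 4.96 * sec (PP Ω k θ) 0 ≤ A := by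
    intro θ
    have hS := sec_Sec (hPo θ) (hPc θ) (hPb θ) (hPne θ) (hPs θ)
    have ha : sSup (Complex.re '' PP Ω k θ) < 2 * π := by
      refine lt_of_le_of_lt (csSup_le ((hPne θ).image _) ?_)
        (show k * diam Ω / 2 < 2 * π by linarith)
      rintro _ ⟨z, hz, rfl⟩
      exact (le_abs_self _).trans ((Complex.abs_re_le_norm z).trans (hzn θ z hz))
    have e1 := (sec_fub (hPo θ) (hPb θ) (fun _ => 1) continuous_const (C := 1)
      (fun _ => by simp)).2
    have e2 := (sec_fub (hPo θ) (hPb θ) Real.cos Real.continuous_cos (C := 1)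
      Real.abs_cos_le_one).2
    rw [PP_int ho.measurableSet hk] at e1 e2
    have e3 : ∫ x in Ω, Real.cos (k • (conj (ro θ) * x)).re = 0 := by
      rw [← hft (k • ro θ) (by rw [norm_smul, norm_ro, mul_one, Real.norm_eq_abs,
        abs_of_pos hk])]
      refine integral_congr_ae (Eventually.of_forall fun x => ?_)
      simp only []
      congr 1
      rw [Complex.inner]
      simp only [Complex.real_smul, map_mul, Complex.conj_ofReal]
      congr 1
      ring
    rw [e3, mul_zero] at e2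
    have e4 : ∫ t, sec (PP Ω k θ) t = A := by
      simp only [mul_one] at e1
      rw [e1, hA]
      congr 1
      simp [measureReal_def]
    have u1 := hS.upper ha e2
    have u2 := hS.lower ha e2
    rw [e4] at u1 u2
    exact ⟨u1, u2⟩
  -- the inner disc
  have hin : ball (0 : ℂ) (A / (4 * π * k)) ⊆ Ω := by
    intro x hx
    rw [mem_ball_zero_iff, lt_div_iff₀ (by positivity)] at hx
    obtain ⟨θ, hθ⟩ := hpol x
    have h1 := (sec_zero (hPo θ) (hPc θ) (hPb θ) (hPs θ) (hPne θ) (k * ‖x‖)).2 (by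
      rw [abs_of_nonneg (by positivity)]
      have := (hbnd θ).1
      nlinarith)
    have h2 : ro θ * ((k⁻¹ : ℝ) • (((k * ‖x‖ : ℝ) : ℂ) * Complex.I)) ∈ Ω := h1
    rwa [hθ] at h2
  have hA16 : A ≤ 16 * π := by
    have h1 := measure_mono (μ := volume) hin
    rw [Complex.volume_ball] at h1
    have h2 := ENNReal.toReal_mono hb.measure_lt_top.ne h1
    have h3 : 0 ≤ A / (4 * π * k) := by positivity
    rw [ENNReal.toReal_mul, ENNReal.toReal_pow, ENNReal.toReal_ofReal h3] at h2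
    have h4 : ((NNReal.pi : ENNReal)).toReal = π := rfl
    rw [h4] at h2
    have h5 : k ^ 2 * ((A / (4 * π * k)) ^ 2 * π) ≤ A := by
      rw [hA]
      exact mul_le_mul_of_nonneg_left h2 (sq_nonneg k)
    have h6 : k ^ 2 * ((A / (4 * π * k)) ^ 2 * π) = A ^ 2 / (16 * π) := by
      field_simp
      norm_num
    rw [h6, div_le_iff₀ (by positivity)] at h5
    rcases eq_or_lt_of_le hA0 with h0 | h0
    · rw [← h0]; positivity
    · nlinarith
  intro x hx
  obtain ⟨θ, hθ⟩ := hpol x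
  have h1 : ((k * ‖x‖ : ℝ) : ℂ) * Complex.I ∈ PP Ω k θ := by
    change ro θ * ((k⁻¹ : ℝ) • (((k * ‖x‖ : ℝ) : ℂ) * Complex.I)) ∈ Ω
    rw [hθ]
    exact hx
  have h2 := (sec_zero (hPo θ) (hPc θ) (hPb θ) (hPs θ) (hPne θ) (k * ‖x‖)).1 h1
  rw [abs_of_nonneg (by positivity)] at h2
  have h3 := (hbnd θ).2
  have h4 := pi_lt_d4
  rw [le_div_iff₀ hk]
  nlinarith

/-- the theorem -/
theorem two (ho : IsOpen Ω) (hcv : Convex ℝ Ω) (hb : Bornology.IsBounded Ω) (hne : Ω.Nonempty)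
    (hs : ∀ x ∈ Ω, -x ∈ Ω) (hlam : 0 < lam) (hd : √lam * diam Ω < 4 * π)
    (h : Sol Ω lam c u G) (hu0 : ¬ (u =ᵐ[volume.restrict Ω] 0)) :
    ∃ r : ℝ, 0 < r ∧ Ω = ball 0 r := by
  have hm := ho.measurableSet
  have hc := h.c_ne hb hm hlam hu0
  have hk : 0 < √lam := Real.sqrt_pos.2 hlam
  have hkk : √lam ^ 2 = lam := Real.sq_sqrt hlam.le
  have hft : ∀ ξ : ℂ, ‖ξ‖ = √lam → ∫ x in Ω, Real.cos (inner ℝ ξ x) = 0 := by
    intro ξ hξ
    exact (Pool.Agent.W632.Schiffer.ft_zero hb hm hlam h.u2 h.h1 h.h2 hu0 ξ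
      (by rw [hξ, hkk])).1
  have hR := geo ho hcv hb hne hs hk hd hft
  have hζ : Complex.exp ((2 * π / (2 : ℕ) : ℝ) * Complex.I) = -1 := by
    rw [show (2 * π / (2 : ℕ) : ℝ) = π by push_cast; ring]
    exact Complex.exp_pi_mul_I
  have hΩ : ∀ x, Complex.exp ((2 * π / (2 : ℕ) : ℝ) * Complex.I) * x ∈ Ω ↔ x ∈ Ω := by
    intro x
    rw [hζ, neg_one_mul]
    constructor
    · intro h1
      have := hs _ h1
      rwa [neg_neg] at this
    · exact hs x
  obtain ⟨u', G', hS, hu'⟩ := h.symm hb hm two_pos (Complex.norm_exp_ofReal_mul_I _)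
    (by rw [hζ]; norm_num) hΩ
  obtain ⟨z, z1, z2, hz⟩ := comp_two (S := 1.001 * lam * (5.09 / √lam) ^ 2 / 4) (by
    rw [div_pow, hkk]
    have : 1.001 * lam * (5.09 ^ 2 / lam) / 4 = 1.001 * 5.09 ^ 2 / 4 := by
      field_simp
    rw [this]
    norm_num)
  have hrz : ∀ ψ, SC ψ → ∫ x in Ω, Lr ψ x = 0 := fun ψ hψ =>
    rot_zero (n := 2) two_pos ho (hcv.addHaar_frontier volume) hR
      (show 5.07 / √lam < 5.09 / √lam by
        apply div_lt_div_of_pos_right _ hk
        norm_num)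
      (by positivity) hlam (show lam < 1.001 * lam by linarith) hz hS hc hΩ hu' hψ
  exact ball_of_rot ho hb hcv hne fun t x hx => rot_inv ho hb hrz t hx

end Pool.Agent.TH298.Sch
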